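import Mathlib

/-!
# Birkhoff sums and periods
-/

namespace Pool.Agent.X221.PS

variable {X : Type}

/-- Birkhoff sums. -/
def bs (σ : X → X) (h : X → ℤ) (x : X) (n : ℕ) : ℤ := ∑ l ∈ Finset.range n, h (σ^[l] x)

/-- The values of the cocycle on the isotropy. -/
def Cs (σ : X → X) (h : X → ℤ) (x : X) (m c : ℤ) : Prop :=
  ∃ i j : ℕ, (i : ℤ) - j = m ∧ σ^[i] x = σ^[j] x ∧ bs σ h x i - bs σ h x j = c

lemma bs_zero (σ : X → X) (h : X → ℤ) (x : X) : bs σ h x 0 = 0 := by simp [bs]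

lemma bs_succ' (σ : X → X) (h : X → ℤ) (x : X) (n : ℕ) :
    bs σ h x (n + 1) = h x + bs σ h (σ x) n := by
  rw [bs, Finset.sum_range_succ', add_comm]; rfl

lemma bs_add (σ : X → X) (h : X → ℤ) (x : X) (m n : ℕ) :
    bs σ h x (m + n) = bs σ h x m + bs σ h (σ^[m] x) n := by
  rw [bs, bs, bs, Finset.sum_range_add]
  congr 1
  refine Finset.sum_congr rfl fun l _ => ?_
  rw [← Function.iterate_add_apply, add_comm]

lemma bs_one (σ : X → X) (x : X) (n : ℕ) : bs σ (fun _ => 1) x n = n := by simp [bs]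

end Pool.Agent.X221.PS
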