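import Mathlib
import Pool.Agent.X221.PS.Bsum

/-!
# Presentations, walks, signs and potentials
-/

namespace Pool.Agent.X221.PS

variable {X S : Type}

/-- A presentation of a dynamical system by a relation between symbols. -/
structure Pres (σ : X → X) (rel : S → S → Prop) (c : X → S) : Prop where
  step : ∀ x, rel (c x) (c (σ x))
  ex : ∀ s : ℕ → S, (∀ i, rel (s i) (s (i + 1))) → ∃ x, ∀ i, c (σ^[i] x) = s i
  uq : ∀ x y, (∀ i, c (σ^[i] x) = c (σ^[i] y)) → x = y
  irr : ∀ a b, Relation.TransGen rel a b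

variable {σ : X → X} {rel : S → S → Prop} {c : X → S}

/-- Closed words are realised by periodic points. -/
theorem Pres.closed (P : Pres σ rel c) (s : ℕ → S) (k : ℕ) (hk : 1 ≤ k) (h0 : s k = s 0)
    (hr : ∀ i < k, rel (s i) (s (i + 1))) :
    ∃ x, σ^[k] x = x ∧ ∀ l ≤ k, c (σ^[l] x) = s l := by
  obtain ⟨x, hx⟩ := P.ex (fun i => s (i % k)) (fun i => by
    have h1 : i % k < k := Nat.mod_lt _ hk
    have h2 := hr _ h1
    by_cases h3 : i % k + 1 = k
    · have h4 : (i + 1) % k = 0 := by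
        rw [Nat.add_mod, ← Nat.mod_add_mod, Nat.mod_mod]
        rcases Nat.lt_or_ge 1 k with h5 | h5
        · rw [Nat.mod_eq_of_lt h5, h3, Nat.mod_self]
        · have : k = 1 := by omega
          rw [this]; exact Nat.mod_one _
      rw [h4, ← h0]
      rw [h3] at h2
      exact h2
    · have h4 : (i + 1) % k = i % k + 1 := by
        rw [Nat.add_mod]
        rw [Nat.mod_eq_of_lt (by omega : 1 < k)]
        exact Nat.mod_eq_of_lt (by omega)
      rw [h4]
      exact h2)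
  refine ⟨x, P.uq _ _ fun i => ?_, fun l hl => ?_⟩
  · rw [← Function.iterate_add_apply, hx, hx, Nat.add_mod_right]
  · rw [hx]
    rcases Nat.lt_or_ge l k with h | h
    · rw [Nat.mod_eq_of_lt h]
    · have : l = k := le_antisymm hl h
      rw [this, Nat.mod_self, h0]

/-! ### Walks -/

variable (rel) in
/-- Walks with length and weight. -/
inductive Wk (w : S → ℤ) : ℕ → S → S → ℤ → Prop
  | nil (a : S) : Wk w 0 a a 0
  | cons {k : ℕ} {a b d : S} {n : ℤ} : rel a b → Wk w k b d n → Wk w (k + 1) a d (w a + n)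

variable {w : S → ℤ}

lemma Wk.comp {k l : ℕ} {a b d : S} {n m : ℤ} (h : Wk rel w k a b n) (h' : Wk rel w l b d m) :
    Wk rel w (k + l) a d (n + m) := by
  induction h with
  | nil a => rw [zero_add, zero_add]; exact h'
  | cons hr _ ih =>
    rw [Nat.succ_add, add_assoc]
    exact Wk.cons hr (ih h')

lemma Wk.toFun {k : ℕ} {a b : S} {n : ℤ} (h : Wk rel w k a b n) :
    ∃ s : ℕ → S, s 0 = a ∧ s k = b ∧ (∀ i < k, rel (s i) (s (i + 1))) ∧
      ∑ i ∈ Finset.range k, w (s i) = n := by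
  induction h with
  | nil a => exact ⟨fun _ => a, rfl, rfl, fun i hi => absurd hi (Nat.not_lt_zero i), by simp⟩
  | @cons k a b d n hr _ ih =>
    obtain ⟨s, h0, h1, h2, h3⟩ := ih
    refine ⟨fun i => Nat.casesOn i a s, rfl, h1, ?_, ?_⟩
    · intro i hi
      cases i with
      | zero => show rel a (s 0); rw [h0]; exact hr
      | succ i => exact h2 i (by omega)
    · rw [Finset.sum_range_succ', add_comm]
      exact congrArg (fun z => w a + z) h3

lemma Wk.of_trans {a b : S} (h : Relation.TransGen rel a b) :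
    ∃ k n, 1 ≤ k ∧ Wk rel w k a b n := by
  induction h using Relation.TransGen.head_induction_on with
  | single h => exact ⟨1, w _ + 0, le_rfl, Wk.cons h (Wk.nil _)⟩
  | head h _ ih =>
    obtain ⟨k, n, hk, hw⟩ := ih
    exact ⟨k + 1, _, by omega, Wk.cons h hw⟩

lemma Wk.pow {k : ℕ} {a : S} {n : ℤ} (h : Wk rel w k a a n) (t : ℕ) :
    Wk rel w (t * k) a a (t * n) := by
  induction t with
  | zero => simpa using Wk.nil a
  | succ t ih =>
    have h1 := ih.comp h
    have e1 : (t + 1) * k = t * k + k := by ring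
    have e2 : ((t + 1 : ℕ) : ℤ) * n = t * n + n := by push_cast; ring
    rw [e1, e2]; exact h1

lemma Wk.of_point (P : Pres σ rel c) (x : X) (k : ℕ) :
    Wk rel w k (c x) (c (σ^[k] x)) (bs σ (fun x => w (c x)) x k) := by
  induction k generalizing x with
  | zero => rw [bs_zero]; exact Wk.nil _
  | succ k ih =>
    rw [bs_succ', Function.iterate_succ_apply]
    exact Wk.cons (P.step x) (ih (σ x))

lemma Wk.closed (P : Pres σ rel c) {k : ℕ} (hk : 1 ≤ k) {a : S} {n : ℤ}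
    (h : Wk rel w k a a n) : ∃ x, σ^[k] x = x ∧ bs σ (fun x => w (c x)) x k = n := by
  obtain ⟨s, h0, h1, h2, h3⟩ := h.toFun
  obtain ⟨x, hx, hx'⟩ := P.closed s k hk (h1.trans h0.symm) h2
  refine ⟨x, hx, ?_⟩
  rw [← h3, bs]
  refine Finset.sum_congr rfl fun i hi => ?_
  rw [hx' i (Finset.mem_range.1 hi).le]

/-- All closed words have weights of the same sign. -/
theorem sign (P : Pres σ rel c) (hinj : ∀ x m, Cs σ (fun x => w (c x)) x m 0 → m = 0) :
    (∀ k a n, 1 ≤ k → Wk rel w k a a n → 0 < n) ∨ (∀ k a n, 1 ≤ k → Wk rel w k a a n → n < 0) := by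
  have hne : ∀ k a n, 1 ≤ k → Wk rel w k a a n → n ≠ 0 := by
    rintro k a n hk h rfl
    obtain ⟨x, hx, hx'⟩ := h.closed P hk
    have := hinj x k ⟨k, 0, by simp, hx, by rw [hx', bs_zero, sub_zero]⟩
    omega
  by_contra hcon
  push Not at hcon
  obtain ⟨⟨k, a, n, hk, hw, hn⟩, l, b, m, hl, hw', hm⟩ := hcon
  have hn' : n < 0 := lt_of_le_of_ne hn (hne _ _ _ hk hw)
  have hm' : 0 < m := lt_of_le_of_ne hm (hne _ _ _ hl hw').symm
  obtain ⟨ka, na, hka, hα⟩ := Wk.of_trans (w := w) (P.irr a b)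
  obtain ⟨kb, nb, hkb, hβ⟩ := Wk.of_trans (w := w) (P.irr b a)
  -- the combined closed word
  let C := na + nb
  obtain ⟨V, hV⟩ : ∃ V : ℕ, (V : ℤ) = m := ⟨m.toNat, Int.toNat_of_nonneg hm'.le⟩
  obtain ⟨U, hU⟩ : ∃ U : ℕ, (U : ℤ) = -n := ⟨(-n).toNat, Int.toNat_of_nonneg (by omega)⟩
  have hV0 : 1 ≤ V := by omega
  have hU0 : 1 ≤ U := by omega
  obtain ⟨T, hT⟩ : ∃ T : ℕ, (C : ℤ) ≤ T := ⟨C.toNat, Int.self_le_toNat C⟩
  obtain ⟨J, hJ⟩ : ∃ J : ℕ, (J : ℤ) = U * T - C := ⟨(U * T - C).toNat,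
    Int.toNat_of_nonneg (by
      have : (T : ℤ) ≤ U * T := by
        have h1 : (1 : ℤ) ≤ U := by exact_mod_cast hU0
        nlinarith [Int.natCast_nonneg T]
      linarith)⟩
  have h1 := (hw.pow (V * T)).comp (((hα.comp hβ).pow (V - 1)).comp (hα.comp
    ((hw'.pow J).comp hβ)))
  refine hne _ _ _ ?_ h1 ?_
  · omega
  · have e1 : ((V - 1 : ℕ) : ℤ) = m - 1 := by
      rw [Nat.cast_sub hV0, hV]; simp
    rw [e1, hJ, Nat.cast_mul, hV, hU]
    show m * T * n + ((m - 1) * (na + nb) + (na + ((-n * T - (na + nb)) * m + nb))) = 0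
    ring

/-- Potentials. -/
theorem potential [Nonempty S] (hirr : ∀ a b, Relation.TransGen rel a b)
    (hpos : ∀ k a n, 1 ≤ k → Wk rel w k a a n → 0 < n) :
    ∃ p : S → ℤ, ∀ a b, rel a b → 0 ≤ w a + p a - p b := by
  obtain ⟨a0⟩ := ‹Nonempty S›
  let A : S → Set ℤ := fun b => {n | ∃ k, Wk rel w k a0 b n}
  have hne : ∀ b, (A b).Nonempty := fun b => by
    obtain ⟨k, n, _, h⟩ := Wk.of_trans (w := w) (hirr a0 b)
    exact ⟨n, k, h⟩
  have hbd : ∀ b, BddBelow (A b) := fun b => by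
    obtain ⟨l, r, hl, h⟩ := Wk.of_trans (w := w) (hirr b a0)
    refine ⟨-r, ?_⟩
    rintro n ⟨k, hk⟩
    have := hpos _ _ _ (by omega) (hk.comp h)
    linarith
  refine ⟨fun b => sInf (A b), fun a b hab => ?_⟩
  have h1 : sInf (A a) ∈ A a := Int.csInf_mem (hne a) (hbd a)
  obtain ⟨k, hk⟩ := h1
  have h2 : w a + sInf (A a) ∈ A b := by
    refine ⟨k + 1, ?_⟩
    have h3 := hk.comp (Wk.cons hab (Wk.nil b) : Wk rel w 1 a b (w a + 0))
    rw [add_zero, add_comm (sInf (A a))] at h3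
    exact h3
  have h3 := csInf_le (hbd b) h2
  linarith

end Pool.Agent.X221.PS
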