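import Mathlib

/-!
# Determinants and traces of powers
-/

namespace Pool.Agent.X221.PS

open Polynomial Matrix Finset

variable {n : Type*} [Fintype n] [DecidableEq n] {R : Type*} [CommRing R]

/-- The entrywise derivative of a matrix. -/
noncomputable def dM (M : Matrix n n R[X]) : Matrix n n R[X] := fun i j => derivative (M i j)

omit [DecidableEq n] in
lemma dM_mul (A B : Matrix n n R[X]) : dM (A * B) = dM A * B + A * dM B := by
  ext1 i j
  simp only [dM, Matrix.mul_apply, Matrix.add_apply, derivative_sum, derivative_mul,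
    Finset.sum_add_distrib]

/-- Jacobi's formula. -/
theorem derivative_det (M : Matrix n n R[X]) :
    derivative M.det = (M.adjugate * dM M).trace := by
  have h1 : derivative M.det = ∑ i, (M.updateCol i (fun r => derivative (M r i))).det := by
    rw [Matrix.det_apply, derivative_sum]
    simp only [Matrix.det_apply]
    rw [Finset.sum_comm]
    refine Finset.sum_congr rfl fun τ _ => ?_
    rw [← Finset.smul_sum, Units.smul_def, Units.smul_def, map_zsmul]
    congr 1
    rw [derivative_prod_finset]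
    refine Finset.sum_congr rfl fun i _ => ?_
    rw [← Finset.prod_erase_mul _ _ (Finset.mem_univ i)]
    congr 1
    · refine Finset.prod_congr rfl fun j hj => ?_
      rw [Matrix.updateCol_ne (Finset.ne_of_mem_erase hj)]
    · rw [Matrix.updateCol_self]
  rw [h1, Matrix.trace]
  refine Finset.sum_congr rfl fun i _ => ?_
  rw [← Matrix.cramer_apply, Matrix.cramer_eq_adjugate_mulVec, Matrix.diag_apply,
    Matrix.mul_apply]
  rfl

lemma trace_pow_deriv (M : Matrix n n R[X]) (k l : ℕ) :
    (M ^ l * dM (M ^ (k + 1))).trace = (k + 1) * (M ^ (l + k) * dM M).trace := by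
  induction k generalizing l with
  | zero => simp
  | succ k ih =>
    rw [pow_succ M (k + 1), dM_mul, mul_add, Matrix.trace_add, ← mul_assoc, Matrix.trace_mul_comm,
      ← mul_assoc, ← pow_succ', ih, ← mul_assoc, ← pow_add]
    have e1 : l + 1 + k = l + (k + 1) := by ring
    rw [e1]
    push_cast
    ring

omit [DecidableEq n] in
lemma deriv_trace (M : Matrix n n R[X]) : derivative M.trace = (dM M).trace := by
  rw [Matrix.trace, derivative_sum]; rfl

lemma trace_deriv (M : Matrix n n ℚ[X]) (k : ℕ) :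
    (M ^ k * dM M).trace = C ((k + 1 : ℚ)⁻¹) * derivative (M ^ (k + 1)).trace := by
  have h := trace_pow_deriv M k 0
  rw [pow_zero, one_mul, zero_add] at h
  rw [deriv_trace, h, ← mul_assoc]
  have : (C ((k + 1 : ℚ)⁻¹) : ℚ[X]) * (k + 1) = 1 := by
    have e : ((k : ℚ[X]) + 1) = C ((k : ℚ) + 1) := by simp
    rw [e, ← C_mul, inv_mul_cancel₀ (by positivity), C_1]
  rw [this, one_mul]

theorem det_deriv (M : Matrix n n ℚ[X]) (L : ℕ) :
    derivative (1 - M).det = -((1 - M).det * ∑ k ∈ range L,
      C ((k + 1 : ℚ)⁻¹) * derivative (M ^ (k + 1)).trace) -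
      ((1 - M).adjugate * M ^ L * dM M).trace := by
  rw [derivative_det]
  have h1 : dM (1 - M) = -dM M := by
    ext1 i j
    simp only [dM, Matrix.sub_apply, derivative_sub, Matrix.neg_apply, Matrix.one_apply]
    split_ifs <;> simp
  have h2 : (1 - M).adjugate = (1 - M).det • ∑ k ∈ range L, M ^ k + (1 - M).adjugate * M ^ L := by
    have e1 := mul_neg_geom_sum M L
    have e2 := congrArg (fun A => (1 - M).adjugate * A) e1
    simp only [mul_sub, mul_one] at e2
    rw [← mul_assoc, Matrix.adjugate_mul, smul_mul_assoc, one_mul] at e2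
    rw [e2]
    abel
  conv_lhs => rw [h2]
  rw [h1, mul_neg, Matrix.trace_neg, add_mul, Matrix.trace_add, smul_mul_assoc, Matrix.trace_smul,
    Finset.sum_mul, Matrix.trace_sum, smul_eq_mul, neg_add, sub_eq_add_neg]
  congr 3
  congr 1
  exact funext fun k => trace_deriv M k

/-- The recursion for the coefficients of the determinant. -/
theorem det_rec (M : Matrix n n ℚ[X]) (L N : ℕ) (hL : ∀ a b, (X : ℚ[X]) ^ (N + 1) ∣ (M ^ L) a b) :
    ((N : ℚ) + 1) * (1 - M).det.coeff (N + 1) = -∑ p ∈ antidiagonal N, (1 - M).det.coeff p.1 *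
      ∑ k ∈ range L, (p.2 + 1 : ℚ) * ((k + 1 : ℚ)⁻¹) * (M ^ (k + 1)).trace.coeff (p.2 + 1) := by
  have h := congrArg (fun f => f.coeff N) (det_deriv M L)
  simp only [coeff_sub, coeff_neg] at h
  rw [coeff_derivative] at h
  have h1 : ((1 - M).adjugate * M ^ L * dM M).trace.coeff N = 0 := by
    have : (X : ℚ[X]) ^ (N + 1) ∣ ((1 - M).adjugate * M ^ L * dM M).trace := by
      rw [Matrix.trace]
      refine Finset.dvd_sum fun i _ => ?_
      rw [Matrix.diag_apply, Matrix.mul_apply]
      refine Finset.dvd_sum fun j _ => ?_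
      refine Dvd.dvd.mul_right ?_ _
      rw [Matrix.mul_apply]
      refine Finset.dvd_sum fun l _ => ?_
      exact Dvd.dvd.mul_left (hL _ _) _
    exact X_pow_dvd_iff.1 this N (Nat.lt_succ_self N)
  rw [h1, sub_zero, coeff_mul] at h
  rw [mul_comm, h]
  congr 1
  refine Finset.sum_congr rfl fun p _ => ?_
  congr 1
  rw [finsetSum_coeff]
  refine Finset.sum_congr rfl fun k _ => ?_
  rw [coeff_C_mul, coeff_derivative]
  ring

/-- Two matrices with the same weighted numbers of closed paths. -/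
theorem det_unique {m : Type*} [Fintype m] [DecidableEq m] (M : Matrix n n ℚ[X])
    (M' : Matrix m m ℚ[X])
    (hM : ∀ N, ∃ L, ∀ l, L ≤ l → ∀ a b, (X : ℚ[X]) ^ (N + 1) ∣ (M ^ l) a b)
    (hM' : ∀ N, ∃ L, ∀ l, L ≤ l → ∀ a b, (X : ℚ[X]) ^ (N + 1) ∣ (M' ^ l) a b)
    (h0 : (1 - M).det.coeff 0 = (1 - M').det.coeff 0)
    (ht : ∀ j : ℕ, ∃ L, ∀ l, L ≤ l →
      ∑ k ∈ range l, (j + 1 : ℚ) * ((k + 1 : ℚ)⁻¹) * (M ^ (k + 1)).trace.coeff (j + 1) =
      ∑ k ∈ range l, (j + 1 : ℚ) * ((k + 1 : ℚ)⁻¹) * (M' ^ (k + 1)).trace.coeff (j + 1)) :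
    (1 - M).det = (1 - M').det := by
  ext N
  induction N using Nat.strong_induction_on with
  | _ N ih =>
    cases N with
    | zero => exact h0
    | succ N =>
      obtain ⟨L1, hL1⟩ := hM N
      obtain ⟨L2, hL2⟩ := hM' N
      choose L3 hL3 using ht
      let l := max (max L1 L2) ((range (N + 1)).sup L3)
      have e1 := det_rec M l N (hL1 l (le_trans (le_max_left _ _) (le_max_left _ _)))
      have e2 := det_rec M' l N (hL2 l (le_trans (le_max_right _ _) (le_max_left _ _)))
      have e3 : ∑ p ∈ antidiagonal N, (1 - M).det.coeff p.1 *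
          ∑ k ∈ range l, (p.2 + 1 : ℚ) * ((k + 1 : ℚ)⁻¹) * (M ^ (k + 1)).trace.coeff (p.2 + 1) =
          ∑ p ∈ antidiagonal N, (1 - M').det.coeff p.1 *
          ∑ k ∈ range l, (p.2 + 1 : ℚ) * ((k + 1 : ℚ)⁻¹) * (M' ^ (k + 1)).trace.coeff (p.2 + 1) := by
        refine Finset.sum_congr rfl fun p hp => ?_
        rw [HasAntidiagonal.mem_antidiagonal] at hp
        rw [ih p.1 (by omega), hL3 p.2 l (le_trans (Finset.le_sup (mem_range.2 (by omega)))
          (le_max_right _ _))]
      rw [e3, ← e2] at e1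
      have hN : (N : ℚ) + 1 ≠ 0 := by positivity
      exact mul_left_cancel₀ hN e1

/-- The determinant of one minus a nilpotent matrix. -/
theorem det_one_sub_nilpotent (M : Matrix n n ℚ) (h : IsNilpotent M) : (1 - M).det = 1 := by
  obtain ⟨u, hu, hu'⟩ := Polynomial.isUnit_iff.1 (isUnit_charpolyRev_of_isNilpotent h)
  have h0 := M.eval_charpolyRev
  rw [← hu', eval_C] at h0
  have h1 : M.charpolyRev.eval 1 = (1 - M).det := by
    rw [charpolyRev, ← coe_evalRingHom, RingHom.map_det]
    congr 1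
    ext i j
    simp [Matrix.one_apply, apply_ite]
  rw [← h1, ← hu', eval_C, h0]


end Pool.Agent.X221.PS
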