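import Mathlib
import Pool.Agent.X221.PS.Sft
import Pool.Agent.X221.PS.Zeta

/-!
# Traces of powers of the weighted matrix of a presentation
-/

namespace Pool.Agent.X221.PS

open Finset Polynomial

open scoped Classical in
section

variable {S : Type} [Fintype S] {R : Type*} [CommRing R]

/-- Entries of powers. -/
theorem pow_entry (M : Matrix S S R) (k : ℕ) (a b : S) :
    (M ^ k) a b = ∑ f : Fin (k + 1) → S, if f 0 = a ∧ f (Fin.last k) = b then
      ∏ i : Fin k, M (f i.castSucc) (f i.succ) else 0 := by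
  induction k generalizing a with
  | zero =>
    rw [pow_zero, Matrix.one_apply,
      ← (Equiv.funUnique (Fin 1) S).symm.sum_comp]
    have h : ∀ x : S, (if ((Equiv.funUnique (Fin 1) S).symm x) 0 = a ∧
        ((Equiv.funUnique (Fin 1) S).symm x) (Fin.last 0) = b then
        ∏ i : Fin 0, M (((Equiv.funUnique (Fin 1) S).symm x) i.castSucc)
          (((Equiv.funUnique (Fin 1) S).symm x) i.succ) else 0) =
        if x = a then (if a = b then (1 : R) else 0) else 0 := by
      intro x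
      have e1 : ∀ i, ((Equiv.funUnique (Fin 1) S).symm x) i = x := fun i => rfl
      rw [e1, e1, Fin.prod_univ_zero]
      by_cases h1 : x = a
      · subst h1
        by_cases h2 : x = b
        · simp [h2]
        · simp [h2]
      · simp [h1]
    rw [Finset.sum_congr rfl fun x _ => h x, Finset.sum_ite_eq' Finset.univ a]
    simp
  | succ k ih =>
    rw [pow_succ', Matrix.mul_apply, ← (Fin.consEquiv fun _ : Fin (k + 2) => S).sum_comp,
      Fintype.sum_prod_type]
    have h : ∀ x : S, (∑ y : Fin (k + 1) → S,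
        if ((Fin.consEquiv fun _ : Fin (k + 2) => S) (x, y)) 0 = a ∧
          ((Fin.consEquiv fun _ : Fin (k + 2) => S) (x, y)) (Fin.last (k + 1)) = b then
          ∏ i : Fin (k + 1), M (((Fin.consEquiv fun _ : Fin (k + 2) => S) (x, y)) i.castSucc)
            (((Fin.consEquiv fun _ : Fin (k + 2) => S) (x, y)) i.succ) else 0) =
        if x = a then ∑ d, M a d * (M ^ k) d b else 0 := by
      intro x
      by_cases h1 : x = a
      · subst h1
        rw [if_pos rfl]
        simp only [ih, Finset.mul_sum]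
        rw [Finset.sum_comm]
        refine Finset.sum_congr rfl fun y _ => ?_
        have e0 : ((Fin.consEquiv fun _ : Fin (k + 2) => S) (x, y)) 0 = x := rfl
        have e1 : ∀ i : Fin (k + 1), ((Fin.consEquiv fun _ : Fin (k + 2) => S) (x, y)) i.succ = y i :=
          fun i => rfl
        have e2 : ((Fin.consEquiv fun _ : Fin (k + 2) => S) (x, y)) (Fin.last (k + 1)) =
            y (Fin.last k) := rfl
        rw [e0, e2]
        by_cases h2 : y (Fin.last k) = b
        · rw [if_pos ⟨rfl, h2⟩, Fin.prod_univ_succ, Finset.sum_eq_single (y 0)]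
          · rw [if_pos ⟨rfl, h2⟩]
            rfl
          · intro d _ hd
            rw [if_neg fun h => hd h.1.symm, mul_zero]
          · intro h; exact absurd (Finset.mem_univ _) h
        · rw [if_neg fun h => h2 h.2]
          refine (Finset.sum_eq_zero fun d _ => ?_).symm
          rw [if_neg fun h => h2 h.2, mul_zero]
      · rw [if_neg h1]
        refine Finset.sum_eq_zero fun y _ => ?_
        rw [if_neg fun h => h1 h.1]
    rw [Finset.sum_congr rfl fun x _ => h x, Finset.sum_ite_eq' Finset.univ a, if_pos (Finset.mem_univ _)]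

/-- The weighted matrix of a relation. -/
noncomputable def wM (rel : S → S → Prop) (g : S → S → R) : Matrix S S R :=
  fun a b => if rel a b then g a b else 0

omit [Fintype S] in
lemma prod_wM (rel : S → S → Prop) (g : S → S → R) (k : ℕ) (f : Fin (k + 1) → S) :
    ∏ i : Fin k, wM rel g (f i.castSucc) (f i.succ) =
      if ∀ i : Fin k, rel (f i.castSucc) (f i.succ) then
        ∏ i : Fin k, g (f i.castSucc) (f i.succ) else 0 := by
  by_cases h : ∀ i : Fin k, rel (f i.castSucc) (f i.succ)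
  · rw [if_pos h]
    exact Finset.prod_congr rfl fun i _ => if_pos (h i)
  · rw [if_neg h]
    push Not at h
    obtain ⟨i, hi⟩ := h
    exact Finset.prod_eq_zero (Finset.mem_univ i) (if_neg hi)

variable {X : Type} {σ : X → X} {rel : S → S → Prop} {c : X → S}

lemma iter_periodic {x : X} {k : ℕ} (hx : σ^[k] x = x) (t : ℕ) : σ^[t * k] x = x := by
  rw [mul_comm, Function.iterate_mul]
  exact Function.iterate_fixed hx t

lemma iter_mod {x : X} {k : ℕ} (hx : σ^[k] x = x) (i : ℕ) : σ^[i % k] x = σ^[i] x := by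
  conv_rhs => rw [← Nat.mod_add_div i k, mul_comm, Function.iterate_add_apply,
    iter_periodic hx]

/-- The word of a point. -/
def wd (σ : X → X) (c : X → S) (k : ℕ) (x : X) : Fin (k + 1) → S := fun i => c (σ^[i.1] x)

omit [Fintype S] in
lemma wd_inj (P : Pres σ rel c) {k : ℕ} (hk : 1 ≤ k) {x y : X} (hx : σ^[k] x = x)
    (hy : σ^[k] y = y) (h : wd σ c k x = wd σ c k y) : x = y := by
  apply P.uq
  intro i
  have h1 := congrFun h ⟨i % k, lt_of_lt_of_le (Nat.mod_lt _ hk) (Nat.le_succ k)⟩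
  have h2 : c (σ^[i % k] x) = c (σ^[i % k] y) := h1
  rwa [iter_mod hx, iter_mod hy] at h2

lemma fin_periodic (P : Pres σ rel c) {k : ℕ} (hk : 1 ≤ k) : {x : X | σ^[k] x = x}.Finite := by
  apply Set.Finite.of_finite_image (f := wd σ c k) (Set.toFinite _)
  intro x hx y hy h
  exact wd_inj P hk hx hy h

/-- The trace as a sum over periodic points. -/
theorem trace_pow (P : Pres σ rel c) (g : S → S → R) {k : ℕ} (hk : 1 ≤ k) :
    ((wM rel g) ^ k).trace = ∑ x ∈ (fin_periodic P hk).toFinset,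
      ∏ l ∈ range k, g (c (σ^[l] x)) (c (σ^[l + 1] x)) := by
  have h1 : ((wM rel g) ^ k).trace = ∑ f : Fin (k + 1) → S,
      if f 0 = f (Fin.last k) ∧ ∀ i : Fin k, rel (f i.castSucc) (f i.succ) then
        ∏ i : Fin k, g (f i.castSucc) (f i.succ) else 0 := by
    rw [Matrix.trace]
    simp only [Matrix.diag_apply, pow_entry]
    rw [Finset.sum_comm]
    refine Finset.sum_congr rfl fun f _ => ?_
    rw [Finset.sum_eq_single (f 0)]
    · rw [prod_wM]
      by_cases h2 : f 0 = f (Fin.last k)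
      · by_cases h3 : ∀ i : Fin k, rel (f i.castSucc) (f i.succ)
        · rw [if_pos ⟨rfl, h2.symm⟩, if_pos h3, if_pos ⟨h2, h3⟩]
        · rw [if_pos ⟨rfl, h2.symm⟩, if_neg h3, if_neg fun h => h3 h.2]
      · rw [if_neg fun h => h2 h.2.symm, if_neg fun h => h2 h.1]
    · intro a _ ha
      rw [if_neg fun h => ha h.1.symm]
    · intro h; exact absurd (Finset.mem_univ _) h
  rw [h1, ← Finset.sum_filter]
  symm
  refine Finset.sum_nbij (wd σ c k) ?_ ?_ ?_ ?_
  · intro x hx
    rw [Set.Finite.mem_toFinset] at hx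
    rw [Finset.mem_filter]
    refine ⟨Finset.mem_univ _, ?_, fun i => ?_⟩
    · show c (σ^[0] x) = c (σ^[k] x)
      rw [show σ^[k] x = x from hx]; rfl
    · show rel (c (σ^[i.1] x)) (c (σ^[i.1 + 1] x))
      rw [Function.iterate_succ_apply']
      exact P.step _
  · intro x hx y hy h
    rw [Finset.mem_coe, Set.Finite.mem_toFinset] at hx hy
    exact wd_inj P hk hx hy h
  · intro f hf
    rw [Finset.mem_coe, Finset.mem_filter] at hf
    obtain ⟨_, hf1, hf2⟩ := hf
    obtain ⟨x, hx, hx'⟩ := P.closed (fun i => f (Fin.ofNat (k + 1) i)) k hk (by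
      show f (Fin.ofNat (k + 1) k) = f (Fin.ofNat (k + 1) 0)
      have e1 : Fin.ofNat (k + 1) k = Fin.last k := Fin.ext (Nat.mod_eq_of_lt (Nat.lt_succ_self k))
      have e2 : Fin.ofNat (k + 1) 0 = 0 := rfl
      rw [e1, e2, hf1]) (fun i hi => by
      have e1 : Fin.ofNat (k + 1) i = (⟨i, hi⟩ : Fin k).castSucc :=
        Fin.ext (Nat.mod_eq_of_lt (by omega))
      have e2 : Fin.ofNat (k + 1) (i + 1) = (⟨i, hi⟩ : Fin k).succ :=
        Fin.ext (Nat.mod_eq_of_lt (by omega))
      rw [e1, e2]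
      exact hf2 _)
    refine ⟨x, ?_, ?_⟩
    · rw [Finset.mem_coe, Set.Finite.mem_toFinset]; exact hx
    · funext i
      show c (σ^[i.1] x) = f i
      rw [hx' i.1 (Nat.lt_succ_iff.1 i.2)]
      show f (Fin.ofNat (k + 1) i.1) = f i
      congr 1
      exact Fin.ext (Nat.mod_eq_of_lt i.2)
  · intro x _
    rw [Finset.prod_range]
    rfl

/-- The matrix of the steps of weight zero is nilpotent. -/
theorem nilp (P : Pres σ rel c) (W : S → S → ℕ)
    (hpos : ∀ k x, 1 ≤ k → σ^[k] x = x →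
      0 < ∑ l ∈ range k, W (c (σ^[l] x)) (c (σ^[l + 1] x))) :
    IsNilpotent (wM rel fun a b => if W a b = 0 then (1 : R) else 0) := by
  refine ⟨Fintype.card S, ?_⟩
  generalize hs : Fintype.card S = s
  ext a b
  rw [pow_entry, Matrix.zero_apply]
  refine Finset.sum_eq_zero fun f _ => ?_
  by_cases hab : f 0 = a ∧ f (Fin.last s) = b
  swap
  · rw [if_neg hab]
  rw [if_pos hab, prod_wM]
  by_cases hr : ∀ i : Fin s, rel (f i.castSucc) (f i.succ)
  swap
  · rw [if_neg hr]
  rw [if_pos hr]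
  -- a repetition
  obtain ⟨i, j, hij, hf⟩ := Fintype.exists_ne_map_eq_of_card_lt f (by simp [hs])
  wlog hlt : i < j generalizing i j
  · exact this j i hij.symm hf.symm (lt_of_le_of_ne (not_lt.1 hlt) hij.symm)
  by_contra hne
  have hW : ∀ l : Fin s, W (f l.castSucc) (f l.succ) = 0 := by
    intro l
    by_contra h
    exact hne (Finset.prod_eq_zero (Finset.mem_univ l) (if_neg h))
  have hlt' : i.1 < j.1 := hlt
  have hj := j.2
  have ef : ∀ l (hl : l < s), f (Fin.ofNat (s + 1) l) = f (⟨l, hl⟩ : Fin s).castSucc ∧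
      f (Fin.ofNat (s + 1) (l + 1)) = f (⟨l, hl⟩ : Fin s).succ := by
    intro l hl
    exact ⟨congrArg f (Fin.ext (Nat.mod_eq_of_lt (by omega))),
      congrArg f (Fin.ext (Nat.mod_eq_of_lt (by omega)))⟩
  have ei : f (Fin.ofNat (s + 1) i.1) = f i := congrArg f (Fin.ext (Nat.mod_eq_of_lt i.2))
  have ej : f (Fin.ofNat (s + 1) j.1) = f j := congrArg f (Fin.ext (Nat.mod_eq_of_lt j.2))
  obtain ⟨x, hx, hx'⟩ := P.closed (fun l => f (Fin.ofNat (s + 1) (i.1 + l))) (j.1 - i.1)
    (by omega) (by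
      show f (Fin.ofNat (s + 1) (i.1 + (j.1 - i.1))) = f (Fin.ofNat (s + 1) i.1)
      rw [Nat.add_sub_cancel' hlt'.le, ei, ej, hf]) (fun l hl => by
      obtain ⟨e1, e2⟩ := ef (i.1 + l) (by omega)
      show rel (f (Fin.ofNat (s + 1) (i.1 + l))) (f (Fin.ofNat (s + 1) (i.1 + l + 1)))
      rw [e1, e2]
      exact hr _)
  have h1 := hpos (j.1 - i.1) x (by omega) hx
  have h2 : ∑ l ∈ range (j.1 - i.1), W (c (σ^[l] x)) (c (σ^[l + 1] x)) = 0 := by
    refine Finset.sum_eq_zero fun l hl => ?_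
    rw [Finset.mem_range] at hl
    rw [hx' l hl.le, hx' (l + 1) (by omega)]
    obtain ⟨e1, e2⟩ := ef (i.1 + l) (by omega)
    show W (f (Fin.ofNat (s + 1) (i.1 + l))) (f (Fin.ofNat (s + 1) (i.1 + l + 1))) = 0
    rw [e1, e2]
    exact hW _
  omega

/-- The polynomial matrix of a weight. -/
noncomputable def pM (rel : S → S → Prop) (W : S → S → ℕ) : Matrix S S ℚ[X] :=
  wM rel fun a b => (Polynomial.X : ℚ[X]) ^ W a b

omit [Fintype S] in
lemma pM_coeff_zero (rel : S → S → Prop) (W : S → S → ℕ) :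
    (pM rel W).map (Polynomial.evalRingHom 0) =
      wM rel fun a b => if W a b = 0 then (1 : ℚ) else 0 := by
  ext a b
  rw [Matrix.map_apply, pM, wM, wM]
  split_ifs with h1 h2
  · rw [h2]; simp
  · simp [h2]
  · simp

lemma pM_det_zero (P : Pres σ rel c) (W : S → S → ℕ)
    (hpos : ∀ k x, 1 ≤ k → σ^[k] x = x →
      0 < ∑ l ∈ range k, W (c (σ^[l] x)) (c (σ^[l + 1] x))) :
    (1 - pM rel W).det.coeff 0 = 1 := by
  rw [Polynomial.coeff_zero_eq_eval_zero, ← Polynomial.coe_evalRingHom, RingHom.map_det]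
  have : (Polynomial.evalRingHom (0 : ℚ)).mapMatrix (1 - pM rel W) =
      1 - wM rel fun a b => if W a b = 0 then (1 : ℚ) else 0 := by
    rw [map_sub, map_one, ← pM_coeff_zero]; rfl
  rw [this]
  exact det_one_sub_nilpotent _ (nilp P W hpos)

lemma pM_det_one (rel : S → S → Prop) (W : S → S → ℕ) :
    (1 - pM rel W).det.eval 1 = (1 - wM rel fun _ _ => (1 : ℚ)).det := by
  rw [← Polynomial.coe_evalRingHom, RingHom.map_det]
  congr 1
  rw [map_sub, map_one]
  congr 1
  ext a b
  show Polynomial.eval 1 (pM rel W a b) = _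
  rw [pM, wM, wM]
  split_ifs <;> simp

lemma pM_dvd (P : Pres σ rel c) (W : S → S → ℕ)
    (hpos : ∀ k x, 1 ≤ k → σ^[k] x = x →
      0 < ∑ l ∈ range k, W (c (σ^[l] x)) (c (σ^[l + 1] x))) (N : ℕ) :
    ∃ L, ∀ l, L ≤ l → ∀ a b, (Polynomial.X : ℚ[X]) ^ (N + 1) ∣ (pM rel W ^ l) a b := by
  obtain ⟨s, hs⟩ := nilp (R := ℚ) P W hpos
  have h1 : ∀ a b, (Polynomial.X : ℚ[X]) ∣ (pM rel W ^ s) a b := by
    intro a b
    rw [Polynomial.X_dvd_iff, Polynomial.coeff_zero_eq_eval_zero]
    have e1 : ((Polynomial.evalRingHom (0 : ℚ)).mapMatrix (pM rel W ^ s)) a b = 0 := by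
      rw [map_pow]
      have : (Polynomial.evalRingHom (0 : ℚ)).mapMatrix (pM rel W) =
          wM rel fun a b => if W a b = 0 then (1 : ℚ) else 0 := pM_coeff_zero rel W
      rw [this, hs, Matrix.zero_apply]
    exact e1
  choose M' hM' using h1
  obtain ⟨B, h2⟩ : ∃ B : Matrix S S ℚ[X], pM rel W ^ s = (Polynomial.X : ℚ[X]) • B :=
    ⟨Matrix.of M', by
      ext1 a b
      rw [hM']; rfl⟩
  have h3 : ∀ t, pM rel W ^ (s * t) = (Polynomial.X : ℚ[X]) ^ t • B ^ t := by
    intro t
    rw [pow_mul, h2, _root_.smul_pow]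
  refine ⟨s * (N + 1), fun l hl a b => ?_⟩
  obtain ⟨r, rfl⟩ := Nat.exists_eq_add_of_le hl
  rw [pow_add (pM rel W), h3, smul_mul_assoc]
  exact Dvd.intro _ rfl

end

end Pool.Agent.X221.PS
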