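import Mathlib
import Pool.Agent.X221.PS.Tr

/-!
# Counting periodic orbits with weights
-/

namespace Pool.Agent.X221.PS

open Finset

open scoped Classical in
section

variable {X Y S : Type} {σ : X → X} {τ : Y → Y} {h : X → ℤ} {h' : Y → ℤ}

/-- Periodic pairs of weight `j`. -/
def PP (σ : X → X) (h : X → ℤ) (j : ℕ) : Set (X × ℕ) :=
  {z | 1 ≤ z.2 ∧ σ^[z.2] z.1 = z.1 ∧ bs σ h z.1 z.2 = j}

lemma it_comm (i j : ℕ) (x : X) : σ^[i] (σ^[j] x) = σ^[j] (σ^[i] x) := by
  rw [← Function.iterate_add_apply, add_comm, Function.iterate_add_apply]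

lemma bs_shift {x : X} {k : ℕ} (hx : σ^[k] x = x) (i : ℕ) :
    bs σ h (σ^[i] x) k = bs σ h x k := by
  have h1 := bs_add σ h x i k
  have h2 := bs_add σ h x k i
  rw [hx, add_comm k i] at h2
  linarith

lemma Cs_tail {x y : X} {a b : ℕ} (hxy : σ^[a] x = σ^[b] y) {m c : ℤ} (hc : Cs σ h x m c) :
    Cs σ h y m c := by
  obtain ⟨i, j, h1, h2, h3⟩ := hc
  refine ⟨b + i, b + j, by push_cast; linarith, ?_, ?_⟩
  · rw [add_comm b i, add_comm b j, Function.iterate_add_apply, Function.iterate_add_apply,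
      ← hxy, it_comm i a, it_comm j a, h2]
  · have e1 := bs_add σ h y b i
    have e2 := bs_add σ h y b j
    rw [← hxy] at e1 e2
    have e3 := bs_add σ h x a i
    have e4 := bs_add σ h x a j
    have e5 := bs_add σ h x i a
    have e6 := bs_add σ h x j a
    rw [add_comm i a] at e5
    rw [add_comm j a] at e6
    rw [h2] at e5
    linarith

lemma fiber (hpos : ∀ k x, 1 ≤ k → σ^[k] x = x → 0 < bs σ h x k) (j : ℕ) (hj : 1 ≤ j)
    (hf : (PP σ h j).Finite) (x0 : X) :
    ((∑ z ∈ hf.toFinset.filter (fun z => ∃ a b, σ^[a] z.1 = σ^[b] x0), (j : ℚ) / z.2 = 0) ∧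
      ¬ ∃ m, Cs σ h x0 m j) ∨
    ∃ ι : ℕ, (∑ z ∈ hf.toFinset.filter (fun z => ∃ a b, σ^[a] z.1 = σ^[b] x0),
      (j : ℚ) / z.2 = ι) ∧ (∀ c, (∃ m, Cs σ h x0 m c) ↔ (ι : ℤ) ∣ c) ∧ ι ∣ j := by
  by_cases hex : ∃ z ∈ PP σ h j, ∃ a b, σ^[a] z.1 = σ^[b] x0
  swap
  · left
    constructor
    · rw [Finset.filter_eq_empty_iff.2, Finset.sum_empty]
      intro z hz hz'
      exact hex ⟨z, hf.mem_toFinset.1 hz, hz'⟩
    · rintro ⟨m, i, i', h1, h2, h3⟩
      rcases lt_trichotomy i i' with hlt | heq | hlt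
      · have h4 : σ^[i' - i] (σ^[i] x0) = σ^[i] x0 := by
          rw [← Function.iterate_add_apply, Nat.sub_add_cancel hlt.le, h2]
        have h5 := hpos (i' - i) _ (by omega) h4
        have h6 := bs_add σ h x0 i (i' - i)
        rw [Nat.add_sub_cancel' hlt.le] at h6
        have : (0 : ℤ) ≤ j := Int.natCast_nonneg j
        linarith
      · rw [heq, sub_self] at h3
        omega
      · have h4 : σ^[i - i'] (σ^[i'] x0) = σ^[i'] x0 := by
          rw [← Function.iterate_add_apply, Nat.sub_add_cancel hlt.le, h2]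
        have h6 := bs_add σ h x0 i' (i - i')
        rw [Nat.add_sub_cancel' hlt.le] at h6
        exact hex ⟨(σ^[i'] x0, i - i'), ⟨by show 1 ≤ i - i'; omega, h4, by
          show bs σ h (σ^[i'] x0) (i - i') = j
          linarith⟩, 0, i', rfl⟩
  right
  obtain ⟨⟨x1, k1⟩, ⟨hk1, hx1, hb1⟩, a, b, hab⟩ := hex
  dsimp only at hk1 hx1 hb1 hab
  have hper : Function.IsPeriodicPt σ k1 x1 := hx1
  have hp : 0 < Function.minimalPeriod σ x1 := hper.minimalPeriod_pos hk1
  have hpp : σ^[Function.minimalPeriod σ x1] x1 = x1 := Function.isPeriodicPt_minimalPeriod σ x1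
  have hdvd : ∀ k, σ^[k] x1 = x1 → Function.minimalPeriod σ x1 ∣ k := fun k hk =>
    Function.IsPeriodicPt.minimalPeriod_dvd hk
  have hmod : ∀ n, σ^[n % Function.minimalPeriod σ x1] x1 = σ^[n] x1 := fun n =>
    Function.iterate_mod_minimalPeriod_eq
  have hinj : ∀ i < Function.minimalPeriod σ x1, ∀ i' < Function.minimalPeriod σ x1,
      σ^[i] x1 = σ^[i'] x1 → i = i' := fun i hi i' hi' hh =>
    Function.iterate_injOn_Iio_minimalPeriod hi hi' hh
  generalize Function.minimalPeriod σ x1 = p at hp hpp hdvd hmod hinj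
  have hι := hpos p x1 hp hpp
  obtain ⟨ι, hι'⟩ : ∃ ι : ℕ, (ι : ℤ) = bs σ h x1 p := ⟨_, Int.toNat_of_nonneg hι.le⟩
  have hι0 : 0 < ι := by omega
  have hΦ : ∀ n t : ℕ, bs σ h x1 (n + t * p) = bs σ h x1 n + t * ι := by
    intro n t
    induction t with
    | zero => simp
    | succ t ih =>
      have e1 : n + (t + 1) * p = p + (n + t * p) := by ring
      rw [e1, bs_add, hpp, ih, ← hι']
      push_cast
      ring
  have hΦ0 : ∀ t : ℕ, bs σ h x1 (t * p) = t * ι := by
    intro t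
    have := hΦ 0 t
    rw [zero_add, bs_zero, zero_add] at this
    exact this
  obtain ⟨l, hl⟩ := hdvd k1 hx1
  have hjl : (j : ℤ) = l * ι := by
    rw [← hb1, hl, mul_comm p l, hΦ0]
  have hjl' : j = l * ι := by exact_mod_cast hjl
  have hl0 : 0 < l := by
    rcases Nat.eq_zero_or_pos l with h0 | h0
    · rw [h0, zero_mul] at hjl'; omega
    · exact h0
  refine ⟨ι, ?_, ?_, ⟨l, by rw [hjl', mul_comm]⟩⟩
  · -- the sum
    have hsum : ∑ z ∈ hf.toFinset.filter (fun z => ∃ a b, σ^[a] z.1 = σ^[b] x0),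
        (j : ℚ) / z.2 = ∑ _i ∈ range p, (j : ℚ) / k1 := by
      symm
      refine Finset.sum_nbij (fun i => (σ^[i] x1, k1)) ?_ ?_ ?_ ?_
      · intro i _
        rw [Finset.mem_filter, hf.mem_toFinset]
        refine ⟨⟨hk1, ?_, ?_⟩, a, i + b, ?_⟩
        · show σ^[k1] (σ^[i] x1) = σ^[i] x1
          rw [it_comm, hx1]
        · show bs σ h (σ^[i] x1) k1 = j
          rw [bs_shift hx1, hb1]
        · show σ^[a] (σ^[i] x1) = _
          rw [it_comm, hab, Function.iterate_add_apply]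
      · intro i hi i' hi' hh
        rw [Finset.mem_coe, Finset.mem_range] at hi hi'
        exact hinj i hi i' hi' (congrArg Prod.fst hh)
      · rintro ⟨x, k⟩ hz
        rw [Finset.mem_coe, Finset.mem_filter, hf.mem_toFinset] at hz
        obtain ⟨⟨hk, hx, hb⟩, a', b', hab'⟩ := hz
        dsimp only at hk hx hb hab'
        have h1 : σ^[b + a'] x = σ^[b' + a] x1 := by
          rw [Function.iterate_add_apply, hab', it_comm, ← hab, ← Function.iterate_add_apply]
        have h2 : x = σ^[(k - 1) * (b + a') + (b' + a)] x1 := by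
          rw [Function.iterate_add_apply, ← h1, ← Function.iterate_add_apply]
          have e1 : (k - 1) * (b + a') + (b + a') = (b + a') * k := by
            obtain ⟨k', rfl⟩ := Nat.exists_eq_add_of_le hk
            simp only [Nat.add_sub_cancel_left]
            ring
          rw [e1, iter_periodic hx]
        rw [← hmod] at h2
        set i := ((k - 1) * (b + a') + (b' + a)) % p with hi
        have hip : i < p := Nat.mod_lt _ hp
        have h3 : σ^[p - i] x = x1 := by
          rw [h2, ← Function.iterate_add_apply, Nat.sub_add_cancel hip.le, hpp]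
        have h4 : σ^[k] x1 = x1 := by
          rw [← h3, it_comm, hx]
        obtain ⟨l', hl'⟩ := hdvd k h4
        have h5 : bs σ h x k = l' * ι := by
          rw [h2, bs_shift h4, hl', mul_comm p l', hΦ0]
        have h6 : l' * ι = l * ι := by
          rw [hb] at h5
          rw [← hjl']
          exact_mod_cast h5.symm
        have h7 : l' = l := Nat.eq_of_mul_eq_mul_right hι0 h6
        refine ⟨i, Finset.mem_coe.2 (Finset.mem_range.2 hip), ?_⟩
        show (σ^[i] x1, k1) = (x, k)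
        rw [← h2, hl', h7, ← hl]
      · intro i _; rfl
    rw [hsum, Finset.sum_const, Finset.card_range, nsmul_eq_mul, hjl', hl]
    have hp' : (p : ℚ) ≠ 0 := by positivity
    have hl' : (l : ℚ) ≠ 0 := by positivity
    push_cast
    field_simp
  · intro c
    have hx01 : (∃ m, Cs σ h x0 m c) ↔ ∃ m, Cs σ h x1 m c :=
      ⟨fun ⟨m, hm⟩ => ⟨m, Cs_tail hab.symm hm⟩, fun ⟨m, hm⟩ => ⟨m, Cs_tail hab hm⟩⟩
    rw [hx01]
    have hgen : ∀ i i' : ℕ, i ≤ i' → σ^[i] x1 = σ^[i'] x1 →
        (ι : ℤ) ∣ bs σ h x1 i' - bs σ h x1 i := by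
      intro i i' hle hh
      have h1 : σ^[i' - i] x1 = x1 := by
        have e1 : (p - 1) * i + i = i * p := by
          obtain ⟨p', rfl⟩ := Nat.exists_eq_add_of_le (Nat.succ_le_of_lt hp)
          simp only [Nat.succ_eq_add_one, zero_add, Nat.add_sub_cancel_left]
          ring
        have e2 : (p - 1) * i + i' = (i' - i) + i * p := by rw [← e1]; omega
        have h2 := congrArg (σ^[(p - 1) * i]) hh
        rw [← Function.iterate_add_apply, ← Function.iterate_add_apply, e1, e2,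
          Function.iterate_add_apply, iter_periodic hpp] at h2
        exact h2.symm
      obtain ⟨t, ht⟩ := hdvd _ h1
      have h3 : i' = i + t * p := by rw [mul_comm t p, ← ht]; omega
      rw [h3, hΦ, add_sub_cancel_left]
      exact Dvd.intro_left _ rfl
    constructor
    · rintro ⟨m, i, i', _, h2, h3⟩
      rcases le_total i i' with hle | hle
      · rw [← h3, ← neg_sub]
        exact (hgen i i' hle h2).neg_right
      · rw [← h3]
        exact hgen i' i hle h2.symm
    · rintro ⟨t, rfl⟩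
      obtain ⟨n, rfl | rfl⟩ := Int.eq_nat_or_neg t
      · refine ⟨_, n * p, 0, rfl, ?_, ?_⟩
        · rw [iter_periodic hpp]; rfl
        · rw [hΦ0, bs_zero]; ring
      · refine ⟨_, 0, n * p, rfl, ?_, ?_⟩
        · rw [iter_periodic hpp]; rfl
        · rw [hΦ0, bs_zero]; ring

/-- The two weighted counts agree. -/
theorem compare (hpos : ∀ k x, 1 ≤ k → σ^[k] x = x → 0 < bs σ h x k)
    (hpos' : ∀ k y, 1 ≤ k → τ^[k] y = y → 0 < bs τ h' y k)
    (Ψ : X → Y → Prop) (hΨ1 : ∀ x, ∃ y, Ψ x y) (hΨ2 : ∀ y, ∃ x, Ψ x y)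
    (hΨ3 : ∀ x y x' y', Ψ x y → Ψ x' y' →
      ((∃ a b, σ^[a] x = σ^[b] x') ↔ ∃ a b, τ^[a] y = τ^[b] y'))
    (hΨ4 : ∀ x y, Ψ x y → ∀ c, (∃ m, Cs σ h x m c) ↔ ∃ m, Cs τ h' y m c)
    (j : ℕ) (hj : 1 ≤ j) (hf : (PP σ h j).Finite) (hf' : (PP τ h' j).Finite) :
    ∑ z ∈ hf.toFinset, (j : ℚ) / z.2 = ∑ z ∈ hf'.toFinset, (j : ℚ) / z.2 := by
  let st : Setoid Y :=
    { r := fun y y' => ∃ a b, τ^[a] y = τ^[b] y'
      iseqv :=
        { refl := fun y => ⟨0, 0, rfl⟩
          symm := fun ⟨a, b, h⟩ => ⟨b, a, h.symm⟩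
          trans := by
            rintro y1 y2 y3 ⟨a, b, h1⟩ ⟨c, d, h2⟩
            refine ⟨c + a, b + d, ?_⟩
            rw [Function.iterate_add_apply, h1, it_comm, h2, ← Function.iterate_add_apply] } }
  choose ψ hψ using hΨ1
  let cl : Y → Quotient st := fun y => Quotient.mk st y
  let Z : Finset (Quotient st) := hf.toFinset.image (fun z => cl (ψ z.1)) ∪
    hf'.toFinset.image (fun z => cl z.1)
  rw [← Finset.sum_fiberwise_of_maps_to (s := hf.toFinset) (t := Z) (g := fun z => cl (ψ z.1))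
      (fun z hz => Finset.mem_union_left _ (Finset.mem_image_of_mem _ hz)),
    ← Finset.sum_fiberwise_of_maps_to (s := hf'.toFinset) (t := Z) (g := fun z => cl z.1)
      (fun z hz => Finset.mem_union_right _ (Finset.mem_image_of_mem _ hz))]
  refine Finset.sum_congr rfl fun q _ => ?_
  obtain ⟨y0, rfl⟩ := Quotient.exists_rep q
  obtain ⟨x0, hx0⟩ := hΨ2 y0
  have e1 : hf.toFinset.filter (fun z => cl (ψ z.1) = Quotient.mk st y0) =
      hf.toFinset.filter (fun z => ∃ a b, σ^[a] z.1 = σ^[b] x0) := by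
    apply Finset.filter_congr
    intro z _
    rw [hΨ3 _ _ _ _ (hψ z.1) hx0]
    exact Quotient.eq
  have e2 : hf'.toFinset.filter (fun z => cl z.1 = Quotient.mk st y0) =
      hf'.toFinset.filter (fun z => ∃ a b, τ^[a] z.1 = τ^[b] y0) := by
    apply Finset.filter_congr
    intro z _
    exact Quotient.eq
  rw [e1, e2]
  have h4 := hΨ4 x0 y0 hx0
  rcases fiber hpos j hj hf x0 with ⟨s1, n1⟩ | ⟨ι, s1, n1, d1⟩ <;>
  rcases fiber hpos' j hj hf' y0 with ⟨s2, n2⟩ | ⟨ι', s2, n2, d2⟩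
  · rw [s1, s2]
  · exact absurd ((h4 _).2 ((n2 _).2 (by exact_mod_cast d2))) n1
  · exact absurd ((h4 _).1 ((n1 _).2 (by exact_mod_cast d1))) n2
  · rw [s1, s2]
    have : ι = ι' := by
      apply Nat.dvd_antisymm
      · have := (n1 (ι' : ℤ)).1 ((h4 _).2 ((n2 _).2 dvd_rfl))
        exact_mod_cast this
      · have := (n2 (ι : ℤ)).1 ((h4 _).1 ((n1 _).2 dvd_rfl))
        exact_mod_cast this
    rw [this]

end

end Pool.Agent.X221.PS
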