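import Mathlib
import Pool.Agent.X221.PS.Cnt

/-!
# Equality of the determinants
-/

namespace Pool.Agent.X221.PS

open Finset Polynomial

open scoped Classical in
section

variable {X Y S S' : Type} [Fintype S] [Fintype S'] {σ : X → X} {τ : Y → Y}
  {rel : S → S → Prop} {c : X → S} {rel' : S' → S' → Prop} {c' : Y → S'}

lemma coeff_trace (P : Pres σ rel c) (W : S → S → ℕ) (h : X → ℤ)
    (hW : ∀ k x, σ^[k] x = x →
      ((∑ l ∈ range k, W (c (σ^[l] x)) (c (σ^[l + 1] x)) : ℕ) : ℤ) = bs σ h x k)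
    (k j : ℕ) (hk : 1 ≤ k) :
    ((pM rel W) ^ k).trace.coeff j =
      (((fin_periodic P hk).toFinset.filter (fun x => bs σ h x k = j)).card : ℚ) := by
  rw [pM, trace_pow P _ hk, finsetSum_coeff, Finset.card_filter]
  push_cast
  refine Finset.sum_congr rfl fun x hx => ?_
  rw [Set.Finite.mem_toFinset] at hx
  rw [Finset.prod_pow_eq_pow_sum, coeff_X_pow]
  have h1 := hW k x hx
  by_cases h2 : bs σ h x k = j
  · rw [if_pos h2, if_pos]
    rw [h2] at h1
    exact_mod_cast h1.symm
  · rw [if_neg h2, if_neg]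
    intro h3
    apply h2
    rw [← h1, ← h3]

theorem sum_trace (P : Pres σ rel c) (W : S → S → ℕ) (h : X → ℤ)
    (hW : ∀ k x, σ^[k] x = x →
      ((∑ l ∈ range k, W (c (σ^[l] x)) (c (σ^[l + 1] x)) : ℕ) : ℤ) = bs σ h x k)
    (hpos : ∀ k x, 1 ≤ k → σ^[k] x = x → 0 < bs σ h x k) (j : ℕ) :
    ∃ (hf : (PP σ h (j + 1)).Finite) (L : ℕ), ∀ l, L ≤ l →
      ∑ k ∈ range l, (j + 1 : ℚ) * ((k + 1 : ℚ)⁻¹) * ((pM rel W) ^ (k + 1)).trace.coeff (j + 1) =
      ∑ z ∈ hf.toFinset, ((j + 1 : ℕ) : ℚ) / z.2 := by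
  have hposW : ∀ k x, 1 ≤ k → σ^[k] x = x →
      0 < ∑ l ∈ range k, W (c (σ^[l] x)) (c (σ^[l + 1] x)) := by
    intro k x hk hx
    have h1 := hpos k x hk hx
    rw [← hW k x hx] at h1
    exact_mod_cast h1
  obtain ⟨L, hL⟩ := pM_dvd P W hposW (j + 1)
  have hbound : ∀ z ∈ PP σ h (j + 1), z.2 - 1 < L := by
    rintro ⟨x, k⟩ ⟨hk, hx, hb⟩
    dsimp only at hk hx hb
    by_contra hge
    have h1 : ((pM rel W) ^ k).trace.coeff (j + 1) = 0 := by
      rw [Matrix.trace, finsetSum_coeff]
      refine Finset.sum_eq_zero fun a _ => ?_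
      exact X_pow_dvd_iff.1 (hL k (by dsimp only at hge; omega) a a) _ (Nat.lt_succ_self _)
    rw [coeff_trace P W h hW k _ hk] at h1
    have h2 : x ∈ (fin_periodic P hk).toFinset.filter (fun x => bs σ h x k = (j + 1 : ℕ)) := by
      rw [Finset.mem_filter, Set.Finite.mem_toFinset]
      exact ⟨hx, hb⟩
    have h3 : 0 < ((fin_periodic P hk).toFinset.filter
      (fun x => bs σ h x k = (j + 1 : ℕ))).card := Finset.card_pos.2 ⟨x, h2⟩
    have h4 : (((fin_periodic P hk).toFinset.filter
      (fun x => bs σ h x k = (j + 1 : ℕ))).card : ℚ) = 0 := h1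
    rw [Nat.cast_eq_zero] at h4
    omega
  have hf : (PP σ h (j + 1)).Finite := by
    refine Set.Finite.subset (Set.Finite.biUnion (Set.finite_lt_nat L)
      (fun k _ => (fin_periodic P (Nat.succ_le_succ (Nat.zero_le k))).prod
        (Set.finite_singleton (k + 1)))) ?_
    rintro ⟨x, k⟩ hz
    have h1 := hbound _ hz
    obtain ⟨hk, hx, hb⟩ := hz
    dsimp only at hk hx hb h1
    refine Set.mem_biUnion (x := k - 1) h1 ⟨?_, ?_⟩
    · show σ^[k - 1 + 1] x = x
      rw [Nat.sub_add_cancel hk]; exact hx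
    · show k = k - 1 + 1
      omega
  refine ⟨hf, L, fun l hl => ?_⟩
  rw [← Finset.sum_fiberwise_of_maps_to (s := hf.toFinset) (t := range l)
    (g := fun z => z.2 - 1) (fun z hz => Finset.mem_range.2
      (lt_of_lt_of_le (hbound z (hf.mem_toFinset.1 hz)) hl))]
  refine Finset.sum_congr rfl fun k _ => ?_
  rw [coeff_trace P W h hW (k + 1) (j + 1) (Nat.succ_le_succ (Nat.zero_le k))]
  have h1 : ∑ z ∈ hf.toFinset with z.2 - 1 = k, ((j + 1 : ℕ) : ℚ) / z.2 =
      ∑ z ∈ hf.toFinset with z.2 - 1 = k, (j + 1 : ℚ) * ((k + 1 : ℚ)⁻¹) := by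
    refine Finset.sum_congr rfl fun z hz => ?_
    rw [Finset.mem_filter, hf.mem_toFinset] at hz
    have h2 : z.2 = k + 1 := by
      have := hz.1.1
      omega
    rw [h2]
    push_cast
    rw [div_eq_mul_inv]
  rw [h1, Finset.sum_const, nsmul_eq_mul, mul_comm]
  congr 2
  symm
  refine Finset.card_nbij' (fun z => z.1) (fun x => (x, k + 1)) ?_ ?_ ?_ ?_
  · intro z hz
    rw [Finset.mem_coe, Finset.mem_filter, hf.mem_toFinset] at hz
    have h2 : z.2 = k + 1 := by
      have := hz.1.1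
      omega
    rw [Finset.mem_coe, Finset.mem_filter, Set.Finite.mem_toFinset]
    obtain ⟨⟨_, hx, hb⟩, _⟩ := hz
    rw [h2] at hx hb
    exact ⟨hx, hb⟩
  · intro x hx
    rw [Finset.mem_coe, Finset.mem_filter, Set.Finite.mem_toFinset] at hx
    rw [Finset.mem_coe, Finset.mem_filter, hf.mem_toFinset]
    exact ⟨⟨Nat.succ_le_succ (Nat.zero_le k), hx.1, hx.2⟩, rfl⟩
  · intro z hz
    rw [Finset.mem_coe, Finset.mem_filter, hf.mem_toFinset] at hz
    have h2 : z.2 = k + 1 := by
      have := hz.1.1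
      omega
    exact Prod.ext rfl h2.symm
  · intro x _; rfl

/-- Comparison of the determinants of two presentations, positive case. -/
theorem det_compare [Nonempty S] [Nonempty S'] (P : Pres σ rel c) (P' : Pres τ rel' c')
    (w : S → ℤ) (w' : S' → ℤ)
    (hpos : ∀ k a n, 1 ≤ k → Wk rel w k a a n → 0 < n)
    (hpos' : ∀ k a n, 1 ≤ k → Wk rel' w' k a a n → 0 < n)
    (Ψ : X → Y → Prop) (hΨ1 : ∀ x, ∃ y, Ψ x y) (hΨ2 : ∀ y, ∃ x, Ψ x y)
    (hΨ3 : ∀ x y x' y', Ψ x y → Ψ x' y' →
      ((∃ a b, σ^[a] x = σ^[b] x') ↔ ∃ a b, τ^[a] y = τ^[b] y'))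
    (hΨ4 : ∀ x y, Ψ x y → ∀ n, (∃ m, Cs σ (fun x => w (c x)) x m n) ↔
      ∃ m, Cs τ (fun y => w' (c' y)) y m n) :
    (1 - wM rel fun _ _ => (1 : ℚ)).det = (1 - wM rel' fun _ _ => (1 : ℚ)).det := by
  -- weights
  have gen : ∀ {X S : Type} [Fintype S] [Nonempty S] {σ : X → X} {rel : S → S → Prop}
      {c : X → S} (P : Pres σ rel c) (w : S → ℤ) (_ : ∀ k a n, 1 ≤ k → Wk rel w k a a n → 0 < n),
      ∃ W : S → S → ℕ, (∀ k x, σ^[k] x = x →
        ((∑ l ∈ range k, W (c (σ^[l] x)) (c (σ^[l + 1] x)) : ℕ) : ℤ) =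
          bs σ (fun x => w (c x)) x k) ∧
        (∀ k x, 1 ≤ k → σ^[k] x = x → 0 < bs σ (fun x => w (c x)) x k) := by
    intro X S _ _ σ rel c P w hpos
    obtain ⟨p, hp⟩ := potential P.irr hpos
    refine ⟨fun a b => (w a + p a - p b).toNat, ?_, ?_⟩
    · intro k x hx
      have h1 : ∀ k, ((∑ l ∈ range k, (w (c (σ^[l] x)) + p (c (σ^[l] x)) -
          p (c (σ^[l + 1] x))).toNat : ℕ) : ℤ) =
          bs σ (fun x => w (c x)) x k + p (c x) - p (c (σ^[k] x)) := by
        intro k
        induction k with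
        | zero => rw [bs_zero]; simp
        | succ k ih =>
          rw [Finset.sum_range_succ, Nat.cast_add, ih, Int.toNat_of_nonneg, bs_add]
          · have : bs σ (fun x => w (c x)) (σ^[k] x) 1 = w (c (σ^[k] x)) := by simp [bs]
            rw [this]
            ring
          · apply hp
            rw [Function.iterate_succ_apply']
            exact P.step _
      rw [h1, hx]
      ring
    · intro k x hk hx
      have h1 := Wk.of_point (w := w) P x k
      rw [hx] at h1
      exact hpos k _ _ hk h1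
  obtain ⟨W, hW, hWp⟩ := gen P w hpos
  obtain ⟨W', hW', hWp'⟩ := gen P' w' hpos'
  have hposW : ∀ k x, 1 ≤ k → σ^[k] x = x →
      0 < ∑ l ∈ range k, W (c (σ^[l] x)) (c (σ^[l + 1] x)) := by
    intro k x hk hx
    have h1 := hWp k x hk hx
    rw [← hW k x hx] at h1
    exact_mod_cast h1
  have hposW' : ∀ k x, 1 ≤ k → τ^[k] x = x →
      0 < ∑ l ∈ range k, W' (c' (τ^[l] x)) (c' (τ^[l + 1] x)) := by
    intro k x hk hx
    have h1 := hWp' k x hk hx
    rw [← hW' k x hx] at h1
    exact_mod_cast h1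
  have hdet : (1 - pM rel W).det = (1 - pM rel' W').det := by
    refine det_unique _ _ (pM_dvd P W hposW) (pM_dvd P' W' hposW') ?_ ?_
    · rw [pM_det_zero P W hposW, pM_det_zero P' W' hposW']
    · intro j
      obtain ⟨hf, L, hL⟩ := sum_trace P W _ hW hWp j
      obtain ⟨hf', L', hL'⟩ := sum_trace P' W' _ hW' hWp' j
      refine ⟨max L L', fun l hl => ?_⟩
      rw [hL l (le_trans (le_max_left _ _) hl), hL' l (le_trans (le_max_right _ _) hl)]
      exact compare hWp hWp' Ψ hΨ1 hΨ2 hΨ3 hΨ4 (j + 1) (Nat.succ_le_succ (Nat.zero_le j)) hf hf'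
  rw [← pM_det_one rel W, ← pM_det_one rel' W', hdet]

lemma Cs_neg {x : X} {h : X → ℤ} {n : ℤ} :
    (∃ m, Cs σ h x m n) ↔ ∃ m, Cs σ h x m (-n) := by
  have : ∀ n, (∃ m, Cs σ h x m n) → ∃ m, Cs σ h x m (-n) := by
    rintro n ⟨m, i, j, h1, h2, h3⟩
    exact ⟨-m, j, i, by omega, h2.symm, by omega⟩
  exact ⟨this n, fun h => by simpa using this _ h⟩

lemma bs_neg (h : X → ℤ) (x : X) (k : ℕ) : bs σ (fun x => -h x) x k = -bs σ h x k := by
  rw [bs, bs, Finset.sum_neg_distrib]

lemma Cs_neg' {x : X} {h : X → ℤ} {n m : ℤ} :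
    Cs σ (fun x => -h x) x m n ↔ Cs σ h x m (-n) := by
  constructor
  · rintro ⟨i, j, h1, h2, h3⟩
    rw [bs_neg, bs_neg] at h3
    exact ⟨i, j, h1, h2, by linarith⟩
  · rintro ⟨i, j, h1, h2, h3⟩
    exact ⟨i, j, h1, h2, by rw [bs_neg, bs_neg]; linarith⟩

omit [Fintype S] in
lemma Wk_neg {w : S → ℤ} {k : ℕ} {a b : S} {n : ℤ} (h : Wk rel (fun a => -w a) k a b n) :
    Wk rel w k a b (-n) := by
  induction h with
  | nil a => simpa using Wk.nil a
  | @cons k a b d n hr _ ih =>
    have := Wk.cons (w := w) hr ih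
    have e : w a + -n = -(-w a + n) := by ring
    rw [e] at this
    exact this

/-- Comparison of the determinants of two presentations. -/
theorem det_compare' [Nonempty S] [Nonempty S'] (P : Pres σ rel c) (P' : Pres τ rel' c')
    (w : S → ℤ)
    (Ψ : X → Y → Prop) (hΨ1 : ∀ x, ∃ y, Ψ x y) (hΨ2 : ∀ y, ∃ x, Ψ x y)
    (hΨ3 : ∀ x y x' y', Ψ x y → Ψ x' y' →
      ((∃ a b, σ^[a] x = σ^[b] x') ↔ ∃ a b, τ^[a] y = τ^[b] y'))
    (hΨ4 : ∀ x y, Ψ x y → ∀ n, (∃ m, Cs σ (fun x => w (c x)) x m n) ↔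
      ∃ m, Cs τ (fun _ => 1) y m n)
    (hinj : ∀ x m, Cs σ (fun x => w (c x)) x m 0 → m = 0) :
    (1 - wM rel fun _ _ => (1 : ℚ)).det = (1 - wM rel' fun _ _ => (1 : ℚ)).det := by
  have hpos' : ∀ k a n, 1 ≤ k → Wk rel' (fun _ => 1) k a a n → 0 < n := by
    intro k a n hk h
    obtain ⟨s, _, _, _, h3⟩ := h.toFun
    rw [← h3]
    simp
    omega
  rcases sign P hinj with hs | hs
  · exact det_compare P P' w (fun _ => 1) hs hpos' Ψ hΨ1 hΨ2 hΨ3 hΨ4
  · refine det_compare P P' (fun a => -w a) (fun _ => 1) ?_ hpos' Ψ hΨ1 hΨ2 hΨ3 ?_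
    · intro k a n hk h
      have := hs k a _ hk (Wk_neg h)
      linarith
    · intro x y hxy n
      rw [← hΨ4 x y hxy n, Cs_neg (h := fun x => w (c x))]
      exact ⟨fun ⟨m, hm⟩ => ⟨m, Cs_neg'.1 hm⟩, fun ⟨m, hm⟩ => ⟨m, Cs_neg'.2 hm⟩⟩

/-! ### Higher blocks -/

lemma det_inst {T : Type} [Fintype T] (i j : DecidableEq T) (M : Matrix T T ℚ) :
    (letI := i; (1 - M).det) = (letI := j; (1 - M).det) := by
  cases Subsingleton.elim i j
  rfl

/-- The pairs of consecutive symbols. -/
theorem reduce (P : Pres σ rel c) [Nonempty S] (h : X → ℤ) (n : ℕ)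
    (hn : ∀ x y, (∀ i < n + 1, c (σ^[i] x) = c (σ^[i] y)) → h x = h y) :
    ∃ (T : Type) (_ : Fintype T) (_ : Nonempty T) (relT : T → T → Prop) (cT : X → T)
      (w : T → ℤ), Pres σ relT cT ∧ (∀ x, h x = w (cT x)) ∧
      (1 - wM relT fun _ _ => (1 : ℚ)).det = (1 - wM rel fun _ _ => (1 : ℚ)).det := by
  induction n generalizing S with
  | zero =>
    refine ⟨S, inferInstance, inferInstance, rel, c,
      fun a => if hh : ∃ x, c x = a then h hh.choose else 0, P, fun x => ?_, rfl⟩
    have hh : ∃ y, c y = c x := ⟨x, rfl⟩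
    show h x = if hh : ∃ y, c y = c x then h hh.choose else 0
    rw [dif_pos hh]
    apply hn
    intro i hi
    have : i = 0 := by omega
    subst this
    exact hh.choose_spec.symm
  | succ n ih =>
    let T : Type := {p : S × S // rel p.1 p.2}
    let relT : T → T → Prop := fun p q => p.1.2 = q.1.1
    let cT : X → T := fun x => ⟨(c x, c (σ x)), P.step x⟩
    have hne : Nonempty T := by
      obtain ⟨a⟩ := ‹Nonempty S›
      obtain ⟨b, hb, _⟩ := Relation.TransGen.head'_iff.1 (P.irr a a)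
      exact ⟨⟨(a, b), hb⟩⟩
    have PT : Pres σ relT cT :=
      { step := fun x => rfl
        ex := by
          intro s hs
          obtain ⟨x, hx⟩ := P.ex (fun i => (s i).1.1) (fun i => by
            have h1 := (s i).2
            have h2 : (s i).1.2 = (s (i + 1)).1.1 := hs i
            rw [h2] at h1
            exact h1)
          refine ⟨x, fun i => ?_⟩
          apply Subtype.ext
          apply Prod.ext
          · exact hx i
          · show c (σ (σ^[i] x)) = (s i).1.2
            rw [← Function.iterate_succ_apply' σ i x, hx (i + 1)]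
            exact (hs i).symm
        uq := by
          intro x y hxy
          apply P.uq
          intro i
          exact congrArg (fun t : T => t.1.1) (hxy i)
        irr := by
          have h1 : ∀ (p : T) (b : S), Relation.TransGen rel p.1.2 b →
              ∃ q : T, Relation.TransGen relT p q ∧ q.1.2 = b := by
            intro p b h
            induction h with
            | single hb => exact ⟨⟨(p.1.2, _), hb⟩, Relation.TransGen.single rfl, rfl⟩
            | @tail b d _ hbd ih =>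
              obtain ⟨q, hq, rfl⟩ := ih
              exact ⟨⟨(q.1.2, d), hbd⟩, hq.tail rfl, rfl⟩
          intro p q
          obtain ⟨r, hr, hr'⟩ := h1 p q.1.1 (P.irr _ _)
          exact hr.tail hr' }
    have hdet : (1 - wM relT fun _ _ => (1 : ℚ)).det = (1 - wM rel fun _ _ => (1 : ℚ)).det := by
      let U : Matrix S T ℚ := fun a p => if a = p.1.1 then 1 else 0
      let V : Matrix T S ℚ := fun p b => if p.1.2 = b then 1 else 0
      have e1 : wM rel (fun _ _ => (1 : ℚ)) = U * V := by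
        ext a b
        rw [Matrix.mul_apply]
        by_cases hab : rel a b
        · rw [Finset.sum_eq_single (⟨(a, b), hab⟩ : T)]
          · show (if rel a b then (1 : ℚ) else 0) = (if a = a then 1 else 0) * (if b = b then 1 else 0)
            rw [if_pos hab, if_pos rfl, if_pos rfl, mul_one]
          · intro p _ hp
            show (if a = p.1.1 then (1 : ℚ) else 0) * (if p.1.2 = b then 1 else 0) = 0
            by_cases h1 : a = p.1.1
            · by_cases h2 : p.1.2 = b
              · exact absurd (Subtype.ext (Prod.ext h1.symm h2)) hp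
              · rw [if_neg h2, mul_zero]
            · rw [if_neg h1, zero_mul]
          · intro h; exact absurd (Finset.mem_univ _) h
        · rw [Finset.sum_eq_zero]
          · exact if_neg hab
          · intro p _
            show (if a = p.1.1 then (1 : ℚ) else 0) * (if p.1.2 = b then 1 else 0) = 0
            by_cases h1 : a = p.1.1
            · by_cases h2 : p.1.2 = b
              · exact absurd (by rw [h1, ← h2]; exact p.2) hab
              · rw [if_neg h2, mul_zero]
            · rw [if_neg h1, zero_mul]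
      have e2 : wM relT (fun _ _ => (1 : ℚ)) = V * U := by
        ext p q
        rw [Matrix.mul_apply, Finset.sum_eq_single p.1.2]
        · show (if p.1.2 = q.1.1 then (1 : ℚ) else 0) =
            (if p.1.2 = p.1.2 then 1 else 0) * (if p.1.2 = q.1.1 then 1 else 0)
          rw [if_pos (rfl : p.1.2 = p.1.2), one_mul]
        · intro b _ hb
          show (if p.1.2 = b then (1 : ℚ) else 0) * _ = 0
          rw [if_neg hb.symm, zero_mul]
        · intro h; exact absurd (Finset.mem_univ _) h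
      rw [e1, e2, Matrix.det_one_sub_mul_comm]
    obtain ⟨T', i1, i2, relT', cT', w, h1, h2, h3⟩ := ih PT (by
      intro x y hxy
      apply hn
      intro i hi
      rcases Nat.lt_or_ge i (n + 1) with h4 | h4
      · exact congrArg (fun t : T => t.1.1) (hxy i h4)
      · have h5 : i = n + 1 := by omega
        subst h5
        have h6 := congrArg (fun t : T => t.1.2) (hxy n (Nat.lt_succ_self n))
        rw [Function.iterate_succ_apply', Function.iterate_succ_apply']
        exact h6)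
    exact ⟨T', i1, i2, relT', cT', w, h1, h2, h3.trans ((det_inst _ _ _).trans hdet)⟩

end

end Pool.Agent.X221.PS
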