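import Mathlib

/-!
# Diagrams of a graph with the coproduct condition, and the category of weighted spaces
-/

namespace Pool.Agent.X221.PS

open CategoryTheory Limits

/-- Directed graphs. -/
structure DG where
  /-- vertices -/
  V : Type
  /-- edges -/
  E : Type
  /-- the source of an edge -/
  s : E → V
  /-- the target of an edge -/
  t : E → V

/-- Diagrams of shape `G` satisfying the coproduct condition. -/
structure Diag (G : DG) (C : Type 1) [Category.{0} C] where
  /-- the objects -/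
  obj : G.V → C
  /-- the morphisms -/
  map : (e : G.E) → (obj (G.s e) ⟶ obj (G.t e))
  coprod : ∀ v, (∃ e, G.t e = v) → Nonempty (IsColimit (Cofan.mk (obj v)
    (fun e : {e // G.t e = v} => map e.1 ≫ eqToHom (congrArg obj e.2))))

/-- Morphisms of diagrams. -/
@[ext]
structure Diag.Hom {G : DG} {C : Type 1} [Category.{0} C] (D D' : Diag G C) where
  /-- the components -/
  app : (v : G.V) → (D.obj v ⟶ D'.obj v)
  comm : ∀ e, D.map e ≫ app (G.t e) = app (G.s e) ≫ D'.map e

instance (G : DG) (C : Type 1) [Category.{0} C] : Category.{0} (Diag G C) where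
  Hom := Diag.Hom
  id D := ⟨fun v => 𝟙 _, fun e => by simp⟩
  comp f g := ⟨fun v => f.app v ≫ g.app v, fun e => by
    rw [← Category.assoc, f.comm, Category.assoc, g.comm, Category.assoc]⟩
  id_comp f := by ext v; simp
  comp_id f := by ext v; simp
  assoc f g h := by ext v; simp

/-! ### The category -/

/-- Sets with an automorphism and a group of admissible integer functions, such that some
admissible function is a coordinate along the free orbits and all other points are fixed. -/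
structure Ob where
  /-- the points -/
  α : Type
  /-- the automorphism -/
  τ : α ≃ α
  /-- the admissible functions -/
  adm : AddSubgroup (α → ℤ)
  one : (fun _ => 1) ∈ adm
  inv : ∀ f ∈ adm, f ∘ τ ∈ adm
  inv' : ∀ f ∈ adm, f ∘ τ.symm ∈ adm
  coord : ∃ q ∈ adm, ∀ x, τ x = x ∨ q (τ x) = q x + 1

/-- Equivariant maps pulling back admissible functions to admissible functions. -/
@[ext]
structure Ob.Hom (X Y : Ob) where
  /-- the map -/
  f : X.α → Y.α
  eqv : ∀ x, f (X.τ x) = Y.τ (f x)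
  adm : ∀ g ∈ Y.adm, g ∘ f ∈ X.adm

instance : Category.{0} Ob where
  Hom := Ob.Hom
  id X := ⟨fun x => x, fun _ => rfl, fun _ h => h⟩
  comp f g := ⟨fun x => g.f (f.f x), fun x => by rw [f.eqv, g.eqv],
    fun h hh => f.adm _ (g.adm h hh)⟩

lemma id_f (X : Ob) (x : X.α) : Ob.Hom.f (𝟙 X) x = x := rfl

lemma comp_f {X Y Z : Ob} (f : X ⟶ Y) (g : Y ⟶ Z) (x : X.α) :
    Ob.Hom.f (f ≫ g) x = Ob.Hom.f g (Ob.Hom.f f x) := rfl

lemma hom_ext {X Y : Ob} {f g : X ⟶ Y} (h : ∀ x, Ob.Hom.f f x = Ob.Hom.f g x) : f = g :=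
  Ob.Hom.ext (funext h)

/-- The disjoint union. -/
noncomputable def sumOb {J : Type} (X : J → Ob) : Ob where
  α := Σ j, (X j).α
  τ := Equiv.sigmaCongrRight fun j => (X j).τ
  adm :=
    { carrier := {f | ∀ j, (fun a => f ⟨j, a⟩) ∈ (X j).adm}
      add_mem' := fun {f g} hf hg j => (X j).adm.add_mem (hf j) (hg j)
      zero_mem' := fun j => (X j).adm.zero_mem
      neg_mem' := fun {f} hf j => (X j).adm.neg_mem (hf j) }
  one := fun j => (X j).one
  inv := fun f hf j => (X j).inv _ (hf j)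
  inv' := fun f hf j => (X j).inv' _ (hf j)
  coord := by
    refine ⟨fun z => (X z.1).coord.choose z.2, fun j => (X j).coord.choose_spec.1, ?_⟩
    rintro ⟨j, a⟩
    rcases (X j).coord.choose_spec.2 a with h | h
    · left
      show (⟨j, (X j).τ a⟩ : Σ j, (X j).α) = ⟨j, a⟩
      rw [h]
    · right; exact h

lemma mem_sumOb {J : Type} (X : J → Ob) (f : (sumOb X).α → ℤ) :
    f ∈ (sumOb X).adm ↔ ∀ j, (fun a => f ⟨j, a⟩) ∈ (X j).adm := Iff.rfl

/-- The inclusions. -/
noncomputable def sumIn {J : Type} (X : J → Ob) (j : J) : X j ⟶ sumOb X :=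
  ⟨fun a => ⟨j, a⟩, fun _ => rfl, fun _ h => h j⟩

/-- The disjoint union is a coproduct. -/
noncomputable def sumColimit {J : Type} (X : J → Ob) :
    IsColimit (Cofan.mk (sumOb X) (sumIn X)) :=
  Cofan.IsColimit.mk _ (fun c => ⟨fun z => Ob.Hom.f (c.inj z.1) z.2,
    fun z => Ob.Hom.eqv (c.inj z.1) z.2, fun g hg j => Ob.Hom.adm (c.inj j) g hg⟩)
    (fun _ _ => rfl)
    (fun c m hm => by
      apply hom_ext
      rintro ⟨j, a⟩
      have := congrArg (fun (u : X j ⟶ c.pt) => Ob.Hom.f u a) (hm j)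
      exact this)

instance : HasBinaryCoproducts Ob := by
  have : ∀ (J : Type) (X : J → Ob), HasColimit (Discrete.functor X) :=
    fun J X => ⟨⟨⟨_, sumColimit X⟩⟩⟩
  have : HasCoproducts.{0} Ob := hasCoproducts_of_colimit_cofans _ (fun {J} X => sumColimit X)
  infer_instance

/-- Characterisation of coproducts. -/
theorem colimit_iff {J : Type} (X : J → Ob) (Y : Ob) (j : (i : J) → (X i ⟶ Y)) :
    Nonempty (IsColimit (Cofan.mk Y j)) ↔
      Function.Bijective (fun z : Σ i, (X i).α => Ob.Hom.f (j z.1) z.2) ∧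
      ∀ f : Y.α → ℤ, (∀ i, (fun a => f (Ob.Hom.f (j i) a)) ∈ (X i).adm) → f ∈ Y.adm := by
  constructor
  · rintro ⟨h⟩
    obtain ⟨u, w, huw, hwu, hw⟩ : ∃ (u : Y ⟶ sumOb X) (w : sumOb X ⟶ Y), u ≫ w = 𝟙 Y ∧
        w ≫ u = 𝟙 (sumOb X) ∧ ∀ i, sumIn X i ≫ w = j i :=
      ⟨(h.coconePointUniqueUpToIso (sumColimit X)).hom,
        (h.coconePointUniqueUpToIso (sumColimit X)).inv,
        (h.coconePointUniqueUpToIso (sumColimit X)).hom_inv_id,
        (h.coconePointUniqueUpToIso (sumColimit X)).inv_hom_id,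
        fun i => h.comp_coconePointUniqueUpToIso_inv (sumColimit X) ⟨i⟩⟩
    have h1 : ∀ i a, Ob.Hom.f w (⟨i, a⟩ : Σ i, (X i).α) = Ob.Hom.f (j i) a := fun i a =>
      congrArg (fun v => Ob.Hom.f v a) (hw i)
    have h2 : ∀ z : (sumOb X).α, Ob.Hom.f u (Ob.Hom.f w z) = z := fun z =>
      congrArg (fun v => Ob.Hom.f v z) hwu
    have h3 : ∀ y, Ob.Hom.f w (Ob.Hom.f u y) = y := fun y =>
      congrArg (fun v => Ob.Hom.f v y) huw
    constructor
    · constructor
      · intro z z' hz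
        have hz' : Ob.Hom.f w z = Ob.Hom.f w z' :=
          (h1 z.1 z.2).trans (hz.trans (h1 z'.1 z'.2).symm)
        exact (h2 z).symm.trans ((congrArg (Ob.Hom.f u) hz').trans (h2 z'))
      · intro y
        exact ⟨Ob.Hom.f u y, (h1 _ _).symm.trans (h3 y)⟩
    · intro f hf
      have h4 : (fun z => f (Ob.Hom.f w z)) ∈ (sumOb X).adm := by
        intro i
        have : (fun a => f (Ob.Hom.f w (⟨i, a⟩ : Σ i, (X i).α))) =
            fun a => f (Ob.Hom.f (j i) a) := by
          funext a; rw [h1]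
        have h5 := hf i
        rw [← this] at h5
        exact h5
      have h5 := Ob.Hom.adm u _ h4
      have h6 : (fun z => f (Ob.Hom.f w z)) ∘ Ob.Hom.f u = f := by
        funext y
        exact congrArg f (h3 y)
      rwa [h6] at h5
  · rintro ⟨hb, ha⟩
    let E := Equiv.ofBijective _ hb
    have hE : ∀ i a, E.symm (Ob.Hom.f (j i) a) = ⟨i, a⟩ := fun i a =>
      E.symm_apply_apply ⟨i, a⟩
    have hsurj : ∀ y, ∃ i a, Ob.Hom.f (j i) a = y := fun y =>
      ⟨(E.symm y).1, (E.symm y).2, E.apply_symm_apply y⟩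
    refine ⟨Cofan.IsColimit.mk _ (fun c => ⟨fun y => Ob.Hom.f (c.inj (E.symm y).1) (E.symm y).2,
      ?_, ?_⟩) ?_ ?_⟩
    · intro y
      obtain ⟨i, a, rfl⟩ := hsurj y
      have h1 : Y.τ (Ob.Hom.f (j i) a) = Ob.Hom.f (j i) ((X i).τ a) := (Ob.Hom.eqv (j i) a).symm
      show Ob.Hom.f (c.inj (E.symm (Y.τ (Ob.Hom.f (j i) a))).1)
        (E.symm (Y.τ (Ob.Hom.f (j i) a))).2 = _
      rw [h1, hE, hE]
      exact Ob.Hom.eqv (c.inj i) a
    · intro g hg
      apply ha
      intro i
      have : (fun a => (g ∘ fun y => Ob.Hom.f (c.inj (E.symm y).1) (E.symm y).2)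
          (Ob.Hom.f (j i) a)) = g ∘ Ob.Hom.f (c.inj i) := by
        funext a
        show g (Ob.Hom.f (c.inj (E.symm (Ob.Hom.f (j i) a)).1)
          (E.symm (Ob.Hom.f (j i) a)).2) = _
        rw [hE]; rfl
      have h2 := Ob.Hom.adm (c.inj i) g hg
      rw [← this] at h2
      exact h2
    · intro c i
      apply hom_ext
      intro a
      show Ob.Hom.f (c.inj (E.symm (Ob.Hom.f (j i) a)).1) (E.symm (Ob.Hom.f (j i) a)).2 = _
      rw [hE]
    · intro c m hm
      apply hom_ext
      intro y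
      obtain ⟨i, a, rfl⟩ := hsurj y
      show _ = Ob.Hom.f (c.inj (E.symm (Ob.Hom.f (j i) a)).1) (E.symm (Ob.Hom.f (j i) a)).2
      rw [hE]
      exact congrArg (fun (u : X i ⟶ c.pt) => Ob.Hom.f u a) (hm i)

end Pool.Agent.X221.PS
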