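import Mathlib
import Pool.Agent.X221.PS.Cat

/-!
# Total spaces of diagrams
-/

namespace Pool.Agent.X221.PS

open CategoryTheory Limits

open scoped Classical in
section

variable {G : DG}

/-- Infinite backward paths. -/
def Path (G : DG) : Type := {x : ℕ → G.E // ∀ i, G.t (x (i + 1)) = G.s (x i)}

/-- The shift. -/
def Path.sh (x : Path G) : Path G := ⟨fun i => x.1 (i + 1), fun i => x.2 (i + 1)⟩

lemma Path.sh_apply (x : Path G) (i : ℕ) : x.sh.1 i = x.1 (i + 1) := rfl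

lemma Path.ext {x y : Path G} (h : ∀ i, x.1 i = y.1 i) : x = y := Subtype.ext (funext h)

/-- The vertex at which a path ends. -/
def Path.vert (x : Path G) : G.V := G.t (x.1 0)

lemma Path.vert_sh (x : Path G) : x.sh.vert = G.s (x.1 0) := x.2 0

/-- Prepending an edge. -/
def Path.cons (e : G.E) (x : Path G) (h : x.vert = G.s e) : Path G :=
  ⟨fun i => Nat.casesOn i e x.1, fun i => by
    cases i with
    | zero => exact h
    | succ i => exact x.2 i⟩

lemma Path.cons_zero (e : G.E) (x : Path G) (h : x.vert = G.s e) : (Path.cons e x h).1 0 = e := rfl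

lemma Path.sh_cons (e : G.E) (x : Path G) (h : x.vert = G.s e) : (Path.cons e x h).sh = x := rfl

lemma Path.uq {x y : Path G} (h : x.1 0 = y.1 0) (h' : x.sh = y.sh) : x = y := by
  apply Path.ext
  intro i
  cases i with
  | zero => exact h
  | succ i => exact congrArg (fun z => z.1 i) h'

/-- Sets over the path space with a shift. -/
structure Pre (G : DG) where
  /-- the points -/
  X : Type
  /-- the itinerary -/
  it : X → Path G
  /-- the shift -/
  sh : X → X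
  it_sh : ∀ p, it (sh p) = (it p).sh
  ex : ∀ e r, (it r).vert = G.s e → ∃ p, (it p).1 0 = e ∧ sh p = r
  uq : ∀ p p', (it p).1 0 = (it p').1 0 → sh p = sh p' → p = p'

/-- Prepending an edge to a point. -/
noncomputable def Pre.cns (P : Pre G) (e : G.E) (r : P.X) (h : (P.it r).vert = G.s e) : P.X :=
  (P.ex e r h).choose

lemma Pre.it_cns (P : Pre G) (e : G.E) (r : P.X) (h : (P.it r).vert = G.s e) :
    (P.it (P.cns e r h)).1 0 = e := (P.ex e r h).choose_spec.1

lemma Pre.sh_cns (P : Pre G) (e : G.E) (r : P.X) (h : (P.it r).vert = G.s e) :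
    P.sh (P.cns e r h) = r := (P.ex e r h).choose_spec.2

lemma Pre.vert_cns (P : Pre G) (e : G.E) (r : P.X) (h : (P.it r).vert = G.s e) :
    (P.it (P.cns e r h)).vert = G.t e := by
  rw [Path.vert, P.it_cns]

lemma Pre.vert_sh (P : Pre G) (p : P.X) : (P.it (P.sh p)).vert = G.s ((P.it p).1 0) := by
  rw [P.it_sh]; exact Path.vert_sh _

lemma Pre.cns_eq (P : Pre G) (e : G.E) (r : P.X) (h : (P.it r).vert = G.s e) (p : P.X)
    (h1 : (P.it p).1 0 = e) (h2 : P.sh p = r) : P.cns e r h = p :=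
  P.uq _ _ (by rw [P.it_cns, h1]) (by rw [P.sh_cns, h2])

open scoped Classical in
/-- The pull back of a function along the prepending of an edge. -/
noncomputable def Pre.pull (P : Pre G) (e : G.E) (F : P.X → ℤ) : P.X → ℤ :=
  fun r => if h : (P.it r).vert = G.s e then F (P.cns e r h) else 0

lemma Pre.pull_pos (P : Pre G) (e : G.E) (F : P.X → ℤ) (r : P.X) (h : (P.it r).vert = G.s e) :
    P.pull e F r = F (P.cns e r h) := dif_pos h

lemma Pre.pull_neg (P : Pre G) (e : G.E) (F : P.X → ℤ) (r : P.X) (h : (P.it r).vert ≠ G.s e) :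
    P.pull e F r = 0 := dif_neg h

/-- Total spaces. -/
structure Tot (G : DG) extends Pre G where
  /-- the automorphism -/
  τ : X ≃ X
  it_τ : ∀ p, it (τ p) = it p
  sh_τ : ∀ p, sh (τ p) = τ (sh p)
  /-- the admissible functions -/
  adm : AddSubgroup (X → ℤ)
  one : (fun _ => 1) ∈ adm
  inv : ∀ f ∈ adm, f ∘ τ ∈ adm
  inv' : ∀ f ∈ adm, f ∘ τ.symm ∈ adm
  coord : ∃ q ∈ adm, ∀ x, τ x = x ∨ q (τ x) = q x + 1
  glue : ∀ F, F ∈ adm ↔ ∀ e, toPre.pull e F ∈ adm

/-- Morphisms of total spaces. -/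
@[ext]
structure Tot.Hom (P Q : Tot G) where
  /-- the map -/
  f : P.X → Q.X
  it : ∀ p, Q.it (f p) = P.it p
  sh : ∀ p, Q.sh (f p) = f (P.sh p)
  eqv : ∀ p, f (P.τ p) = Q.τ (f p)
  adm : ∀ g ∈ Q.adm, g ∘ f ∈ P.adm

instance (G : DG) : Category.{0} (Tot G) where
  Hom := Tot.Hom
  id P := ⟨fun p => p, fun _ => rfl, fun _ => rfl, fun _ => rfl, fun _ h => h⟩
  comp f g := ⟨fun p => g.f (f.f p), fun p => by rw [g.it, f.it], fun p => by rw [g.sh, f.sh],
    fun p => by rw [f.eqv, g.eqv], fun h hh => f.adm _ (g.adm h hh)⟩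

lemma Tot.hom_ext {P Q : Tot G} {f g : P ⟶ Q} (h : ∀ x, Tot.Hom.f f x = Tot.Hom.f g x) : f = g :=
  Tot.Hom.ext (funext h)

lemma Tot.comp_f {P Q R : Tot G} (f : P ⟶ Q) (g : Q ⟶ R) (x : P.X) :
    Tot.Hom.f (f ≫ g) x = Tot.Hom.f g (Tot.Hom.f f x) := rfl

lemma Tot.id_f {P : Tot G} (x : P.X) : Tot.Hom.f (𝟙 P) x = x := rfl

lemma Tot.Hom.cns {P Q : Tot G} (f : P ⟶ Q) (e : G.E) (r : P.X) (h : (P.it r).vert = G.s e)
    (h' : (Q.it (Tot.Hom.f f r)).vert = G.s e) :
    Tot.Hom.f f (P.cns e r h) = Q.cns e (Tot.Hom.f f r) h' := by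
  symm
  apply Q.cns_eq
  · rw [Tot.Hom.it, P.it_cns]
  · rw [Tot.Hom.sh, P.sh_cns]

/-! ### The total space of a diagram -/

/-- The graph has no sources. -/
def NoSrc (G : DG) : Prop := ∀ v, ∃ e, G.t e = v

variable (D : Diag G Ob)

/-- The total set of a diagram. -/
abbrev Diag.TX : Type := Σ v, (D.obj v).α

lemma Diag.mk_inj {v : G.V} {a b : (D.obj v).α} (h : (⟨v, a⟩ : D.TX) = ⟨v, b⟩) : a = b :=
  eq_of_heq (Sigma.mk.inj h).2

/-- The structure map. -/
def Diag.co (z : Σ e, (D.obj (G.s e)).α) : D.TX := ⟨G.t z.1, Ob.Hom.f (D.map z.1) z.2⟩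

lemma Diag.co_eq {v : G.V} (i : {e // G.t e = v}) (a : (D.obj (G.s i.1)).α) :
    (⟨v, Ob.Hom.f (D.map i.1 ≫ eqToHom (congrArg D.obj i.2)) a⟩ : D.TX) = D.co ⟨i.1, a⟩ := by
  obtain ⟨e, rfl⟩ := i
  rfl

theorem Diag.bij (hs : NoSrc G) : Function.Bijective D.co := by
  constructor
  · rintro ⟨e, a⟩ ⟨e', a'⟩ h
    have hte : G.t e = G.t e' := congrArg Sigma.fst h
    have hc := ((colimit_iff _ _ _).1 (D.coprod (G.t e') ⟨e', rfl⟩)).1.1
    have h1 := D.co_eq (v := G.t e') ⟨e, hte⟩ a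
    have h2 := D.co_eq (v := G.t e') ⟨e', rfl⟩ a'
    have h3 := D.mk_inj (h1.trans (h.trans h2.symm))
    have h4 := @hc ⟨⟨e, hte⟩, a⟩ ⟨⟨e', rfl⟩, a'⟩ h3
    simp only [Sigma.mk.injEq, Subtype.mk.injEq] at h4
    obtain ⟨rfl, h4⟩ := h4
    rw [eq_of_heq h4]
  · rintro ⟨v, b⟩
    obtain ⟨⟨i, a⟩, h⟩ := ((colimit_iff _ _ _).1 (D.coprod v (hs v))).1.2 b
    refine ⟨⟨i.1, a⟩, ?_⟩
    rw [← D.co_eq i a]
    exact congrArg (Sigma.mk v) h

/-- The decomposition of a point. -/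
noncomputable def Diag.dec (hs : NoSrc G) : D.TX → Σ e, (D.obj (G.s e)).α :=
  (Equiv.ofBijective _ (D.bij hs)).symm

lemma Diag.dec_co (hs : NoSrc G) (z) : D.dec hs (D.co z) = z :=
  (Equiv.ofBijective _ (D.bij hs)).symm_apply_apply z

lemma Diag.co_dec (hs : NoSrc G) (p) : D.co (D.dec hs p) = p :=
  (Equiv.ofBijective _ (D.bij hs)).apply_symm_apply p

/-- The last edge of a point. -/
noncomputable def Diag.lab (hs : NoSrc G) (p : D.TX) : G.E := (D.dec hs p).1

/-- The shift of a point. -/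
noncomputable def Diag.shf (hs : NoSrc G) (p : D.TX) : D.TX :=
  ⟨G.s (D.lab hs p), (D.dec hs p).2⟩

lemma Diag.lab_co (hs : NoSrc G) (z : Σ e, (D.obj (G.s e)).α) : D.lab hs (D.co z) = z.1 :=
  congrArg Sigma.fst (D.dec_co hs z)

lemma Diag.shf_co (hs : NoSrc G) (z : Σ e, (D.obj (G.s e)).α) :
    D.shf hs (D.co z) = ⟨G.s z.1, z.2⟩ :=
  congrArg (fun z : Σ e, (D.obj (G.s e)).α => (⟨G.s z.1, z.2⟩ : D.TX)) (D.dec_co hs z)

lemma Diag.t_lab (hs : NoSrc G) (p : D.TX) : G.t (D.lab hs p) = p.1 :=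
  congrArg Sigma.fst (D.co_dec hs p)

/-- The itinerary of a point. -/
noncomputable def Diag.itin (hs : NoSrc G) (p : D.TX) : Path G :=
  ⟨fun i => D.lab hs ((D.shf hs)^[i] p), fun i => by
    rw [D.t_lab, Function.iterate_succ_apply']; rfl⟩

lemma Diag.itin_zero (hs : NoSrc G) (p : D.TX) : (D.itin hs p).1 0 = D.lab hs p := rfl

lemma Diag.itin_shf (hs : NoSrc G) (p : D.TX) : D.itin hs (D.shf hs p) = (D.itin hs p).sh := rfl

lemma Diag.vert_itin (hs : NoSrc G) (p : D.TX) : (D.itin hs p).vert = p.1 := D.t_lab hs p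

/-- The automorphism of the total set. -/
def Diag.tau : D.TX ≃ D.TX := Equiv.sigmaCongrRight fun v => (D.obj v).τ

lemma Diag.tau_mk (v : G.V) (b : (D.obj v).α) : D.tau ⟨v, b⟩ = ⟨v, (D.obj v).τ b⟩ := rfl

lemma Diag.tau_co (z : Σ e, (D.obj (G.s e)).α) :
    D.tau (D.co z) = D.co ⟨z.1, (D.obj (G.s z.1)).τ z.2⟩ := by
  rw [Diag.co, Diag.tau_mk, ← Ob.Hom.eqv]; rfl

lemma Diag.lab_tau (hs : NoSrc G) (p : D.TX) : D.lab hs (D.tau p) = D.lab hs p := by
  obtain ⟨z, rfl⟩ := (D.bij hs).2 p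
  rw [D.tau_co, D.lab_co, D.lab_co]

lemma Diag.shf_tau (hs : NoSrc G) (p : D.TX) : D.shf hs (D.tau p) = D.tau (D.shf hs p) := by
  obtain ⟨z, rfl⟩ := (D.bij hs).2 p
  rw [D.tau_co, D.shf_co, D.shf_co]; rfl

/-- The total space as a set over the path space. -/
noncomputable abbrev Diag.pre (hs : NoSrc G) : Pre G where
  X := D.TX
  it := D.itin hs
  sh := D.shf hs
  it_sh := D.itin_shf hs
  ex := by
    rintro e ⟨w, b⟩ h
    rw [D.vert_itin] at h
    dsimp only at h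
    subst h
    exact ⟨D.co ⟨e, b⟩, D.lab_co hs _, D.shf_co hs _⟩
  uq := by
    intro p p' h h'
    obtain ⟨⟨e, a⟩, rfl⟩ := (D.bij hs).2 p
    obtain ⟨⟨e', a'⟩, rfl⟩ := (D.bij hs).2 p'
    rw [D.itin_zero, D.itin_zero, D.lab_co, D.lab_co] at h
    dsimp only at h
    subst h
    rw [D.shf_co, D.shf_co] at h'
    have h2 : a = a' := D.mk_inj h'
    rw [h2]

lemma Diag.cns_mk (hs : NoSrc G) (e : G.E) (b : (D.obj (G.s e)).α) (h) :
    (D.pre hs).cns e (⟨G.s e, b⟩ : D.TX) h = D.co ⟨e, b⟩ :=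
  (D.pre hs).cns_eq _ _ _ _ (D.lab_co hs _) (D.shf_co hs _)

lemma Diag.vert_mk (hs : NoSrc G) (w : G.V) (b : (D.obj w).α) :
    ((D.pre hs).it (⟨w, b⟩ : D.TX)).vert = w := D.vert_itin hs _

lemma Diag.pull_self (hs : NoSrc G) (e : G.E) (F : D.TX → ℤ) (b : (D.obj (G.s e)).α) :
    (D.pre hs).pull e F (⟨G.s e, b⟩ : D.TX) = F (D.co ⟨e, b⟩) := by
  have h := D.vert_mk hs (G.s e) b
  rw [Pre.pull_pos _ _ _ _ h, D.cns_mk]

lemma Diag.pull_ne (hs : NoSrc G) (e : G.E) (F : D.TX → ℤ) {w : G.V} (b : (D.obj w).α)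
    (hw : w ≠ G.s e) : (D.pre hs).pull e F (⟨w, b⟩ : D.TX) = 0 := by
  have h := D.vert_mk hs w b
  rw [Pre.pull_neg]
  rw [h]; exact hw

/-- The admissible functions of the total space. -/
def Diag.tadm : AddSubgroup (D.TX → ℤ) where
  carrier := {F | ∀ v, (fun b => F ⟨v, b⟩) ∈ (D.obj v).adm}
  add_mem' := fun hf hg v => (D.obj v).adm.add_mem (hf v) (hg v)
  zero_mem' := fun v => (D.obj v).adm.zero_mem
  neg_mem' := fun hf v => (D.obj v).adm.neg_mem (hf v)

/-- The total space of a diagram. -/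
noncomputable abbrev Diag.tot (hs : NoSrc G) : Tot G where
  toPre := D.pre hs
  τ := D.tau
  it_τ := by
    intro p
    apply Path.ext
    intro i
    show D.lab hs ((D.shf hs)^[i] (D.tau p)) = D.lab hs ((D.shf hs)^[i] p)
    have : ∀ i, ∀ p, (D.shf hs)^[i] (D.tau p) = D.tau ((D.shf hs)^[i] p) := by
      intro i
      induction i with
      | zero => intro p; rfl
      | succ i ih =>
        intro p
        rw [Function.iterate_succ_apply, D.shf_tau, ih, Function.iterate_succ_apply]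
    rw [this, D.lab_tau]
  sh_τ := D.shf_tau hs
  adm := D.tadm
  one := fun v => (D.obj v).one
  inv := fun f hf v => (D.obj v).inv _ (hf v)
  inv' := fun f hf v => (D.obj v).inv' _ (hf v)
  coord := by
    refine ⟨fun z => (D.obj z.1).coord.choose z.2, fun v => (D.obj v).coord.choose_spec.1, ?_⟩
    rintro ⟨v, b⟩
    rcases (D.obj v).coord.choose_spec.2 b with h | h
    · left
      rw [D.tau_mk, h]
    · right; exact h
  glue := by
    intro F
    constructor
    · intro hF e w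
      by_cases hw : w = G.s e
      · subst hw
        have : (fun b => (D.pre hs).pull e F (⟨G.s e, b⟩ : D.TX)) =
            (fun b => F ⟨G.t e, b⟩) ∘ Ob.Hom.f (D.map e) := by
          funext b; rw [D.pull_self]; rfl
        rw [this]
        exact Ob.Hom.adm (D.map e) _ (hF _)
      · have : (fun b => (D.pre hs).pull e F (⟨w, b⟩ : D.TX)) = 0 := by
          funext b; rw [D.pull_ne hs e F b hw]; rfl
        rw [this]
        exact AddSubgroup.zero_mem _
    · intro hF v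
      refine ((colimit_iff _ _ _).1 (D.coprod v (hs v))).2 _ fun i => ?_
      have h1 := hF i.1 (G.s i.1)
      have h2 : (fun b => (D.pre hs).pull i.1 F (⟨G.s i.1, b⟩ : D.TX)) =
          fun a => F ⟨v, Ob.Hom.f (D.map i.1 ≫ eqToHom (congrArg D.obj i.2)) a⟩ := by
        funext b; rw [D.pull_self, D.co_eq]
      rw [h2] at h1
      exact h1

/-- The functor on morphisms. -/
noncomputable def Diag.totMap (hs : NoSrc G) {D D' : Diag G Ob} (f : D ⟶ D') :
    D.tot hs ⟶ D'.tot hs := by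
  have hco : ∀ z : Σ e, (D.obj (G.s e)).α,
      (⟨(D.co z).1, Ob.Hom.f (Diag.Hom.app f (D.co z).1) (D.co z).2⟩ : D'.TX) =
      D'.co ⟨z.1, Ob.Hom.f (Diag.Hom.app f (G.s z.1)) z.2⟩ := by
    rintro ⟨e, a⟩
    have h := congrArg (fun u => Ob.Hom.f u a) (Diag.Hom.comm f e)
    exact congrArg (Sigma.mk (G.t e)) h
  have hsh : ∀ p : D.TX, D'.shf hs ⟨p.1, Ob.Hom.f (Diag.Hom.app f p.1) p.2⟩ =
      ⟨(D.shf hs p).1, Ob.Hom.f (Diag.Hom.app f (D.shf hs p).1) (D.shf hs p).2⟩ := by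
    intro p
    obtain ⟨z, rfl⟩ := (D.bij hs).2 p
    rw [hco, D'.shf_co]
    rw [D.shf_co]
  have hlab : ∀ p : D.TX, D'.lab hs ⟨p.1, Ob.Hom.f (Diag.Hom.app f p.1) p.2⟩ = D.lab hs p := by
    intro p
    obtain ⟨z, rfl⟩ := (D.bij hs).2 p
    rw [hco, D'.lab_co, D.lab_co]
  exact
    { f := fun p => ⟨p.1, Ob.Hom.f (Diag.Hom.app f p.1) p.2⟩
      it := by
        intro p
        apply Path.ext
        intro i
        show D'.lab hs ((D'.shf hs)^[i] ⟨p.1, Ob.Hom.f (Diag.Hom.app f p.1) p.2⟩) =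
          D.lab hs ((D.shf hs)^[i] p)
        induction i generalizing p with
        | zero => exact hlab p
        | succ i ih =>
          rw [Function.iterate_succ_apply, Function.iterate_succ_apply, hsh]
          exact ih _
      sh := hsh
      eqv := by
        rintro ⟨v, b⟩
        show (⟨v, Ob.Hom.f (Diag.Hom.app f v) ((D.obj v).τ b)⟩ : D'.TX) = _
        rw [Ob.Hom.eqv]; rfl
      adm := fun g hg v => Ob.Hom.adm (Diag.Hom.app f v) _ (hg v) }

/-- The functor to total spaces. -/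
noncomputable def totF (G : DG) (hs : NoSrc G) : Diag G Ob ⥤ Tot G where
  obj D := D.tot hs
  map f := Diag.totMap hs f
  map_id _ := rfl
  map_comp _ _ := rfl

lemma totMap_f (hs : NoSrc G) {D D' : Diag G Ob} (f : D ⟶ D') (v : G.V) (b : (D.obj v).α) :
    Tot.Hom.f (Diag.totMap hs f) (⟨v, b⟩ : D.TX) = (⟨v, Ob.Hom.f (Diag.Hom.app f v) b⟩ : D'.TX) :=
  rfl

instance (hs : NoSrc G) : (totF G hs).Faithful where
  map_injective := by
    intro D D' f g h
    apply Diag.Hom.ext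
    funext v
    apply hom_ext
    intro b
    have h0 : Diag.totMap hs f = Diag.totMap hs g := h
    have h1 : (⟨v, Ob.Hom.f (Diag.Hom.app f v) b⟩ : D'.TX) =
        ⟨v, Ob.Hom.f (Diag.Hom.app g v) b⟩ :=
      congrArg (fun u : D.tot hs ⟶ D'.tot hs => Tot.Hom.f u (⟨v, b⟩ : D.TX)) h0
    exact D'.mk_inj h1

end

end Pool.Agent.X221.PS
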