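import Mathlib
import Pool.Agent.X221.PS.Tot

/-!
# The category of diagrams is equivalent to the category of total spaces
-/

namespace Pool.Agent.X221.PS

open CategoryTheory Limits

variable {G : DG}

instance (hs : NoSrc G) : (totF G hs).Full where
  map_surjective := by
    classical
    intro D D' Ψ
    change D.tot hs ⟶ D'.tot hs at Ψ
    have hv : ∀ p : D.TX, (Tot.Hom.f Ψ p : D'.TX).1 = p.1 := by
      intro p
      have h1 : D'.itin hs (Tot.Hom.f Ψ p) = D.itin hs p := Tot.Hom.it Ψ p
      have h2 := D'.vert_itin hs (Tot.Hom.f Ψ p)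
      rw [h1, D.vert_itin] at h2
      exact h2.symm
    have hex : ∀ v (b : (D.obj v).α), ∃ b' : (D'.obj v).α,
        (Tot.Hom.f Ψ (⟨v, b⟩ : D.TX) : D'.TX) = ⟨v, b'⟩ := by
      intro v b
      have h1 := hv ⟨v, b⟩
      generalize (Tot.Hom.f Ψ (⟨v, b⟩ : D.TX) : D'.TX) = q at h1
      obtain ⟨w, c⟩ := q
      dsimp only at h1
      subst h1
      exact ⟨c, rfl⟩
    choose app happ using hex
    have hco : ∀ e (a : (D.obj (G.s e)).α), (Tot.Hom.f Ψ (D.co ⟨e, a⟩) : D'.TX) =
        D'.co ⟨e, app (G.s e) a⟩ := by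
      intro e a
      apply (D'.pre hs).uq
      · have h1 : D'.itin hs (Tot.Hom.f Ψ (D.co ⟨e, a⟩)) = D.itin hs (D.co ⟨e, a⟩) :=
          Tot.Hom.it Ψ _
        show (D'.itin hs _).1 0 = (D'.itin hs _).1 0
        rw [h1, D.itin_zero, D'.itin_zero, D.lab_co, D'.lab_co]
      · have h1 : D'.shf hs (Tot.Hom.f Ψ (D.co ⟨e, a⟩)) = Tot.Hom.f Ψ (D.shf hs (D.co ⟨e, a⟩)) :=
          Tot.Hom.sh Ψ _
        show D'.shf hs _ = D'.shf hs _
        rw [h1, D.shf_co, D'.shf_co]
        exact happ _ _
    let f : D ⟶ D' :=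
      { app := fun v =>
          { f := app v
            eqv := by
              intro b
              apply D'.mk_inj
              rw [← happ]
              have h1 : (Tot.Hom.f Ψ (⟨v, (D.obj v).τ b⟩ : D.TX) : D'.TX) =
                D'.tau (Tot.Hom.f Ψ (⟨v, b⟩ : D.TX)) := Tot.Hom.eqv Ψ (⟨v, b⟩ : D.TX)
              rw [happ v b] at h1
              exact h1
            adm := by
              intro g hg
              let F : D'.TX → ℤ := fun z => if h : z.1 = v then g (h ▸ z.2) else 0
              have hF1 : ∀ b, F ⟨v, b⟩ = g b := fun b => by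
                show (if h : v = v then _ else _) = _
                rw [dif_pos rfl]
              have hF : F ∈ D'.tadm := by
                intro w
                by_cases hw : w = v
                · subst hw
                  have : (fun b => F ⟨w, b⟩) = g := funext hF1
                  rw [this]; exact hg
                · have : (fun b => F ⟨w, b⟩) = 0 := by
                    funext b
                    show (if h : w = v then _ else _) = _
                    rw [dif_neg hw]; rfl
                  rw [this]; exact AddSubgroup.zero_mem _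
              have h1 : (fun b => (F ∘ Tot.Hom.f Ψ) (⟨v, b⟩ : D.TX)) ∈ (D.obj v).adm :=
                Tot.Hom.adm Ψ F hF v
              have h2 : (fun b => (F ∘ Tot.Hom.f Ψ) (⟨v, b⟩ : D.TX)) = g ∘ app v := by
                funext b
                show F (Tot.Hom.f Ψ (⟨v, b⟩ : D.TX)) = _
                rw [happ, hF1]; rfl
              rw [h2] at h1
              exact h1 }
        comm := by
          intro e
          apply PS.hom_ext
          intro a
          apply D'.mk_inj
          show (⟨G.t e, app (G.t e) (Ob.Hom.f (D.map e) a)⟩ : D'.TX) =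
            ⟨G.t e, Ob.Hom.f (D'.map e) (app (G.s e) a)⟩
          rw [← happ]
          exact hco e a }
    refine ⟨f, ?_⟩
    apply Tot.hom_ext
    rintro ⟨v, b⟩
    exact (happ v b).symm

/-! ### Essential surjectivity -/

section

open scoped Classical in
/-- Extension by zero from a vertex. -/
noncomputable def ext0 (T : Tot G) (v : G.V) (g : {x : T.X // (T.it x).vert = v} → ℤ) : T.X → ℤ :=
  fun x => if h : (T.it x).vert = v then g ⟨x, h⟩ else 0

lemma ext0_pos (T : Tot G) {v : G.V} (g : {x : T.X // (T.it x).vert = v} → ℤ) {x : T.X}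
    (h : (T.it x).vert = v) : ext0 T v g x = g ⟨x, h⟩ := dif_pos h

lemma ext0_neg (T : Tot G) {v : G.V} (g : {x : T.X // (T.it x).vert = v} → ℤ) {x : T.X}
    (h : (T.it x).vert ≠ v) : ext0 T v g x = 0 := dif_neg h

/-- Locality of admissible functions. -/
lemma adm_local (T : Tot G) (v : G.V) {F : T.X → ℤ} (hF : F ∈ T.adm) :
    ext0 T v (fun x => F x.1) ∈ T.adm := by
  rw [T.glue]
  intro e
  by_cases hv : G.t e = v
  · have : T.pull e (ext0 T v (fun x => F x.1)) = T.pull e F := by
      funext r
      by_cases h : (T.it r).vert = G.s e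
      · rw [T.pull_pos _ _ _ h, T.pull_pos _ _ _ h, ext0_pos _ _ ((T.vert_cns e r h).trans hv)]
      · rw [T.pull_neg _ _ _ h, T.pull_neg _ _ _ h]
    rw [this]; exact (T.glue F).1 hF e
  · have : T.pull e (ext0 T v (fun x => F x.1)) = 0 := by
      funext r
      by_cases h : (T.it r).vert = G.s e
      · rw [T.pull_pos _ _ _ h, ext0_neg]
        · rfl
        · rw [T.vert_cns e r h]; exact hv
      · rw [T.pull_neg _ _ _ h]; rfl
    rw [this]; exact T.adm.zero_mem

/-- The part of a total space over a vertex. -/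
noncomputable abbrev part (T : Tot G) (v : G.V) : Ob where
  α := {x : T.X // (T.it x).vert = v}
  τ := T.τ.subtypeEquiv fun x => by rw [T.it_τ]
  adm :=
    { carrier := {g | ext0 T v g ∈ T.adm}
      add_mem' := fun {f g} hf hg => by
        have : ext0 T v (f + g) = ext0 T v f + ext0 T v g := by
          funext x
          by_cases h : (T.it x).vert = v
          · rw [Pi.add_apply, ext0_pos _ _ h, ext0_pos _ _ h, ext0_pos _ _ h]; rfl
          · rw [Pi.add_apply, ext0_neg _ _ h, ext0_neg _ _ h, ext0_neg _ _ h]; rfl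
        rw [Set.mem_ofPred_eq, this]
        exact T.adm.add_mem hf hg
      zero_mem' := by
        have : ext0 T v 0 = 0 := by
          funext x
          by_cases h : (T.it x).vert = v
          · rw [ext0_pos _ _ h]; rfl
          · rw [ext0_neg _ _ h]; rfl
        rw [Set.mem_ofPred_eq, this]
        exact T.adm.zero_mem
      neg_mem' := fun {f} hf => by
        have : ext0 T v (-f) = -ext0 T v f := by
          funext x
          by_cases h : (T.it x).vert = v
          · rw [Pi.neg_apply, ext0_pos _ _ h, ext0_pos _ _ h]; rfl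
          · rw [Pi.neg_apply, ext0_neg _ _ h, ext0_neg _ _ h]; rfl
        rw [Set.mem_ofPred_eq, this]
        exact T.adm.neg_mem hf }
  one := adm_local T v T.one
  inv := fun f hf => by
    have : ext0 T v (f ∘ (T.τ.subtypeEquiv fun x => by rw [T.it_τ])) = ext0 T v f ∘ T.τ := by
      funext x
      by_cases h : (T.it x).vert = v
      · have h' : (T.it (T.τ x)).vert = v := by rw [T.it_τ]; exact h
        rw [Function.comp_apply, ext0_pos _ _ h, ext0_pos _ _ h']; rfl
      · have h' : (T.it (T.τ x)).vert ≠ v := by rw [T.it_τ]; exact h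
        rw [Function.comp_apply, ext0_neg _ _ h, ext0_neg _ _ h']
    show ext0 T v _ ∈ T.adm
    rw [this]
    exact T.inv _ hf
  inv' := fun f hf => by
    have hi : ∀ x, (T.it (T.τ.symm x)) = T.it x := fun x => by
      rw [← T.it_τ (T.τ.symm x), Equiv.apply_symm_apply]
    have : ext0 T v (f ∘ (T.τ.subtypeEquiv fun x => by rw [T.it_τ]).symm) =
        ext0 T v f ∘ T.τ.symm := by
      funext x
      by_cases h : (T.it x).vert = v
      · have h' : (T.it (T.τ.symm x)).vert = v := by rw [hi]; exact h
        rw [Function.comp_apply, ext0_pos _ _ h, ext0_pos _ _ h']; rfl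
      · have h' : (T.it (T.τ.symm x)).vert ≠ v := by rw [hi]; exact h
        rw [Function.comp_apply, ext0_neg _ _ h, ext0_neg _ _ h']
    show ext0 T v _ ∈ T.adm
    rw [this]
    exact T.inv' _ hf
  coord := by
    obtain ⟨q, hq, hq'⟩ := T.coord
    refine ⟨fun x => q x.1, adm_local T v hq, ?_⟩
    intro x
    rcases hq' x.1 with h | h
    · left; exact Subtype.ext h
    · right; exact h

/-- The maps of the diagram of a total space. -/
noncomputable abbrev backMap (T : Tot G) (e : G.E) : part T (G.s e) ⟶ part T (G.t e) :=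
  { f := fun x => ⟨T.cns e x.1 x.2, T.vert_cns e x.1 x.2⟩
    eqv := by
      intro x
      apply Subtype.ext
      exact T.cns_eq e (T.τ x.1) ((congrArg Path.vert (T.it_τ x.1)).trans x.2)
        (T.τ (T.cns e x.1 x.2)) (by rw [T.it_τ, T.it_cns]) (by rw [T.sh_τ, T.sh_cns])
    adm := by
      intro g hg
      have h1 : ext0 T (G.s e) (g ∘ fun x => ⟨T.cns e x.1 x.2, T.vert_cns e x.1 x.2⟩) =
          T.pull e (ext0 T (G.t e) g) := by
        funext r
        by_cases h : (T.it r).vert = G.s e
        · rw [ext0_pos _ _ h, T.pull_pos _ _ _ h, ext0_pos _ _ (T.vert_cns e r h)]; rfl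
        · rw [ext0_neg _ _ h, T.pull_neg _ _ _ h]
      show ext0 T (G.s e) _ ∈ T.adm
      rw [h1]
      exact (T.glue _).1 hg e }

/-- The inclusions into the part over a vertex. -/
lemma backMap_eq (T : Tot G) {v : G.V} (i : {e // G.t e = v})
    (x : {x : T.X // (T.it x).vert = G.s i.1}) :
    (Ob.Hom.f (backMap T i.1 ≫ eqToHom (congrArg (part T) i.2)) x).1 = T.cns i.1 x.1 x.2 := by
  obtain ⟨e, rfl⟩ := i
  rfl

/-- The diagram of a total space. -/
noncomputable abbrev back (T : Tot G) : Diag G Ob where
  obj := part T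
  map e := backMap T e
  coprod := by
    intro v _
    rw [colimit_iff]
    constructor
    · constructor
      · rintro ⟨⟨e, he⟩, x⟩ ⟨⟨e', he'⟩, x'⟩ h
        have h1 := congrArg Subtype.val h
        have h2 : T.cns e x.1 x.2 = T.cns e' x'.1 x'.2 :=
          (backMap_eq T ⟨e, he⟩ x).symm.trans (h1.trans (backMap_eq T ⟨e', he'⟩ x'))
        have h3 : e = e' := by rw [← T.it_cns e x.1 x.2, h2, T.it_cns]
        subst h3
        have h4 : x.1 = x'.1 := by rw [← T.sh_cns e x.1 x.2, h2, T.sh_cns]
        have h5 : x = x' := Subtype.ext h4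
        rw [h5]
      · rintro ⟨y, hy⟩
        refine ⟨⟨⟨(T.it y).1 0, hy⟩, ⟨T.sh y, T.vert_sh y⟩⟩, ?_⟩
        apply Subtype.ext
        exact (backMap_eq T ⟨(T.it y).1 0, hy⟩ ⟨T.sh y, T.vert_sh y⟩).trans
          (T.cns_eq _ _ _ _ rfl rfl)
    · intro g hg
      show ext0 T v g ∈ T.adm
      rw [T.glue]
      intro e
      by_cases hv : G.t e = v
      · have h1 : ext0 T (G.s e) (fun a => g (Ob.Hom.f
            (backMap T e ≫ eqToHom (congrArg (part T) hv)) a)) ∈ T.adm := hg ⟨e, hv⟩
        have h2 : T.pull e (ext0 T v g) = ext0 T (G.s e) (fun a => g (Ob.Hom.f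
            (backMap T e ≫ eqToHom (congrArg (part T) hv)) a)) := by
          funext r
          by_cases h : (T.it r).vert = G.s e
          · have h3 : (T.it (T.cns e r h)).vert = v := (T.vert_cns e r h).trans hv
            rw [ext0_pos _ _ h, T.pull_pos _ _ _ h, ext0_pos _ _ h3]
            refine congrArg g (Subtype.ext ?_)
            exact (backMap_eq T ⟨e, hv⟩ ⟨r, h⟩).symm
          · rw [ext0_neg _ _ h, T.pull_neg _ _ _ h]
        rw [h2]
        exact h1
      · have : T.pull e (ext0 T v g) = 0 := by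
          funext r
          by_cases h : (T.it r).vert = G.s e
          · rw [T.pull_pos _ _ _ h, ext0_neg]
            · rfl
            · rw [T.vert_cns e r h]; exact hv
          · rw [T.pull_neg _ _ _ h]; rfl
        rw [this]; exact T.adm.zero_mem

lemma back_shf (hs : NoSrc G) (T : Tot G) (p : (back T).TX) :
    (((back T).shf hs p).2).1 = T.sh p.2.1 ∧ (back T).lab hs p = (T.it p.2.1).1 0 := by
  obtain ⟨z, rfl⟩ := ((back T).bij hs).2 p
  rw [(back T).shf_co, (back T).lab_co]
  obtain ⟨e, x⟩ := z
  constructor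
  · exact (T.sh_cns e x.1 x.2).symm
  · exact (T.it_cns e x.1 x.2).symm

lemma back_it (hs : NoSrc G) (T : Tot G) (p : (back T).TX) :
    (back T).itin hs p = T.it p.2.1 := by
  apply Path.ext
  intro i
  show (back T).lab hs (((back T).shf hs)^[i] p) = _
  induction i generalizing p with
  | zero => exact (back_shf hs T p).2
  | succ i ih =>
    rw [Function.iterate_succ_apply, ih, (back_shf hs T p).1, T.it_sh]
    rfl

/-- The comparison map. -/
noncomputable def backHom (hs : NoSrc G) (T : Tot G) : (back T).tot hs ⟶ T where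
  f := fun p : (back T).TX => p.2.1
  it := fun p => (back_it hs T p).symm
  sh := fun p => ((back_shf hs T p).1).symm
  eqv := fun p => rfl
  adm := fun g hg v => by
    show ext0 T v (fun x => g x.1) ∈ T.adm
    exact adm_local T v hg

lemma vert_eq_iff (T : Tot G) (x : T.X) (v : G.V) :
    (T.it x).vert = v ↔ v = (T.it x).vert := eq_comm

/-- The comparison map in the other direction. -/
noncomputable def backInv (hs : NoSrc G) [Finite G.V] (T : Tot G) : T ⟶ (back T).tot hs where
  f := fun x => (⟨(T.it x).vert, ⟨x, rfl⟩⟩ : (back T).TX)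
  it := fun x => back_it hs T ⟨(T.it x).vert, ⟨x, rfl⟩⟩
  sh := fun x => by
    have h := back_shf hs T ⟨(T.it x).vert, ⟨x, rfl⟩⟩
    have h2 : ∀ p : (back T).TX, p = ⟨(T.it p.2.1).vert, ⟨p.2.1, rfl⟩⟩ := by
      rintro ⟨v, y, rfl⟩
      rfl
    have h3 := h2 ((back T).shf hs ⟨(T.it x).vert, ⟨x, rfl⟩⟩)
    refine h3.trans ?_
    have h4 : ∀ y y' : T.X, y = y' → (⟨(T.it y).vert, ⟨y, rfl⟩⟩ : (back T).TX) =
        ⟨(T.it y').vert, ⟨y', rfl⟩⟩ := by
      rintro y _ rfl; rfl
    exact h4 _ _ h.1
  eqv := fun x => by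
    have h2 : ∀ p : (back T).TX, p = ⟨(T.it p.2.1).vert, ⟨p.2.1, rfl⟩⟩ := by
      rintro ⟨v, y, rfl⟩
      rfl
    exact (h2 ((back T).tau ⟨(T.it x).vert, ⟨x, rfl⟩⟩)).symm
  adm := fun g hg => by
    classical
    have := Fintype.ofFinite G.V
    have h : (g ∘ fun x => (⟨(T.it x).vert, ⟨x, rfl⟩⟩ : (back T).TX)) =
        ∑ v, ext0 T v (fun y => g ⟨v, y⟩) := by
      funext x
      rw [Finset.sum_apply, Finset.sum_eq_single (T.it x).vert]
      · rw [ext0_pos _ _ rfl]; rfl
      · intro v _ hv
        exact ext0_neg _ _ hv.symm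
      · intro h; exact absurd (Finset.mem_univ _) h
    rw [h]
    exact AddSubgroup.sum_mem _ fun v _ => hg v

instance (hs : NoSrc G) [Finite G.V] : (totF G hs).EssSurj where
  mem_essImage T := ⟨back T, ⟨⟨backHom hs T, backInv hs T, by
    apply Tot.hom_ext
    rintro ⟨v, y, rfl⟩
    rfl, rfl⟩⟩⟩

instance (hs : NoSrc G) [Finite G.V] : (totF G hs).IsEquivalence where

end

end Pool.Agent.X221.PS
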