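import Mathlib
import Pool.Agent.X221.PS.Equ

/-!
# Powers of the automorphism, the path space, torsors, points
-/

namespace Pool.Agent.X221.PS

open CategoryTheory

variable {G : DG}

/-! ### Powers of the automorphism -/

/-- Powers of the automorphism. -/
def tp (T : Tot G) (k : ℤ) (p : T.X) : T.X := ((T.τ : Equiv.Perm T.X) ^ k : Equiv.Perm T.X) p

lemma tp_zero (T : Tot G) (p : T.X) : tp T 0 p = p := by simp [tp]

lemma tp_one (T : Tot G) (p : T.X) : tp T 1 p = T.τ p := by simp [tp]

lemma tp_add (T : Tot G) (k l : ℤ) (p : T.X) : tp T (k + l) p = tp T k (tp T l p) := by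
  rw [tp, zpow_add]; rfl

lemma tp_neg_one (T : Tot G) (p : T.X) : tp T (-1) p = T.τ.symm p := by
  rw [tp, zpow_neg_one]; rfl

lemma tp_ind (_T : Tot G) (P : ℤ → Prop) (h0 : P 0) (h1 : ∀ k, P k → P (k + 1))
    (h2 : ∀ k, P k → P (k - 1)) (k : ℤ) : P k := by
  induction k using Int.induction_on with
  | zero => exact h0
  | succ n ih => exact h1 _ ih
  | pred n ih => exact h2 _ ih

lemma tp_succ (T : Tot G) (k : ℤ) (p : T.X) : tp T (k + 1) p = T.τ (tp T k p) := by
  rw [add_comm, tp_add, tp_one]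

lemma tp_pred (T : Tot G) (k : ℤ) (p : T.X) : tp T (k - 1) p = T.τ.symm (tp T k p) := by
  rw [sub_eq_add_neg, add_comm, tp_add, tp_neg_one]

lemma it_symm (T : Tot G) (p : T.X) : T.it (T.τ.symm p) = T.it p := by
  rw [← T.it_τ (T.τ.symm p), Equiv.apply_symm_apply]

lemma sh_symm (T : Tot G) (p : T.X) : T.sh (T.τ.symm p) = T.τ.symm (T.sh p) := by
  apply T.τ.injective
  rw [← T.sh_τ, Equiv.apply_symm_apply, Equiv.apply_symm_apply]

lemma it_tp (T : Tot G) (k : ℤ) (p : T.X) : T.it (tp T k p) = T.it p := by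
  refine tp_ind T (fun k => T.it (tp T k p) = T.it p) ?_ ?_ ?_ k
  · rw [tp_zero]
  · intro k h; rw [tp_succ, T.it_τ, h]
  · intro k h; rw [tp_pred, it_symm, h]

lemma sh_tp (T : Tot G) (k : ℤ) (p : T.X) : T.sh (tp T k p) = tp T k (T.sh p) := by
  refine tp_ind T (fun k => T.sh (tp T k p) = tp T k (T.sh p)) ?_ ?_ ?_ k
  · rw [tp_zero, tp_zero]
  · intro k h; rw [tp_succ, T.sh_τ, h, tp_succ]
  · intro k h; rw [tp_pred, sh_symm, h, tp_pred]

lemma τ_tp (T : Tot G) (k : ℤ) (p : T.X) : tp T k (T.τ p) = T.τ (tp T k p) := by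
  rw [← tp_one, ← tp_add, add_comm, tp_add, tp_one]

/-- Powers of the automorphism as morphisms. -/
def tau (T : Tot G) (k : ℤ) : T ⟶ T where
  f := tp T k
  it := it_tp T k
  sh := sh_tp T k
  eqv := τ_tp T k
  adm := by
    refine tp_ind T (fun k => ∀ g ∈ T.adm, g ∘ tp T k ∈ T.adm) ?_ ?_ ?_ k
    · intro g hg
      have : g ∘ tp T 0 = g := by funext p; rw [Function.comp_apply, tp_zero]
      rw [this]; exact hg
    · intro k h g hg
      have : g ∘ tp T (k + 1) = (g ∘ T.τ) ∘ tp T k := by
        funext p; rw [Function.comp_apply, tp_succ]; rfl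
      rw [this]; exact h _ (T.inv g hg)
    · intro k h g hg
      have : g ∘ tp T (k - 1) = (g ∘ T.τ.symm) ∘ tp T k := by
        funext p; rw [Function.comp_apply, tp_pred]; rfl
      rw [this]; exact h _ (T.inv' g hg)

lemma tau_zero (T : Tot G) : tau T 0 = 𝟙 T := Tot.hom_ext fun x => tp_zero T x

lemma tau_add (T : Tot G) (k l : ℤ) : tau T (k + l) = tau T l ≫ tau T k :=
  Tot.hom_ext fun x => tp_add T k l x

lemma hom_tp {T S : Tot G} (f : T ⟶ S) (k : ℤ) (p : T.X) :
    Tot.Hom.f f (tp T k p) = tp S k (Tot.Hom.f f p) := by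
  refine tp_ind T (fun k => Tot.Hom.f f (tp T k p) = tp S k (Tot.Hom.f f p)) ?_ ?_ ?_ k
  · rw [tp_zero, tp_zero]
  · intro k h; rw [tp_succ, Tot.Hom.eqv, h, tp_succ]
  · intro k h
    rw [tp_pred, tp_pred, ← h]
    apply S.τ.injective
    rw [← Tot.Hom.eqv, Equiv.apply_symm_apply, Equiv.apply_symm_apply]

lemma tau_nat {T S : Tot G} (f : T ⟶ S) (k : ℤ) : tau T k ≫ f = f ≫ tau S k :=
  Tot.hom_ext fun p => hom_tp f k p

/-! ### Iterated shifts -/

lemma iter_apply (x : Path G) (i k : ℕ) : (Path.sh^[i] x).1 k = x.1 (k + i) := by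
  induction i generalizing x with
  | zero => rfl
  | succ i ih => rw [Function.iterate_succ_apply, ih]; rfl

lemma it_iter (P : Pre G) (i : ℕ) (p : P.X) : P.it (P.sh^[i] p) = Path.sh^[i] (P.it p) := by
  induction i generalizing p with
  | zero => rfl
  | succ i ih => rw [Function.iterate_succ_apply, ih, P.it_sh, Function.iterate_succ_apply]

lemma hom_iter {T S : Tot G} (f : T ⟶ S) (i : ℕ) (p : T.X) :
    Tot.Hom.f f (T.sh^[i] p) = S.sh^[i] (Tot.Hom.f f p) := by
  induction i generalizing p with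
  | zero => rfl
  | succ i ih =>
    rw [Function.iterate_succ_apply, ih, ← Tot.Hom.sh, Function.iterate_succ_apply]

lemma sh_iter_tp (T : Tot G) (k : ℤ) (i : ℕ) (p : T.X) :
    T.sh^[i] (tp T k p) = tp T k (T.sh^[i] p) := by
  induction i generalizing p with
  | zero => rfl
  | succ i ih => rw [Function.iterate_succ_apply, sh_tp, ih, Function.iterate_succ_apply]

lemma iter_inj (P : Pre G) (i : ℕ) (q q' : P.X) (h : P.it q = P.it q')
    (h' : P.sh^[i] q = P.sh^[i] q') : q = q' := by
  induction i generalizing q q' with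
  | zero => exact h'
  | succ i ih =>
    rw [Function.iterate_succ_apply, Function.iterate_succ_apply] at h'
    have h1 := ih _ _ (by rw [P.it_sh, P.it_sh, h]) h'
    exact P.uq _ _ (by rw [h]) h1

lemma glue_ex (P : Pre G) (i : ℕ) (r : P.X) (y : Path G) (h : Path.sh^[i] y = P.it r) :
    ∃ q, P.it q = y ∧ P.sh^[i] q = r := by
  induction i generalizing y with
  | zero => exact ⟨r, h.symm, rfl⟩
  | succ i ih =>
    obtain ⟨q', h1, h2⟩ := ih y.sh h
    have hv : (P.it q').vert = G.s (y.1 0) := by rw [h1]; exact Path.vert_sh y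
    refine ⟨P.cns (y.1 0) q' hv, ?_, ?_⟩
    · apply Path.uq
      · rw [P.it_cns]
      · rw [← P.it_sh, P.sh_cns, h1]
    · rw [Function.iterate_succ_apply, P.sh_cns, h2]

/-- `(y, n)` is in the component of `(x, 0)`. -/
def Rel (x y : Path G) (n : ℤ) : Prop := ∃ i j : ℕ, (i : ℤ) - j = n ∧ Path.sh^[i] y = Path.sh^[j] x

/-- Transport of a point along the groupoid. -/
def Tr (P : Pre G) (p : P.X) (y : Path G) (n : ℤ) (q : P.X) : Prop :=
  P.it q = y ∧ ∃ i j : ℕ, (i : ℤ) - j = n ∧ P.sh^[i] q = P.sh^[j] p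

lemma Tr_ex (P : Pre G) (p : P.X) (y : Path G) (n : ℤ) (h : Rel (P.it p) y n) :
    ∃ q, Tr P p y n q := by
  obtain ⟨i, j, h1, h2⟩ := h
  rw [← it_iter] at h2
  obtain ⟨q, hq, hq'⟩ := glue_ex P i _ y h2
  exact ⟨q, hq, i, j, h1, hq'⟩

lemma Tr_uq (P : Pre G) (p : P.X) (y : Path G) (n : ℤ) (q q' : P.X) (h : Tr P p y n q)
    (h' : Tr P p y n q') : q = q' := by
  obtain ⟨h1, i, j, h2, h3⟩ := h
  obtain ⟨h1', i', j', h2', h3'⟩ := h'
  have hN : j' + i = j + i' := by omega
  apply iter_inj P (j' + i) _ _ (h1.trans h1'.symm)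
  calc P.sh^[j' + i] q = P.sh^[j'] (P.sh^[i] q) := Function.iterate_add_apply _ _ _ _
    _ = P.sh^[j'] (P.sh^[j] p) := by rw [h3]
    _ = P.sh^[j] (P.sh^[j'] p) := by
      rw [← Function.iterate_add_apply, add_comm, Function.iterate_add_apply]
    _ = P.sh^[j] (P.sh^[i'] q') := by rw [h3']
    _ = P.sh^[j' + i] q' := by rw [hN, Function.iterate_add_apply]

lemma Tr_rel {P : Pre G} {p : P.X} {y : Path G} {n : ℤ} {q : P.X} (h : Tr P p y n q) :
    Rel (P.it p) y n := by
  obtain ⟨h1, i, j, h2, h3⟩ := h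
  refine ⟨i, j, h2, ?_⟩
  rw [← h1, ← it_iter, ← it_iter, h3]

lemma Tr_refl (P : Pre G) (p : P.X) : Tr P p (P.it p) 0 p := ⟨rfl, 0, 0, by simp, rfl⟩

lemma Tr_sh {P : Pre G} {p : P.X} {y : Path G} {n : ℤ} {q : P.X} (h : Tr P p y n q) :
    Tr P p y.sh (n - 1) (P.sh q) := by
  obtain ⟨h1, i, j, h2, h3⟩ := h
  refine ⟨by rw [P.it_sh, h1], i, j + 1, by push_cast; omega, ?_⟩
  rw [← Function.iterate_succ_apply P.sh, Function.iterate_succ_apply', h3,
    ← Function.iterate_succ_apply' P.sh]

lemma Tr_map {T S : Tot G} (f : T ⟶ S) {p : T.X} {y : Path G} {n : ℤ} {q : T.X}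
    (h : Tr T.toPre p y n q) : Tr S.toPre (Tot.Hom.f f p) y n (Tot.Hom.f f q) := by
  obtain ⟨h1, i, j, h2, h3⟩ := h
  refine ⟨by rw [Tot.Hom.it, h1], i, j, h2, ?_⟩
  rw [← hom_iter, ← hom_iter, h3]

lemma Tr_tp (T : Tot G) {p : T.X} {y : Path G} {n : ℤ} {q : T.X} (k : ℤ)
    (h : Tr T.toPre p y n q) : Tr T.toPre (tp T k p) y n (tp T k q) := Tr_map (tau T k) h

lemma Tr_trans {P : Pre G} {p q r : P.X} {y z : Path G} {m n : ℤ} (h : Tr P p y m q)
    (h' : Tr P q z n r) : Tr P p z (m + n) r := by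
  obtain ⟨h1, i, j, h2, h3⟩ := h
  obtain ⟨h1', i', j', h2', h3'⟩ := h'
  refine ⟨h1', i + i', j' + j, by push_cast; omega, ?_⟩
  rw [Function.iterate_add_apply, h3', ← Function.iterate_add_apply, add_comm i j',
    Function.iterate_add_apply, h3, ← Function.iterate_add_apply]

/-! ### Locally constant functions -/

/-- Functions depending on finitely many edges. -/
def LC (G : DG) : AddSubgroup (Path G → ℤ) where
  carrier := {F | ∃ n : ℕ, ∀ x y : Path G, (∀ i < n, x.1 i = y.1 i) → F x = F y}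
  add_mem' := by
    rintro f g ⟨n, hn⟩ ⟨m, hm⟩
    refine ⟨max n m, fun x y h => ?_⟩
    rw [Pi.add_apply, Pi.add_apply, hn x y fun i hi => h i (lt_max_of_lt_left hi),
      hm x y fun i hi => h i (lt_max_of_lt_right hi)]
  zero_mem' := ⟨0, fun _ _ _ => rfl⟩
  neg_mem' := by
    rintro f ⟨n, hn⟩
    exact ⟨n, fun x y h => by rw [Pi.neg_apply, Pi.neg_apply, hn x y h]⟩

lemma mem_LC {F : Path G → ℤ} :
    F ∈ LC G ↔ ∃ n : ℕ, ∀ x y : Path G, (∀ i < n, x.1 i = y.1 i) → F x = F y := Iff.rfl

/-- The path space. -/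
abbrev pathPre (G : DG) : Pre G where
  X := Path G
  it := id
  sh := Path.sh
  it_sh := fun _ => rfl
  ex := fun e r h => ⟨Path.cons e r h, rfl, rfl⟩
  uq := fun _ _ h h' => Path.uq h h'

lemma path_cns (e : G.E) (r : Path G) (h : r.vert = G.s e) :
    (pathPre G).cns e r h = Path.cons e r h := (pathPre G).cns_eq e r h _ rfl rfl

theorem LC_glue [Finite G.E] (F : Path G → ℤ) :
    F ∈ LC G ↔ ∀ e, (pathPre G).pull e F ∈ LC G := by
  constructor
  · rintro ⟨n, hn⟩ e
    refine ⟨n + 1, fun x y h => ?_⟩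
    have hv : x.vert = y.vert := by rw [Path.vert, Path.vert, h 0 (Nat.succ_pos n)]
    by_cases hx : x.vert = G.s e
    · have hy : y.vert = G.s e := hv ▸ hx
      rw [(pathPre G).pull_pos e F x hx, (pathPre G).pull_pos e F y hy, path_cns, path_cns]
      apply hn
      intro i hi
      cases i with
      | zero => rfl
      | succ i => exact h i (by omega)
    · have hy : y.vert ≠ G.s e := hv ▸ hx
      rw [(pathPre G).pull_neg e F x hx, (pathPre G).pull_neg e F y hy]
  · intro h
    choose n hn using h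
    have := Fintype.ofFinite G.E
    refine ⟨(Finset.univ.sup n) + 1, fun x y hxy => ?_⟩
    have h0 : x.1 0 = y.1 0 := hxy 0 (Nat.succ_pos _)
    have hx : x.sh.vert = G.s (x.1 0) := Path.vert_sh x
    have hy : y.sh.vert = G.s (x.1 0) := by rw [h0]; exact Path.vert_sh y
    have h1 := hn (x.1 0) x.sh y.sh fun i hi => hxy (i + 1) (by
      have : n (x.1 0) ≤ Finset.univ.sup n := Finset.le_sup (Finset.mem_univ _)
      omega)
    rw [(pathPre G).pull_pos _ F x.sh hx, (pathPre G).pull_pos _ F y.sh hy, path_cns,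
      path_cns] at h1
    have e1 : Path.cons (x.1 0) x.sh hx = x := Path.uq rfl rfl
    have e2 : Path.cons (x.1 0) y.sh hy = y := Path.uq h0 rfl
    rwa [e1, e2] at h1

/-! ### The terminal object -/

variable [Finite G.E]

/-- The path space as a total space. -/
def totI (G : DG) [Finite G.E] : Tot G where
  toPre := pathPre G
  τ := Equiv.refl _
  it_τ := fun _ => rfl
  sh_τ := fun _ => rfl
  adm := LC G
  one := ⟨0, fun _ _ _ => rfl⟩
  inv := fun _ h => h
  inv' := fun _ h => h
  coord := ⟨0, (LC G).zero_mem, fun _ => Or.inl rfl⟩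
  glue := LC_glue

omit [Finite G.E] in
lemma pull_it (P : Pre G) (e : G.E) (f : Path G → ℤ) :
    P.pull e (f ∘ P.it) = (pathPre G).pull e f ∘ P.it := by
  funext r
  by_cases h : (P.it r).vert = G.s e
  · have h' : ((pathPre G).it (P.it r)).vert = G.s e := h
    rw [P.pull_pos _ _ _ h, Function.comp_apply, Function.comp_apply,
      (pathPre G).pull_pos _ _ _ h', path_cns]
    congr 1
    apply Path.uq
    · rw [P.it_cns]; rfl
    · rw [← P.it_sh, P.sh_cns]; rfl
  · have h' : ((pathPre G).it (P.it r)).vert ≠ G.s e := h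
    rw [P.pull_neg _ _ _ h, Function.comp_apply, (pathPre G).pull_neg _ _ _ h']

/-- Admissibility of locally constant functions. -/
theorem LC_adm (T : Tot G) (f : Path G → ℤ) (hf : f ∈ LC G) : f ∘ T.it ∈ T.adm := by
  obtain ⟨n, hn⟩ := hf
  induction n generalizing f with
  | zero =>
    by_cases hne : Nonempty (Path G)
    · obtain ⟨x⟩ := hne
      have : f ∘ T.it = f x • (fun _ => 1) := by
        funext p
        rw [Function.comp_apply, hn (T.it p) x fun i hi => absurd hi (Nat.not_lt_zero i)]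
        simp
      rw [this]
      exact T.adm.zsmul_mem T.one _
    · have : f ∘ T.it = 0 := by
        funext p
        exact absurd ⟨T.it p⟩ hne
      rw [this]; exact T.adm.zero_mem
  | succ n ih =>
    rw [T.glue]
    intro e
    rw [pull_it]
    by_cases hn0 : n = 0
    · -- depends on the first edge only
      subst hn0
      classical
      -- the pull back is constant on the vertex
      have h1 : ∀ x y : Path G, x.vert = G.s e → y.vert = G.s e →
          (pathPre G).pull e f x = (pathPre G).pull e f y := by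
        intro x y hx hy
        rw [(pathPre G).pull_pos e f x hx, (pathPre G).pull_pos e f y hy, path_cns, path_cns]
        apply hn
        intro i hi
        have : i = 0 := by omega
        subst this; rfl
      by_cases hne : ∃ x : Path G, x.vert = G.s e
      · obtain ⟨x, hx⟩ := hne
        have h2 : (pathPre G).pull e f ∘ T.it =
            (pathPre G).pull e f x • ext0 T (G.s e) (fun _ => 1) := by
          funext p
          by_cases hp : (T.it p).vert = G.s e
          · rw [Pi.smul_apply, ext0_pos _ _ hp, Function.comp_apply, h1 _ x hp hx]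
            simp
          · rw [Pi.smul_apply, ext0_neg _ _ hp, Function.comp_apply,
              (pathPre G).pull_neg e f _ hp]
            simp
        rw [h2]
        exact T.adm.zsmul_mem (adm_local T _ T.one) _
      · have h2 : (pathPre G).pull e f ∘ T.it = 0 := by
          funext p
          rw [Function.comp_apply, (pathPre G).pull_neg e f _ fun h => hne ⟨_, h⟩]; rfl
        rw [h2]; exact T.adm.zero_mem
    · apply ih
      intro x y h
      have hv : x.vert = y.vert := by rw [Path.vert, Path.vert, h 0 (Nat.pos_of_ne_zero hn0)]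
      by_cases hx : x.vert = G.s e
      · have hy : y.vert = G.s e := hv ▸ hx
        rw [(pathPre G).pull_pos e f x hx, (pathPre G).pull_pos e f y hy, path_cns, path_cns]
        apply hn
        intro i hi
        cases i with
        | zero => rfl
        | succ i => exact h i (by omega)
      · have hy : y.vert ≠ G.s e := hv ▸ hx
        rw [(pathPre G).pull_neg e f x hx, (pathPre G).pull_neg e f y hy]

/-- The morphism to the path space. -/
def toI (T : Tot G) : T ⟶ totI G where
  f := T.it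
  it := fun _ => rfl
  sh := fun p => (T.it_sh p).symm
  eqv := fun p => T.it_τ p
  adm := fun g hg => LC_adm T g hg

/-! ### Torsors -/

/-- The torsor with edge weights `w` as a set over the path space. -/
abbrev torPre (w : G.E → ℤ) : Pre G where
  X := Path G × ℤ
  it := Prod.fst
  sh := fun p => (p.1.sh, p.2 - w (p.1.1 0))
  it_sh := fun _ => rfl
  ex := fun e r h => ⟨(Path.cons e r.1 h, r.2 + w e), rfl, by
    ext
    · rfl
    · show r.2 + w e - w e = r.2
      ring⟩
  uq := by
    rintro ⟨x, n⟩ ⟨y, m⟩ h h'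
    have h0 : x.1 0 = y.1 0 := h
    have h1 : x.sh = y.sh := congrArg Prod.fst h'
    have h2 : n - w (x.1 0) = m - w (y.1 0) := congrArg Prod.snd h'
    have h3 : x = y := Path.uq h h1
    rw [h0] at h2
    rw [h3, sub_left_injective h2]

omit [Finite G.E] in
lemma torPre_pull (w : G.E → ℤ) (F : Path G × ℤ → ℤ) (e : G.E) (n : ℤ) :
    (fun x : Path G => (torPre w).pull e F (x, n)) =
      (pathPre G).pull e (fun x => F (x, n + w e)) := by
  funext x
  by_cases h : x.vert = G.s e
  · rw [Pre.pull_pos (torPre w) e F (x, n) h, (pathPre G).pull_pos _ _ _ h, path_cns]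
    congr 1
    apply Pre.cns_eq
    · rfl
    · ext
      · rfl
      · show n + w e - w e = n
        ring
  · rw [Pre.pull_neg (torPre w) e F (x, n) h, (pathPre G).pull_neg _ _ _ h]

/-- The torsor with edge weights `w`. -/
abbrev totT (w : G.E → ℤ) : Tot G where
  toPre := torPre w
  τ := (Equiv.refl _).prodCongr (Equiv.addRight 1)
  it_τ := fun _ => rfl
  sh_τ := fun p => by
    ext
    · rfl
    · show p.2 + 1 - w (p.1.1 0) = p.2 - w (p.1.1 0) + 1
      ring
  adm :=
    { carrier := {F | ∀ n, (fun x => F (x, n)) ∈ LC G}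
      add_mem' := fun hf hg n => (LC G).add_mem (hf n) (hg n)
      zero_mem' := fun n => (LC G).zero_mem
      neg_mem' := fun hf n => (LC G).neg_mem (hf n) }
  one := fun n => ⟨0, fun _ _ _ => rfl⟩
  inv := fun f hf n => hf (n + 1)
  inv' := fun f hf n => hf (n + -1)
  coord := ⟨fun p => p.2, fun n => ⟨0, fun _ _ _ => rfl⟩, fun p => Or.inr rfl⟩
  glue := by
    intro F
    constructor
    · intro hF e n
      rw [torPre_pull]
      exact (LC_glue _).1 (hF _) e
    · intro hF n
      rw [LC_glue]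
      intro e
      have := hF e (n - w e)
      rw [torPre_pull, sub_add_cancel] at this
      exact this

lemma totT_tp (w : G.E → ℤ) (k : ℤ) (p : (totT w).X) :
    tp (totT w) k p = (p.1, p.2 + k) := by
  refine tp_ind (totT w) (fun k => tp (totT w) k p = (p.1, p.2 + k)) ?_ ?_ ?_ k
  · rw [tp_zero, add_zero]
  · intro k h; rw [tp_succ, h]
    show (p.1, p.2 + k + 1) = (p.1, p.2 + (k + 1))
    rw [add_assoc]
  · intro k h; rw [tp_pred, h]
    show (p.1, p.2 + k + -1) = (p.1, p.2 + (k - 1))
    rw [add_assoc]; rfl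

end Pool.Agent.X221.PS
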