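import Mathlib
import Pool.Agent.X221.PS.Obj

/-!
# Point objects and the centre
-/

namespace Pool.Agent.X221.PS

open CategoryTheory

variable {G : DG}

lemma Rel_refl (x : Path G) : Rel x x 0 := ⟨0, 0, by simp, rfl⟩

/-- The free orbit of a path. -/
abbrev ptPre (x : Path G) : Pre G where
  X := {z : Path G × ℤ × ℤ // Rel x z.1 z.2.1}
  it := fun z => z.1.1
  sh := fun z => ⟨(z.1.1.sh, z.1.2.1 - 1, z.1.2.2), by
    obtain ⟨i, j, h1, h2⟩ := z.2
    refine ⟨i, j + 1, by push_cast; omega, ?_⟩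
    rw [← Function.iterate_succ_apply Path.sh, Function.iterate_succ_apply', h2,
      ← Function.iterate_succ_apply' Path.sh]⟩
  it_sh := fun _ => rfl
  ex := by
    rintro e ⟨⟨y, n, k⟩, i, j, h1, h2⟩ h
    have h1' : (i : ℤ) - j = n := h1
    refine ⟨⟨(Path.cons e y h, n + 1, k), i + 1, j, by push_cast; omega, h2⟩, rfl, ?_⟩
    apply Subtype.ext
    show (y, n + 1 - 1, k) = (y, n, k)
    rw [add_sub_cancel_right]
  uq := by
    rintro ⟨⟨y, n, k⟩, hz⟩ ⟨⟨y', n', k'⟩, hz'⟩ h h'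
    have h1 := congrArg Subtype.val h'
    simp only [Prod.mk.injEq] at h1
    obtain ⟨h1, h2, h3⟩ := h1
    have h4 : y = y' := Path.uq h h1
    have h5 : n = n' := by omega
    subst h4 h5 h3
    rfl

/-- The free orbit of a path. -/
abbrev ptObj (x : Path G) : Tot G where
  toPre := ptPre x
  τ :=
    { toFun := fun z => ⟨(z.1.1, z.1.2.1, z.1.2.2 + 1), z.2⟩
      invFun := fun z => ⟨(z.1.1, z.1.2.1, z.1.2.2 - 1), z.2⟩
      left_inv := by
        rintro ⟨⟨y, n, k⟩, hz⟩
        apply Subtype.ext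
        show (y, n, k + 1 - 1) = (y, n, k)
        rw [add_sub_cancel_right]
      right_inv := by
        rintro ⟨⟨y, n, k⟩, hz⟩
        apply Subtype.ext
        show (y, n, k - 1 + 1) = (y, n, k)
        rw [sub_add_cancel] }
  it_τ := fun _ => rfl
  sh_τ := fun _ => rfl
  adm := ⊤
  one := AddSubgroup.mem_top _
  inv := fun _ _ => AddSubgroup.mem_top _
  inv' := fun _ _ => AddSubgroup.mem_top _
  coord := ⟨fun z => z.1.2.2, AddSubgroup.mem_top _, fun _ => Or.inr rfl⟩
  glue := fun _ => ⟨fun _ _ => AddSubgroup.mem_top _, fun _ => AddSubgroup.mem_top _⟩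

/-- The base point. -/
def base (x : Path G) : (ptObj x).X := ⟨(x, 0, 0), Rel_refl x⟩

lemma pt_tp (x : Path G) (k : ℤ) (z : (ptObj x).X) :
    tp (ptObj x) k z = ⟨(z.1.1, z.1.2.1, z.1.2.2 + k), z.2⟩ := by
  refine tp_ind (ptObj x) (fun k => tp (ptObj x) k z =
    ⟨(z.1.1, z.1.2.1, z.1.2.2 + k), z.2⟩) ?_ ?_ ?_ k
  · rw [tp_zero]
    apply Subtype.ext
    show z.1 = (z.1.1, z.1.2.1, z.1.2.2 + 0)
    rw [add_zero]
  · intro k h
    rw [tp_succ, h]
    apply Subtype.ext
    show (z.1.1, z.1.2.1, z.1.2.2 + k + 1) = (z.1.1, z.1.2.1, z.1.2.2 + (k + 1))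
    rw [add_assoc]
  · intro k h
    rw [tp_pred, h]
    apply Subtype.ext
    show (z.1.1, z.1.2.1, z.1.2.2 + k - 1) = (z.1.1, z.1.2.1, z.1.2.2 + (k - 1))
    rw [add_sub_assoc]

lemma pt_iter (x : Path G) (i : ℕ) (z : (ptObj x).X) :
    ((ptObj x).sh^[i] z).1 = (Path.sh^[i] z.1.1, z.1.2.1 - i, z.1.2.2) := by
  induction i generalizing z with
  | zero => simp
  | succ i ih =>
    rw [Function.iterate_succ_apply, ih, Function.iterate_succ_apply]
    show (Path.sh^[i] z.1.1.sh, z.1.2.1 - 1 - i, z.1.2.2) = _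
    push_cast
    rw [sub_sub, add_comm (1 : ℤ)]

/-- The points of the free orbit are transported from the base point. -/
lemma pt_tr (x y : Path G) (n : ℤ) (h : Rel x y n) :
    Tr (ptPre x) (base x) y n (⟨(y, n, 0), h⟩ : (ptObj x).X) := by
  refine ⟨rfl, ?_⟩
  have h' := h
  obtain ⟨i, j, h1, h2⟩ := h'
  refine ⟨i, j, h1, ?_⟩
  apply Subtype.ext
  have e1 := pt_iter x i (⟨(y, n, 0), h⟩ : (ptObj x).X)
  have e2 := pt_iter x j (base x)
  refine e1.trans (Eq.trans ?_ e2.symm)
  show (Path.sh^[i] y, n - i, (0 : ℤ)) = (Path.sh^[j] x, 0 - (j : ℤ), 0)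
  rw [h2, ← h1]
  congr 2
  ring

variable {T : Tot G}

/-- The transported point. -/
noncomputable def trp (T : Tot G) {x : Path G} (p : T.X) (hx : T.it p = x) (z : (ptObj x).X) :
    T.X := (Tr_ex T.toPre p z.1.1 z.1.2.1 (by rw [hx]; exact z.2)).choose

lemma trp_spec (T : Tot G) {x : Path G} (p : T.X) (hx : T.it p = x) (z : (ptObj x).X) :
    Tr T.toPre p z.1.1 z.1.2.1 (trp T p hx z) :=
  (Tr_ex T.toPre p z.1.1 z.1.2.1 (by rw [hx]; exact z.2)).choose_spec

lemma trp_eq (T : Tot G) {x : Path G} (p : T.X) (hx : T.it p = x) (z : (ptObj x).X) (q : T.X)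
    (hq : Tr T.toPre p z.1.1 z.1.2.1 q) : trp T p hx z = q :=
  Tr_uq _ _ _ _ _ _ (trp_spec T p hx z) hq

/-- The morphism from the free orbit given by a point. -/
noncomputable def ptHom (T : Tot G) {x : Path G} (p : T.X) (hx : T.it p = x) : ptObj x ⟶ T where
  f := fun z => tp T z.1.2.2 (trp T p hx z)
  it := fun z => by rw [it_tp, (trp_spec T p hx z).1]
  sh := fun z => by
    rw [sh_tp]
    congr 1
    exact (trp_eq T p hx _ _ (Tr_sh (trp_spec T p hx z))).symm
  eqv := fun z => by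
    have h1 : trp T p hx ((ptObj x).τ z) = trp T p hx z :=
      trp_eq T p hx _ _ (trp_spec T p hx z)
    rw [h1]
    exact tp_succ T _ _
  adm := fun _ _ => AddSubgroup.mem_top _

lemma ptHom_base (T : Tot G) {x : Path G} (p : T.X) (hx : T.it p = x) :
    Tot.Hom.f (ptHom T p hx) (base x) = p := by
  have h1 : trp T p hx (base x) = p := trp_eq T p hx _ _ (by
    have := Tr_refl T.toPre p
    rw [hx] at this
    exact this)
  show tp T 0 (trp T p hx (base x)) = p
  rw [h1, tp_zero]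

lemma it_base {x : Path G} (u : ptObj x ⟶ T) : T.it (Tot.Hom.f u (base x)) = x :=
  Tot.Hom.it u (base x)

/-- Values of a morphism from a free orbit. -/
lemma pt_value {x : Path G} (u : ptObj x ⟶ T) (y : Path G) (n k : ℤ) (h : Rel x y n) :
    ∃ q, Tr T.toPre (Tot.Hom.f u (base x)) y n q ∧
      Tot.Hom.f u (⟨(y, n, k), h⟩ : (ptObj x).X) = tp T k q := by
  refine ⟨Tot.Hom.f u (⟨(y, n, 0), h⟩ : (ptObj x).X), Tr_map u (pt_tr x y n h), ?_⟩
  rw [← hom_tp, pt_tp]
  congr 1
  apply Subtype.ext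
  show (y, n, k) = (y, n, 0 + k)
  rw [zero_add]

lemma pt_ext {x : Path G} (u u' : ptObj x ⟶ T)
    (h : Tot.Hom.f u (base x) = Tot.Hom.f u' (base x)) : u = u' := by
  apply Tot.hom_ext
  rintro ⟨⟨y, n, k⟩, hz⟩
  obtain ⟨q, hq, e⟩ := pt_value u y n k hz
  obtain ⟨q', hq', e'⟩ := pt_value u' y n k hz
  rw [h] at hq
  rw [e, e', Tr_uq _ _ _ _ _ _ hq hq']

/-! ### The centre -/

/-- Partial sums of the weights. -/
def psum (w : G.E → ℤ) (x : Path G) (i : ℕ) : ℤ := ∑ l ∈ Finset.range i, w (x.1 l)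

lemma torT_iter (w : G.E → ℤ) (i : ℕ) (p : (torPre w).X) :
    (torPre w).sh^[i] p = (Path.sh^[i] p.1, p.2 - psum w p.1 i) := by
  induction i generalizing p with
  | zero => simp [psum]
  | succ i ih =>
    rw [Function.iterate_succ_apply, ih, Function.iterate_succ_apply]
    show (Path.sh^[i] p.1.sh, p.2 - w (p.1.1 0) - psum w p.1.sh i) = _
    congr 1
    rw [psum, psum, Finset.sum_range_succ', sub_sub]
    congr 1
    rw [add_comm]
    rfl

/-- Any path can be continued to any other path. -/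
def Conn (G : DG) : Prop := ∀ (x y : Path G) (n : ℕ), ∃ (z : Path G) (N : ℕ),
  (∀ i < n, z.1 i = x.1 i) ∧ Path.sh^[N] z = y

/-- There are two paths which are separated by an edge. -/
def Sep (G : DG) : Prop := ∃ (e : G.E) (y y' : Path G), (∀ i, y.1 i ≠ e) ∧
  ∀ N, ∃ i, N ≤ i ∧ y'.1 i = e

variable [Finite G.E]

theorem center_tor (hG : Conn G) (x0 : Path G) (w : G.E → ℤ) (φ : totT w ⟶ totT w) :
    ∃ k : ℤ, ∀ p, Tot.Hom.f φ p = tp (totT w) k p := by
  let b : Path G → ℤ := fun x => (Tot.Hom.f φ ((x, 0) : (totT w).X)).2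
  have h1 : ∀ x, Tot.Hom.f φ ((x, 0) : (totT w).X) = (x, b x) := by
    intro x
    have : (Tot.Hom.f φ ((x, 0) : (totT w).X)).1 = x := Tot.Hom.it φ ((x, 0) : (totT w).X)
    exact Prod.ext this rfl
  have h2 : ∀ x n, Tot.Hom.f φ ((x, n) : (totT w).X) = (x, b x + n) := by
    intro x n
    have e1 : ((x, n) : (totT w).X) = tp (totT w) n ((x, 0) : (totT w).X) := by
      rw [totT_tp]
      show (x, n) = (x, 0 + n)
      rw [zero_add]
    rw [e1, hom_tp, h1, totT_tp]
  have hb : b ∈ LC G := by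
    have : (fun p : (totT w).X => p.2) ∈ (totT w).adm := fun n => ⟨0, fun _ _ _ => rfl⟩
    exact Tot.Hom.adm φ _ this 0
  have hsh : ∀ x : Path G, b x.sh = b x := by
    intro x
    have e1 := Tot.Hom.sh φ ((x, 0) : (totT w).X)
    have e2 : (torPre w).sh ((x, b x) : (totT w).X) =
        Tot.Hom.f φ ((x.sh, 0 - w (x.1 0)) : (totT w).X) := by
      rw [← h1]; exact e1
    rw [h2] at e2
    have e3 := congrArg Prod.snd e2
    change b x - w (x.1 0) = b x.sh + (0 - w (x.1 0)) at e3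
    linarith
  have hiter : ∀ N (x : Path G), b (Path.sh^[N] x) = b x := by
    intro N
    induction N with
    | zero => intro x; rfl
    | succ N ih => intro x; rw [Function.iterate_succ_apply, ih, hsh]
  obtain ⟨n, hn⟩ := hb
  have hconst : ∀ x, b x = b x0 := by
    intro x
    obtain ⟨z, N, hz1, hz2⟩ := hG x x0 n
    rw [← hn z x hz1, ← hz2, hiter]
  refine ⟨b x0, ?_⟩
  rintro ⟨x, n⟩
  rw [h2, totT_tp, hconst x]
  show (x, b x0 + n) = (x, n + b x0)
  rw [add_comm]

theorem center (hG : Conn G) (hS : Sep G) (β : (T : Tot G) → (T ⟶ T))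
    (hβ : ∀ (T S : Tot G) (f : T ⟶ S), β T ≫ f = f ≫ β S) : ∃ k : ℤ, ∀ T, β T = tau T k := by
  classical
  obtain ⟨e', y1, y2, hy1, hy2⟩ := hS
  choose k hk using fun w : G.E → ℤ => center_tor hG y1 w (β (totT w))
  -- the values on the base points
  have hbase : ∀ x : Path G, ∃ (m c : ℤ) (h : Rel x x m),
      Tot.Hom.f (β (ptObj x)) (base x) = (⟨(x, m, c), h⟩ : (ptObj x).X) := by
    intro x
    have h1 : (Tot.Hom.f (β (ptObj x)) (base x)).1.1 = x := it_base (β (ptObj x))
    generalize Tot.Hom.f (β (ptObj x)) (base x) = z at h1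
    obtain ⟨⟨y, m, c⟩, h⟩ := z
    dsimp only at h1
    subst h1
    exact ⟨m, c, h, rfl⟩
  choose m c hm hmc using hbase
  -- comparison with the torsors
  have hcmp : ∀ (x : Path G) (w : G.E → ℤ), ∃ i j : ℕ, (i : ℤ) - j = m x ∧
      Path.sh^[i] x = Path.sh^[j] x ∧ c x + (psum w x i - psum w x j) = k w := by
    intro x w
    let u := ptHom (totT w) (x := x) ((x, 0) : (totT w).X) rfl
    have h1 := congrArg (fun v => Tot.Hom.f v (base x)) (hβ _ _ u)
    have h2 : Tot.Hom.f u (Tot.Hom.f (β (ptObj x)) (base x)) =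
        Tot.Hom.f (β (totT w)) (Tot.Hom.f u (base x)) := h1
    rw [hmc, ptHom_base, hk] at h2
    obtain ⟨q, hq, e⟩ := pt_value u x (m x) (c x) (hm x)
    rw [ptHom_base] at hq
    rw [e, totT_tp, totT_tp] at h2
    obtain ⟨hq1, i, j, hij, hq2⟩ := hq
    rw [torT_iter, torT_iter] at hq2
    have e1 : q.2 + c x = 0 + k w := congrArg Prod.snd h2
    have e2 : Path.sh^[i] q.1 = Path.sh^[j] x := congrArg Prod.fst hq2
    have e3 : q.2 - psum w q.1 i = 0 - psum w x j := congrArg Prod.snd hq2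
    have e4 : q.1 = x := hq1
    rw [e4] at e2 e3
    refine ⟨i, j, hij, e2, ?_⟩
    linarith
  -- weight zero
  have hc : ∀ x, c x = k 0 := by
    intro x
    obtain ⟨i, j, _, _, h⟩ := hcmp x 0
    have e : ∀ i, psum (0 : G.E → ℤ) x i = 0 := fun i => by simp [psum]
    rw [e, e] at h
    linarith
  -- weight one
  have hmx : ∀ x, m x = k 1 - k 0 := by
    intro x
    obtain ⟨i, j, h0, _, h⟩ := hcmp x 1
    have e : ∀ i, psum (1 : G.E → ℤ) x i = i := fun i => by simp [psum]
    rw [e, e, hc] at h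
    linarith
  -- the weight of the separating edge
  let w : G.E → ℤ := fun e => if e = e' then 1 else 0
  have hkw : k w = k 0 := by
    obtain ⟨i, j, _, _, h⟩ := hcmp y1 w
    have e : ∀ i, psum w y1 i = 0 := fun i => Finset.sum_eq_zero fun l _ => if_neg (hy1 l)
    rw [e, e, hc] at h
    linarith
  have hm0 : k 1 - k 0 = 0 := by
    by_contra hne
    obtain ⟨i, j, h0, hij, h⟩ := hcmp y2 w
    rw [hkw, hc] at h
    have h1 : psum w y2 i = psum w y2 j := by linarith
    have hne' : i ≠ j := by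
      rintro rfl
      rw [hmx, sub_self] at h0
      exact hne h0.symm
    -- symmetric statement
    have key : ∀ i j : ℕ, i < j → Path.sh^[i] y2 = Path.sh^[j] y2 →
        psum w y2 i = psum w y2 j → False := by
      intro i j hlt hs hp
      have hper : ∀ l, y2.1 (l + i) = y2.1 (l + j) := by
        intro l
        rw [← iter_apply, ← iter_apply, hs]
      have hex : ∃ L, i ≤ L ∧ y2.1 L = e' := hy2 i
      have hmin := Nat.find_spec hex
      have hmin' := fun L hL => Nat.find_min hex (m := L) hL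
      set L := Nat.find hex with hL
      have hLj : L < j := by
        by_contra hge
        have h2 := hper (L - j)
        rw [Nat.sub_add_cancel (by omega)] at h2
        exact hmin' (L - j + i) (by omega) ⟨by omega, h2.trans hmin.2⟩
      have h3 : psum w y2 i + ∑ l ∈ Finset.Ico i j, w (y2.1 l) = psum w y2 j :=
        Finset.sum_range_add_sum_Ico _ hlt.le
      have h4 : ∑ l ∈ Finset.Ico i j, w (y2.1 l) = 0 := by linarith
      have h5 : ∀ l ∈ Finset.Ico i j, 0 ≤ w (y2.1 l) := fun l _ => by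
        dsimp only [w]
        split_ifs <;> norm_num
      have h6 := (Finset.sum_eq_zero_iff_of_nonneg h5).1 h4 L (Finset.mem_Ico.2 ⟨hmin.1, hLj⟩)
      have h7 : w (y2.1 L) = 1 := if_pos hmin.2
      rw [h7] at h6
      exact one_ne_zero h6
    rcases lt_or_gt_of_ne hne' with hlt | hlt
    · exact key i j hlt hij h1
    · exact key j i hlt hij.symm h1.symm
  refine ⟨k 0, fun T => Tot.hom_ext fun p => ?_⟩
  let x := T.it p
  let u := ptHom T (x := x) p rfl
  have h1 := congrArg (fun v => Tot.Hom.f v (base x)) (hβ _ _ u)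
  have h2 : Tot.Hom.f u (Tot.Hom.f (β (ptObj x)) (base x)) =
      Tot.Hom.f (β T) (Tot.Hom.f u (base x)) := h1
  rw [hmc, ptHom_base] at h2
  obtain ⟨q, hq, e⟩ := pt_value u x (m x) (c x) (hm x)
  rw [ptHom_base] at hq
  rw [e] at h2
  have hmx0 : m x = 0 := by rw [hmx, hm0]
  rw [hmx0] at hq
  have h3 : q = p := Tr_uq _ _ _ _ _ _ hq (Tr_refl T.toPre p)
  rw [h3, hc] at h2
  exact h2.symm

end Pool.Agent.X221.PS
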