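import Mathlib
import Pool.Agent.X221.PS.Pt

/-!
# A categorical characterisation of the free orbits
-/

namespace Pool.Agent.X221.PS

open CategoryTheory

/-- Objects which do not map to all objects. -/
def NE {𝒞 : Type 1} [Category.{0} 𝒞] (D : 𝒞) : Prop := ∃ E : 𝒞, IsEmpty (D ⟶ E)

/-- Objects onto which all morphisms from objects as above split. -/
def IsPt {𝒞 : Type 1} [Category.{0} 𝒞] (R : 𝒞) : Prop :=
  NE R ∧ ∀ (D : 𝒞) (d : D ⟶ R), NE D → ∃ s : R ⟶ D, s ≫ d = 𝟙 R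

section

variable {𝒞 𝒟 : Type 1} [Category.{0} 𝒞] [Category.{0} 𝒟]

lemma NE_map (F : 𝒞 ⥤ 𝒟) [F.IsEquivalence] {D : 𝒞} (h : NE D) : NE (F.obj D) := by
  obtain ⟨E, hE⟩ := h
  exact ⟨F.obj E, ⟨fun f => hE.false (F.preimage f)⟩⟩

lemma NE_iso {D D' : 𝒞} (i : D ≅ D') (h : NE D) : NE D' := by
  obtain ⟨E, hE⟩ := h
  exact ⟨E, ⟨fun f => hE.false (i.hom ≫ f)⟩⟩

lemma NE_map_iff (F : 𝒞 ⥤ 𝒟) [F.IsEquivalence] {D : 𝒞} : NE (F.obj D) ↔ NE D :=
  ⟨fun h => NE_iso (F.asEquivalence.unitIso.app D).symm (NE_map F.inv h), NE_map F⟩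

lemma IsPt_iso {D D' : 𝒞} (i : D ≅ D') (h : IsPt D) : IsPt D' := by
  refine ⟨NE_iso i h.1, fun E d hE => ?_⟩
  obtain ⟨s, hs⟩ := h.2 E (d ≫ i.inv) hE
  refine ⟨i.inv ≫ s, ?_⟩
  have : s ≫ d = i.hom := by
    have h1 := congrArg (fun u => u ≫ i.hom) hs
    simp only [Category.assoc, Iso.inv_hom_id, Category.comp_id, Category.id_comp] at h1
    exact h1
  rw [Category.assoc, this, Iso.inv_hom_id]

lemma IsPt_map (F : 𝒞 ⥤ 𝒟) [F.IsEquivalence] {R : 𝒞} (h : IsPt R) : IsPt (F.obj R) := by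
  refine ⟨NE_map F h.1, fun D d hD => ?_⟩
  let D0 := F.objPreimage D
  let i : F.obj D0 ≅ D := F.objObjPreimageIso D
  obtain ⟨s, hs⟩ := h.2 D0 (F.preimage (i.hom ≫ d))
    ((NE_map_iff F).1 (NE_iso i.symm hD))
  refine ⟨F.map s ≫ i.hom, ?_⟩
  have h1 := congrArg F.map hs
  rw [F.map_comp, F.map_preimage, F.map_id] at h1
  rw [Category.assoc]; exact h1

/-- All objects as above are isomorphic. -/
def AllPt (𝒞 : Type 1) [Category.{0} 𝒞] : Prop :=
  ∀ R R' : 𝒞, IsPt R → IsPt R' → Nonempty (R ≅ R')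

lemma AllPt_of (F : 𝒞 ⥤ 𝒟) [F.IsEquivalence] (h : AllPt 𝒟) : AllPt 𝒞 := by
  intro R R' hR hR'
  obtain ⟨i⟩ := h _ _ (IsPt_map F hR) (IsPt_map F hR')
  exact ⟨F.preimageIso i⟩

end

variable {G : DG}

/-- The empty total space. -/
def totE (G : DG) : Tot G where
  X := Empty
  it := Empty.elim
  sh := Empty.elim
  it_sh := fun p => p.elim
  ex := fun _ r => r.elim
  uq := fun p => p.elim
  τ := Equiv.refl _
  it_τ := fun p => p.elim
  sh_τ := fun p => p.elim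
  adm := ⊤
  one := AddSubgroup.mem_top _
  inv := fun _ _ => AddSubgroup.mem_top _
  inv' := fun _ _ => AddSubgroup.mem_top _
  coord := ⟨0, AddSubgroup.mem_top _, fun p => p.elim⟩
  glue := fun _ => ⟨fun _ _ => AddSubgroup.mem_top _, fun _ => AddSubgroup.mem_top _⟩

lemma NE_iff (T : Tot G) : NE T ↔ Nonempty T.X := by
  constructor
  · rintro ⟨E, hE⟩
    by_contra hne
    rw [not_nonempty_iff] at hne
    apply hE.false
    exact
      { f := fun p => hne.elim p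
        it := fun p => hne.elim p
        sh := fun p => hne.elim p
        eqv := fun p => hne.elim p
        adm := fun g _ => by
          have : (g ∘ fun p => hne.elim p : T.X → ℤ) = 0 := funext fun p => hne.elim p
          rw [this]; exact T.adm.zero_mem }
  · rintro ⟨p⟩
    exact ⟨totE G, ⟨fun f => (Tot.Hom.f f p : Empty).elim⟩⟩

lemma isPt_ptObj (x : Path G) : IsPt (ptObj x) := by
  refine ⟨(NE_iff _).2 ⟨base x⟩, fun D d hD => ?_⟩
  obtain ⟨p⟩ := (NE_iff _).1 hD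
  -- move `p` to the base point
  obtain ⟨q, hq⟩ : ∃ q, Tot.Hom.f d q = base x := by
    have hd : ∀ z : (ptObj x).X, Tot.Hom.f d p = z → ∃ q, Tot.Hom.f d q = base x := by
      rintro ⟨⟨y, n, k⟩, hz⟩ h
      have hz' : Rel x y n := hz
      have hp : D.it p = y := by rw [← Tot.Hom.it d p, h]
      have hr : Rel (D.it p) x (-n) := by
        obtain ⟨i, j, h1, h2⟩ := hz'
        exact ⟨j, i, by omega, by rw [hp, h2]⟩
      obtain ⟨q, hq⟩ := Tr_ex D.toPre p x (-n) hr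
      refine ⟨tp D (-k) q, ?_⟩
      have h1 := Tr_map d hq
      rw [h] at h1
      have h2 : Tr (ptPre x) (⟨(y, n, k), hz⟩ : (ptObj x).X) x (-n)
          (⟨(x, 0, k), Rel_refl x⟩ : (ptObj x).X) := by
        obtain ⟨i, j, h3, h4⟩ := hz'
        refine ⟨rfl, j, i, by omega, ?_⟩
        apply Subtype.ext
        refine (pt_iter x j _).trans (Eq.trans ?_ (pt_iter x i _).symm)
        show (Path.sh^[j] x, (0 : ℤ) - j, k) = (Path.sh^[i] y, n - i, k)
        rw [h4, ← h3]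
        congr 2
        ring
      have h5 := Tr_uq _ _ _ _ _ _ h1 h2
      rw [hom_tp, h5, pt_tp]
      apply Subtype.ext
      show (x, (0 : ℤ), k + -k) = (x, 0, 0)
      rw [add_neg_cancel]
    exact hd _ rfl
  have hqx : D.it q = x := by rw [← Tot.Hom.it d q, hq]; rfl
  refine ⟨ptHom D q hqx, pt_ext _ _ ?_⟩
  rw [Tot.comp_f, ptHom_base, hq]; rfl

lemma exists_pt (T : Tot G) (hT : IsPt T) : ∃ x : Path G, Nonempty (T ≅ ptObj x) := by
  obtain ⟨p⟩ := (NE_iff _).1 hT.1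
  refine ⟨T.it p, ?_⟩
  obtain ⟨s, hs⟩ := hT.2 _ (ptHom T p rfl) ((NE_iff _).2 ⟨base _⟩)
  obtain ⟨s', hs'⟩ := (isPt_ptObj (T.it p)).2 _ s hT.1
  have h : s' = ptHom T p rfl := by
    have := congrArg (fun u => u ≫ ptHom T p rfl) hs'
    simp only [Category.assoc, hs, Category.comp_id, Category.id_comp] at this
    exact this
  rw [h] at hs'
  exact ⟨⟨s, ptHom T p rfl, hs, hs'⟩⟩

lemma pt_iso_iff (x x' : Path G) : Nonempty (ptObj x ≅ ptObj x') ↔ ∃ n, Rel x x' n := by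
  constructor
  · rintro ⟨i⟩
    have h1 : (Tot.Hom.f i.inv (base x')).1.1 = x' := Tot.Hom.it i.inv (base x')
    refine ⟨(Tot.Hom.f i.inv (base x')).1.2.1, ?_⟩
    have h2 := (Tot.Hom.f i.inv (base x')).2
    rw [h1] at h2
    exact h2
  · rintro ⟨n, hn⟩
    have hi : Rel x' x (-n) := by
      obtain ⟨i, j, h1, h2⟩ := hn
      exact ⟨j, i, by omega, h2.symm⟩
    let f : ptObj x' ⟶ ptObj x := ptHom (ptObj x) (x := x') (⟨(x', n, 0), hn⟩ : (ptObj x).X) rfl
    let g : ptObj x ⟶ ptObj x' := ptHom (ptObj x') (x := x) (⟨(x, -n, 0), hi⟩ : (ptObj x').X) rfl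
    obtain ⟨s, hs⟩ := (isPt_ptObj x).2 _ f ((NE_iff _).2 ⟨base _⟩)
    obtain ⟨s', hs'⟩ := (isPt_ptObj x').2 _ s ((NE_iff _).2 ⟨base _⟩)
    have h : s' = f := by
      have := congrArg (fun u => u ≫ f) hs'
      simp only [Category.assoc, hs, Category.comp_id, Category.id_comp] at this
      exact this
    rw [h] at hs'
    exact ⟨⟨s, f, hs, hs'⟩⟩

end Pool.Agent.X221.PS
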