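import Mathlib
import Pool.Agent.X221.PS.IsPt
import Pool.Agent.X221.PS.Bsum

/-!
# The cocycle of an equivalence
-/

namespace Pool.Agent.X221.PS

open CategoryTheory

variable {G H : DG} [Finite G.E] [Finite H.E] (F : Tot G ⥤ Tot H) [F.IsEquivalence]

omit [Finite H.E] in
lemma center_map (hG : Conn G) (hSG : Sep G) :
    ∃ k : ℤ, ∀ T, F.map (tau T k) = tau (F.obj T) 1 := by
  obtain ⟨k, hk⟩ := center hG hSG (fun T => F.preimage (tau (F.obj T) 1)) (fun T S f => by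
    apply F.map_injective
    rw [F.map_comp, F.map_comp, F.map_preimage, F.map_preimage, tau_nat])
  exact ⟨k, fun T => by rw [← hk, F.map_preimage]⟩

omit [Finite H.E] [Finite G.E] [F.IsEquivalence] in
lemma center_pow {k : ℤ} (hk : ∀ T, F.map (tau T k) = tau (F.obj T) 1) (j : ℤ) :
    ∀ T, F.map (tau T (k * j)) = tau (F.obj T) j := by
  intro T
  induction j using Int.induction_on with
  | zero => rw [mul_zero, tau_zero, tau_zero, F.map_id]
  | succ n ih =>
    rw [mul_add, mul_one, tau_add, F.map_comp, hk, tau_add, ← tau_nat, ih]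
    exact tau_nat _ 1
  | pred n ih =>
    have h1 : F.map (tau T (k * (-(n : ℤ) - 1))) ≫ tau (F.obj T) 1 = tau (F.obj T) (-(n : ℤ)) := by
      rw [← hk, ← F.map_comp, ← tau_add, ← ih]
      congr 2
      ring
    have h2 := congrArg (fun u => u ≫ tau (F.obj T) (-1)) h1
    simp only [Category.assoc] at h2
    rw [← tau_add, ← tau_add, neg_add_cancel, tau_zero, Category.comp_id] at h2
    rw [h2]
    congr 1
    ring

theorem kappa (hG : Conn G) (hSG : Sep G) (hH : Conn H) (hSH : Sep H) :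
    ∃ κ : ℤ, κ * κ = 1 ∧ ∀ T j, F.map (tau T j) = tau (F.obj T) (κ * j) := by
  obtain ⟨k, hk⟩ := center_map F hG hSG
  obtain ⟨k', hk'⟩ := center_map F.inv hH hSH
  have e1 := center_pow F hk
  have e2 := center_pow F.inv hk'
  obtain ⟨_, y, _⟩ := id hSH
  let S : Tot H := totT 0
  let ε : F.obj (F.inv.obj S) ≅ S := F.asEquivalence.counitIso.app S
  have h1 : F.map (F.inv.map (tau S (k' * k))) = tau (F.obj (F.inv.obj S)) 1 := by
    rw [e2, hk]
  have h2 : F.map (F.inv.map (tau S (k' * k))) ≫ ε.hom = ε.hom ≫ tau S (k' * k) :=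
    F.asEquivalence.counitIso.hom.naturality (tau S (k' * k))
  rw [h1, tau_nat] at h2
  have h3 : tau S 1 = tau S (k' * k) := (cancel_epi ε.hom).1 h2
  have h4 := congrArg (fun u => Tot.Hom.f u ((y, 0) : S.X)) h3
  have h5 : tp S 1 ((y, 0) : S.X) = tp S (k' * k) ((y, 0) : S.X) := h4
  rw [totT_tp, totT_tp] at h5
  have h6 : (0 : ℤ) + 1 = 0 + k' * k := congrArg Prod.snd h5
  have h7 : k * k' = 1 := by linarith
  have h8 : k * k = 1 := by
    rcases Int.eq_one_or_neg_one_of_mul_eq_one h7 with h | h <;> rw [h] <;> norm_num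
  refine ⟨k, h8, fun T j => ?_⟩
  rw [← e1, ← mul_assoc, h8, one_mul]

/-! ### The quotient by the automorphism -/

/-- The path space with the functions which are admissible on `A`. -/
abbrev totZ (A : Tot G) : Tot G where
  toPre := pathPre G
  τ := Equiv.refl _
  it_τ := fun _ => rfl
  sh_τ := fun _ => rfl
  adm :=
    { carrier := {f | f ∘ A.it ∈ A.adm}
      add_mem' := fun hf hg => A.adm.add_mem hf hg
      zero_mem' := A.adm.zero_mem
      neg_mem' := fun hf => A.adm.neg_mem hf }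
  one := A.one
  inv := fun _ h => h
  inv' := fun _ h => h
  coord := ⟨0, A.adm.zero_mem, fun _ => Or.inl rfl⟩
  glue := fun f => by
    show f ∘ A.it ∈ A.adm ↔ ∀ e, (pathPre G).pull e f ∘ A.it ∈ A.adm
    rw [A.glue]
    simp only [pull_it]

/-- The quotient map. -/
def toZ (A : Tot G) : A ⟶ totZ A where
  f := A.it
  it := fun _ => rfl
  sh := fun p => (A.it_sh p).symm
  eqv := fun p => A.it_τ p
  adm := fun _ hg => hg

lemma inv_factor (w : H.E → ℤ) (S : Tot H) (φ : totT w ⟶ S) (hφ : tau (totT w) 1 ≫ φ = φ) :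
    Nonempty (totI H ⟶ S) := by
  have h1 : ∀ p, Tot.Hom.f φ ((totT w).τ p) = Tot.Hom.f φ p := by
    intro p
    have := congrArg (fun u => Tot.Hom.f u p) hφ
    have h2 : Tot.Hom.f φ (tp (totT w) 1 p) = Tot.Hom.f φ p := this
    rwa [tp_one] at h2
  have h2 : ∀ k p, Tot.Hom.f φ (tp (totT w) k p) = Tot.Hom.f φ p := by
    intro k p
    refine tp_ind (totT w) (fun k => Tot.Hom.f φ (tp (totT w) k p) = Tot.Hom.f φ p) ?_ ?_ ?_ k
    · rw [tp_zero]
    · intro k h; rw [tp_succ, h1, h]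
    · intro k h; rw [tp_pred, ← h1, Equiv.apply_symm_apply, h]
  have h3 : ∀ y n, Tot.Hom.f φ ((y, n) : (totT w).X) = Tot.Hom.f φ ((y, 0) : (totT w).X) := by
    intro y n
    rw [← h2 n ((y, 0) : (totT w).X), totT_tp]
    congr 1
    show (y, n) = (y, 0 + n)
    rw [zero_add]
  exact ⟨{
    f := fun y => Tot.Hom.f φ ((y, 0) : (totT w).X)
    it := fun y => Tot.Hom.it φ ((y, 0) : (totT w).X)
    sh := fun y => by
      rw [Tot.Hom.sh φ ((y, 0) : (totT w).X)]
      exact h3 _ _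
    eqv := fun y => by
      show Tot.Hom.f φ ((y, 0) : (totT w).X) = _
      rw [← Tot.Hom.eqv, h1]
    adm := fun g hg => Tot.Hom.adm φ g hg 0 }⟩

omit [Finite G.E] in
lemma shift_adm (A : Tot G) (Q : A.X → ℤ) (hQ : Q ∈ A.adm) : Q ∘ A.sh ∈ A.adm := by
  rw [A.glue]
  intro e
  have : A.pull e (Q ∘ A.sh) = ext0 A (G.s e) (fun y => Q y.1) := by
    funext r
    by_cases h : (A.it r).vert = G.s e
    · rw [A.pull_pos _ _ _ h, ext0_pos _ _ h, Function.comp_apply, A.sh_cns]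
    · rw [A.pull_neg _ _ _ h, ext0_neg _ _ h]
  rw [this]
  exact adm_local A _ hQ

/-- Structure of the preimages of the torsors. -/
theorem struct {κ : ℤ} (hκ1 : κ * κ = 1) (hκ : ∀ T j, F.map (tau T j) = tau (F.obj T) (κ * j))
    (w : H.E → ℤ) (A : Tot G) (i : F.obj A ≅ totT w) :
    ∃ (Q : A.X → ℤ) (h : Path G → ℤ), h ∈ LC G ∧ (∀ k p, Q (tp A k p) = Q p + k) ∧
      (∀ p, Q p - Q (A.sh p) = h (A.it p)) ∧ (∀ x, ∃ p, A.it p = x) ∧
      (∀ p p', A.it p = A.it p' → p' = tp A (Q p' - Q p) p) := by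
  have hpt : ∀ x : Path G, ∃ y : Path H, Nonempty (F.obj (ptObj x) ≅ ptObj y) := fun x =>
    exists_pt _ (IsPt_map F (isPt_ptObj x))
  -- fibres are nonempty
  have hne : ∀ x, ∃ p, A.it p = x := by
    intro x
    obtain ⟨y, ⟨j⟩⟩ := hpt x
    let a' : ptObj y ⟶ totT w := ptHom (totT w) (x := y) ((y, 0) : (totT w).X) rfl
    let a : ptObj x ⟶ A := F.preimage (j.hom ≫ a' ≫ i.inv)
    exact ⟨Tot.Hom.f a (base x), it_base a⟩
  -- fibres are orbits
  have htr : ∀ p p', A.it p = A.it p' → ∃ k, p' = tp A k p := by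
    intro p p' hp
    obtain ⟨y, ⟨j⟩⟩ := hpt (A.it p')
    let a : ptObj (A.it p') ⟶ A := ptHom A p hp
    let a' : ptObj (A.it p') ⟶ A := ptHom A p' rfl
    let b : ptObj y ⟶ totT w := j.inv ≫ F.map a ≫ i.hom
    let b' : ptObj y ⟶ totT w := j.inv ≫ F.map a' ≫ i.hom
    let n := (Tot.Hom.f b (base y)).2
    let n' := (Tot.Hom.f b' (base y)).2
    have hn : Tot.Hom.f b (base y) = (y, n) := Prod.ext (it_base b) rfl
    have hn' : Tot.Hom.f b' (base y) = (y, n') := Prod.ext (it_base b') rfl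
    have hb : b' = b ≫ tau (totT w) (n' - n) := by
      apply pt_ext
      rw [hn', Tot.comp_f, hn]
      refine Eq.trans ?_ (totT_tp w (n' - n) (y, n)).symm
      show (y, n') = (y, n + (n' - n))
      rw [add_sub_cancel]
    have hF : F.map a' = F.map (a ≫ tau A (κ * (n' - n))) := by
      rw [F.map_comp, hκ, ← mul_assoc, hκ1, one_mul]
      have e1 : F.map a' = j.hom ≫ b' ≫ i.inv := by simp [b']
      have e2 : F.map a = j.hom ≫ b ≫ i.inv := by simp [b]
      rw [e1, e2, hb]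
      simp only [Category.assoc]
      rw [tau_nat]
    have ha := F.map_injective hF
    have h1 := congrArg (fun u => Tot.Hom.f u (base (A.it p'))) ha
    have h2 : Tot.Hom.f a' (base (A.it p')) =
        tp A (κ * (n' - n)) (Tot.Hom.f a (base (A.it p'))) := h1
    rw [ptHom_base, ptHom_base] at h2
    exact ⟨_, h2⟩
  -- the action is free
  have hfree : ∀ p, A.τ p ≠ p := by
    intro p hp
    obtain ⟨y, ⟨j⟩⟩ := hpt (A.it p)
    let a : ptObj (A.it p) ⟶ A := ptHom A p rfl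
    have ha : a ≫ tau A 1 = a := by
      apply pt_ext
      rw [Tot.comp_f, ptHom_base]
      exact (tp_one A p).trans hp
    have hF := congrArg F.map ha
    rw [F.map_comp, hκ, mul_one] at hF
    let b : ptObj y ⟶ totT w := j.inv ≫ F.map a ≫ i.hom
    have hb : b ≫ tau (totT w) κ = b := by
      show (j.inv ≫ F.map a ≫ i.hom) ≫ tau (totT w) κ = j.inv ≫ F.map a ≫ i.hom
      rw [Category.assoc, Category.assoc, ← tau_nat, ← Category.assoc (F.map a), hF]
    have h1 := congrArg (fun u => Tot.Hom.f u (base y)) hb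
    have h2 : tp (totT w) κ (Tot.Hom.f b (base y)) = Tot.Hom.f b (base y) := h1
    rw [totT_tp] at h2
    have h3 : (Tot.Hom.f b (base y)).2 + κ = (Tot.Hom.f b (base y)).2 := congrArg Prod.snd h2
    have h4 : κ = 0 := by linarith
    rw [h4] at hκ1
    norm_num at hκ1
  obtain ⟨Q, hQ, hQ'⟩ := A.coord
  have hQ1 : ∀ p, Q (A.τ p) = Q p + 1 := fun p => (hQ' p).resolve_left (hfree p)
  have hQ2 : ∀ k p, Q (tp A k p) = Q p + k := by
    intro k p
    refine tp_ind A (fun k => Q (tp A k p) = Q p + k) ?_ ?_ ?_ k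
    · rw [tp_zero, add_zero]
    · intro k h; rw [tp_succ, hQ1, h]; ring
    · intro k h
      rw [tp_pred]
      have := hQ1 (A.τ.symm (tp A k p))
      rw [Equiv.apply_symm_apply, h] at this
      linarith
  choose pt hpt' using hne
  let h : Path G → ℤ := fun x => Q (pt x) - Q (A.sh (pt x))
  have hh : ∀ p, Q p - Q (A.sh p) = h (A.it p) := by
    intro p
    obtain ⟨k, hk⟩ := htr (pt (A.it p)) p (hpt' _)
    show _ = Q (pt (A.it p)) - Q (A.sh (pt (A.it p)))
    generalize pt (A.it p) = q at hk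
    rw [hk, sh_tp, hQ2, hQ2]
    ring
  refine ⟨Q, h, ?_, hQ2, hh, fun x => ⟨pt x, hpt' x⟩, ?_⟩
  · -- local constancy
    have h1 : h ∈ (totZ A).adm := by
      show h ∘ A.it ∈ A.adm
      have : h ∘ A.it = Q - Q ∘ A.sh := by
        funext p; exact (hh p).symm
      rw [this]
      exact A.adm.sub_mem hQ (shift_adm A Q hQ)
    obtain ⟨g⟩ := inv_factor w (F.obj (totZ A)) (i.inv ≫ F.map (toZ A)) (by
      rw [← Category.assoc, tau_nat, Category.assoc]
      congr 1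
      have e1 : tau (F.obj A) 1 = F.map (tau A κ) := by rw [hκ, hκ1]
      rw [e1, ← F.map_comp]
      congr 1
      apply Tot.hom_ext
      intro p
      exact it_tp A κ p)
    let u : totI G ⟶ totZ A := F.preimage (toI _ ≫ g)
    have h2 := Tot.Hom.adm u h h1
    have h3 : h ∘ Tot.Hom.f u = h := by
      funext x
      exact congrArg h (Tot.Hom.it u x)
    rw [h3] at h2
    exact h2
  · intro p p' hp
    obtain ⟨k, hk⟩ := htr p p' hp
    have : Q p' - Q p = k := by rw [hk, hQ2]; ring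
    rw [this, ← hk]

/-! ### The action on the torsors -/

omit [Finite G.E] in
lemma Q_iter {A : Tot G} {Q : A.X → ℤ} {h : Path G → ℤ}
    (hQ : ∀ p, Q p - Q (A.sh p) = h (A.it p)) (i : ℕ) (p : A.X) :
    Q p - Q (A.sh^[i] p) = bs Path.sh h (A.it p) i := by
  induction i generalizing p with
  | zero => simp [bs_zero]
  | succ i ih =>
    rw [bs_succ', Function.iterate_succ_apply, ← hQ, ← A.it_sh, ← ih]
    ring

omit [Finite G.E] in
lemma act {A : Tot G} {Q : A.X → ℤ} {h : Path G → ℤ}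
    (hQ : ∀ p, Q p - Q (A.sh p) = h (A.it p))
    (hfib : ∀ p p', A.it p = A.it p' → p' = tp A (Q p' - Q p) p)
    {x : Path G} (u : ptObj x ⟶ ptObj x) (a : ptObj x ⟶ A) (i j : ℕ) (m c : ℤ)
    (hm : Rel x x m) (hu : Tot.Hom.f u (base x) = (⟨(x, m, c), hm⟩ : (ptObj x).X))
    (hij : (i : ℤ) - j = m) (hx : Path.sh^[i] x = Path.sh^[j] x) :
    u ≫ a = a ≫ tau A (bs Path.sh h x i - bs Path.sh h x j + c) := by
  apply pt_ext
  rw [Tot.comp_f, hu]
  obtain ⟨q, hq, e⟩ := pt_value a x m c hm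
  rw [e]
  generalize hp : Tot.Hom.f a (base x) = p at hq
  have hpx : A.it p = x := by rw [← hp]; exact it_base a
  obtain ⟨q', hq', hq''⟩ := glue_ex A.toPre i (A.sh^[j] p) x (by rw [it_iter, hpx, hx])
  have hqq : q = q' := Tr_uq _ _ _ _ _ _ hq ⟨hq', i, j, hij, hq''⟩
  subst hqq
  have h1 := Q_iter hQ i q
  have h2 := Q_iter hQ j p
  rw [hq', hq''] at h1
  rw [hpx] at h2
  have h3 : Q q - Q p = bs Path.sh h x i - bs Path.sh h x j := by linarith
  have h4 := hfib p q (hpx.trans hq'.symm)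
  rw [h3] at h4
  rw [h4, ← tp_add, add_comm]
  show _ = tp A _ (Tot.Hom.f a (base x))
  rw [hp]

omit [Finite G.E] in
lemma tau_cancel {A : Tot G} {Q : A.X → ℤ} (hQ : ∀ k p, Q (tp A k p) = Q p + k)
    {x : Path G} (a : ptObj x ⟶ A) (k l : ℤ) (h : a ≫ tau A k = a ≫ tau A l) : k = l := by
  have h1 := congrArg (fun u => Q (Tot.Hom.f u (base x))) h
  have h2 : Q (tp A k (Tot.Hom.f a (base x))) = Q (tp A l (Tot.Hom.f a (base x))) := h1
  rw [hQ, hQ] at h2
  linarith

omit [Finite G.E] in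
lemma bs_weight (w : ℤ) (x : Path G) (i : ℕ) : bs Path.sh (fun _ => w) x i = i * w := by
  simp [bs]

include F in
/-- **The cocycle of an equivalence.** -/
theorem thmA (hG : Conn G) (hSG : Sep G) (hH : Conn H) (hSH : Sep H) :
    ∃ (h : Path G → ℤ) (Ψ : Path G → Path H → Prop), h ∈ LC G ∧
      (∀ x, ∃ y, Ψ x y) ∧ (∀ y, ∃ x, Ψ x y) ∧
      (∀ x y x' y', Ψ x y → Ψ x' y' → ((∃ n, Rel x x' n) ↔ ∃ n, Rel y y' n)) ∧
      (∀ x y, Ψ x y → ∀ c, (∃ m, Cs Path.sh h x m c) ↔ ∃ m, Cs Path.sh (fun _ => 1) y m c) ∧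
      (∀ x m, Cs Path.sh h x m 0 → m = 0) := by
  obtain ⟨κ, hκ1, hκ⟩ := kappa F hG hSG hH hSH
  let A0 := F.objPreimage (totT (0 : H.E → ℤ))
  let A1 := F.objPreimage (totT (1 : H.E → ℤ))
  let i0 : F.obj A0 ≅ totT 0 := F.objObjPreimageIso _
  let i1 : F.obj A1 ≅ totT 1 := F.objObjPreimageIso _
  obtain ⟨Q0, h0, h0LC, hQ0, hQh0, hex0, hfib0⟩ := struct F hκ1 hκ 0 A0 i0
  obtain ⟨Q1, h1, h1LC, hQ1, hQh1, hex1, hfib1⟩ := struct F hκ1 hκ 1 A1 i1
  -- the torsors
  have hT : ∀ (w : H.E → ℤ), (∀ p : (totT w).X, p.2 - ((totT w).sh p).2 =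
      (fun y : Path H => w (y.1 0)) ((totT w).it p)) ∧
      (∀ p p' : (totT w).X, (totT w).it p = (totT w).it p' → p' = tp (totT w) (p'.2 - p.2) p) ∧
      (∀ k (p : (totT w).X), (tp (totT w) k p).2 = p.2 + k) := by
    intro w
    refine ⟨fun p => ?_, fun p p' hp => ?_, fun k p => by rw [totT_tp]⟩
    · show p.2 - (p.2 - w (p.1.1 0)) = w (p.1.1 0)
      ring
    · rw [totT_tp]
      exact Prod.ext hp.symm (by show p'.2 = p.2 + (p'.2 - p.2); ring)
  -- the main computation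
  have key : ∀ (x : Path G) (y : Path H) (ι : F.obj (ptObj x) ≅ ptObj y)
      (u : ptObj x ⟶ ptObj x) (i j : ℕ) (m c : ℤ) (hm : Rel x x m)
      (_ : Tot.Hom.f u (base x) = (⟨(x, m, c), hm⟩ : (ptObj x).X))
      (_ : (i : ℤ) - j = m) (_ : Path.sh^[i] x = Path.sh^[j] x)
      (m' c' : ℤ) (hm' : Rel y y m')
      (_ : Tot.Hom.f (ι.inv ≫ F.map u ≫ ι.hom) (base y) = (⟨(y, m', c'), hm'⟩ : (ptObj y).X)),
      c' = κ * (bs Path.sh h0 x i - bs Path.sh h0 x j + c) ∧
      m' + c' = κ * (bs Path.sh h1 x i - bs Path.sh h1 x j + c) := by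
    intro x y ι u i j m c hm hu hij hx m' c' hm' hv
    obtain ⟨i', j', hij', hy'⟩ := id hm'
    have gen : ∀ (w : ℤ) (A : Tot G) (i2 : F.obj A ≅ totT (fun _ : H.E => w)) (Q : A.X → ℤ)
        (h : Path G → ℤ), (∀ p, Q p - Q (A.sh p) = h (A.it p)) →
        (∀ x, ∃ p, A.it p = x) → (∀ p p', A.it p = A.it p' → p' = tp A (Q p' - Q p) p) →
        m' * w + c' = κ * (bs Path.sh h x i - bs Path.sh h x j + c) := by
      intro w A i2 Q h hQh hex hfib
      obtain ⟨p, hp⟩ := hex x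
      let a : ptObj x ⟶ A := ptHom A p hp
      have e1 := act hQh hfib u a i j m c hm hu hij hx
      let b : ptObj y ⟶ totT (fun _ : H.E => w) := ι.inv ≫ F.map a ≫ i2.hom
      obtain ⟨t1, t2, t3⟩ := hT (fun _ => w)
      have e2 := act (A := totT (fun _ : H.E => w)) (Q := Prod.snd) (h := fun _ => w) t1 t2
        (ι.inv ≫ F.map u ≫ ι.hom) b i' j' m' c' hm' hv hij' hy'
      have e3 : (ι.inv ≫ F.map u ≫ ι.hom) ≫ b = b ≫ tau (totT (fun _ : H.E => w))
          (κ * (bs Path.sh h x i - bs Path.sh h x j + c)) := by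
        have e4 := congrArg F.map e1
        rw [F.map_comp, F.map_comp, hκ] at e4
        show (ι.inv ≫ F.map u ≫ ι.hom) ≫ ι.inv ≫ F.map a ≫ i2.hom =
          (ι.inv ≫ F.map a ≫ i2.hom) ≫ _
        simp only [Category.assoc, Iso.hom_inv_id_assoc]
        rw [← tau_nat, ← Category.assoc (F.map u), e4, Category.assoc]
      have e5 := tau_cancel (A := totT (fun _ : H.E => w)) (Q := Prod.snd) t3 b _ _
        (e2.symm.trans e3)
      rw [bs_weight, bs_weight, ← sub_mul, hij'] at e5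
      exact e5
    have g0 := gen 0 A0 i0 Q0 h0 hQh0 hex0 hfib0
    have g1 := gen 1 A1 i1 Q1 h1 hQh1 hex1 hfib1
    exact ⟨by linarith, by linarith⟩
  -- the value on the base point of an endomorphism
  have hval : ∀ (K : DG) (x : Path K) (u : ptObj x ⟶ ptObj x), ∃ (m c : ℤ) (hm : Rel x x m),
      Tot.Hom.f u (base x) = (⟨(x, m, c), hm⟩ : (ptObj x).X) := by
    intro K x u
    have h1 : (Tot.Hom.f u (base x)).1.1 = x := it_base u
    generalize Tot.Hom.f u (base x) = z at h1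
    obtain ⟨⟨y, m, c⟩, h⟩ := z
    dsimp only at h1
    subst h1
    exact ⟨m, c, h, rfl⟩
  let h : Path G → ℤ := fun x => κ * (h1 x - h0 x)
  have hbs : ∀ x i, bs Path.sh h x i = κ * (bs Path.sh h1 x i - bs Path.sh h0 x i) := by
    intro x i
    rw [bs, bs, bs, ← Finset.sum_sub_distrib, Finset.mul_sum]
  have hpt : ∀ x : Path G, ∃ y : Path H, Nonempty (F.obj (ptObj x) ≅ ptObj y) := fun x =>
    exists_pt _ (IsPt_map F (isPt_ptObj x))
  refine ⟨h, fun x y => Nonempty (F.obj (ptObj x) ≅ ptObj y), ?_, hpt, ?_, ?_, ?_, ?_⟩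
  · have : h = κ • (h1 - h0) := by funext x; simp [h]
    rw [this]
    exact (LC G).zsmul_mem ((LC G).sub_mem h1LC h0LC) _
  · intro y
    obtain ⟨x, ⟨ι⟩⟩ := exists_pt _ (IsPt_map F.inv (isPt_ptObj y))
    exact ⟨x, ⟨(F.mapIso ι).symm ≪≫ F.asEquivalence.counitIso.app (ptObj y)⟩⟩
  · rintro x y x' y' ⟨ι⟩ ⟨ι'⟩
    rw [← pt_iso_iff, ← pt_iso_iff]
    constructor
    · rintro ⟨f⟩; exact ⟨ι.symm ≪≫ F.mapIso f ≪≫ ι'⟩
    · rintro ⟨f⟩; exact ⟨F.preimageIso (ι ≪≫ f ≪≫ ι'.symm)⟩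
  · rintro x y ⟨ι⟩ c
    constructor
    · rintro ⟨m, i, j, hij, hx, hc⟩
      have hm : Rel x x m := ⟨i, j, hij, hx⟩
      let u : ptObj x ⟶ ptObj x := ptHom (ptObj x) (x := x) (⟨(x, m, 0), hm⟩ : (ptObj x).X) rfl
      obtain ⟨m', c', hm', hv⟩ := hval H y (ι.inv ≫ F.map u ≫ ι.hom)
      obtain ⟨k1, k2⟩ := key x y ι u i j m 0 hm (ptHom_base _ _ _) hij hx m' c' hm' hv
      rw [hbs, hbs] at hc
      have : m' = c := by
        rw [← hc]
        linear_combination k2 - k1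
      rw [← this]
      obtain ⟨i', j', hij', hy'⟩ := hm'
      exact ⟨m', i', j', hij', hy', by rw [bs_one, bs_one, hij']⟩
    · rintro ⟨m, i', j', hij', hy', hc'⟩
      rw [bs_one, bs_one] at hc'
      have hc : Rel y y c := ⟨i', j', hc', hy'⟩
      let v : ptObj y ⟶ ptObj y := ptHom (ptObj y) (x := y) (⟨(y, c, 0), hc⟩ : (ptObj y).X) rfl
      let u : ptObj x ⟶ ptObj x := F.preimage (ι.hom ≫ v ≫ ι.inv)
      have huv : ι.inv ≫ F.map u ≫ ι.hom = v := by
        simp [u]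
      obtain ⟨m1, c1, hm1, hu⟩ := hval G x u
      obtain ⟨i, j, hij, hx⟩ := id hm1
      obtain ⟨k1, k2⟩ := key x y ι u i j m1 c1 hm1 hu hij hx c 0 hc (by
        rw [huv]; exact ptHom_base _ _ _)
      refine ⟨m1, i, j, hij, hx, ?_⟩
      rw [hbs, hbs]
      linear_combination k1 - k2
  · rintro x m ⟨i, j, hij, hx, hc⟩
    obtain ⟨y, ⟨ι⟩⟩ := hpt x
    have hm : Rel x x m := ⟨i, j, hij, hx⟩
    let c1 : ℤ := -(bs Path.sh h0 x i - bs Path.sh h0 x j)
    let u : ptObj x ⟶ ptObj x := ptHom (ptObj x) (x := x) (⟨(x, m, c1), hm⟩ : (ptObj x).X) rfl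
    obtain ⟨m', c', hm', hv⟩ := hval H y (ι.inv ≫ F.map u ≫ ι.hom)
    obtain ⟨k1, k2⟩ := key x y ι u i j m c1 hm (ptHom_base _ _ _) hij hx m' c' hm' hv
    rw [hbs, hbs] at hc
    have hc0 : c' = 0 := by
      rw [k1]
      show κ * (_ + -(_ - _)) = 0
      ring
    have hm0 : m' = 0 := by
      linear_combination k2 - k1 + hc
    have hv1 : ι.inv ≫ F.map u ≫ ι.hom = 𝟙 _ := by
      apply pt_ext
      rw [hv]
      apply Subtype.ext
      show (y, m', c') = (y, 0, 0)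
      rw [hc0, hm0]
    have hFu : F.map u = F.map (𝟙 _) := by
      have := congrArg (fun t => ι.hom ≫ t ≫ ι.inv) hv1
      simpa using this
    have hu := F.map_injective hFu
    have h2 : Tot.Hom.f u (base x) = base x := by rw [hu]; rfl
    have h3 : Tot.Hom.f u (base x) = (⟨(x, m, c1), hm⟩ : (ptObj x).X) := ptHom_base _ _ _
    rw [h3] at h2
    have h4 := congrArg (fun z : (ptObj x).X => z.1.2.1) h2
    exact h4

end Pool.Agent.X221.PS
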