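import Mathlib
import Pool.Agent.X221.PS.Red
import Pool.Agent.X221.PS.ThmA

/-!
# Graph lemmas
-/

namespace Pool.Agent.X221.PS

open CategoryTheory

/-- There is an edge from `u` to `v`. -/
def DG.Adj (G : DG) (u v : G.V) : Prop := ∃ e, G.s e = u ∧ G.t e = v

/-- Every vertex can be reached from every vertex by a directed path. -/
def DG.Irreducible (G : DG) : Prop := ∀ u v : G.V, Relation.ReflTransGen G.Adj u v

/-- The graph is a single directed cycle. -/
def DG.IsCycle (G : DG) : Prop := ∃ (n : ℕ) (φ : Fin (n + 1) ≃ G.V) (ψ : Fin (n + 1) ≃ G.E),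
  ∀ i, G.s (ψ i) = φ i ∧ G.t (ψ i) = φ (i + 1)

/-- The adjacency matrix. -/
noncomputable def DG.adjMatrix (G : DG) : Matrix G.V G.V ℤ :=
  fun u v => (Nat.card {e : G.E // G.s e = u ∧ G.t e = v} : ℤ)

/-- The Parry-Sullivan number. -/
noncomputable def DG.parrySullivan (G : DG) [Fintype G.V] [DecidableEq G.V] : ℤ :=
  (1 - G.adjMatrix).det

variable {G : DG}

lemma noSrc (hG : G.Irreducible) [Nonempty G.E] : NoSrc G := by
  intro v
  obtain ⟨e0⟩ := ‹Nonempty G.E›
  rcases Relation.ReflTransGen.cases_tail (hG (G.t e0) v) with h | ⟨u, _, e, _, he⟩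
  · exact ⟨e0, h.symm⟩
  · exact ⟨e, he⟩

lemma reach (hG : G.Irreducible) (y : Path G) (v : G.V) :
    ∃ (z : Path G) (N : ℕ), z.vert = v ∧ Path.sh^[N] z = y := by
  induction hG y.vert v with
  | refl => exact ⟨y, 0, rfl, rfl⟩
  | @tail w v _ hwv ih =>
    obtain ⟨z, N, hz, hN⟩ := ih
    obtain ⟨e, he, he'⟩ := hwv
    refine ⟨Path.cons e z (hz.trans he.symm), N + 1, ?_, ?_⟩
    · show G.t e = v
      exact he'
    · rw [Function.iterate_succ_apply, Path.sh_cons, hN]

lemma conn (hG : G.Irreducible) : Conn G := by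
  intro x y n
  suffices h : ∃ (z : Path G) (N : ℕ), z.vert = x.vert ∧ (∀ i < n, z.1 i = x.1 i) ∧
      Path.sh^[N] z = y by
    obtain ⟨z, N, _, h1, h2⟩ := h
    exact ⟨z, N, h1, h2⟩
  induction n generalizing x with
  | zero =>
    obtain ⟨z, N, h1, h2⟩ := reach hG y x.vert
    exact ⟨z, N, h1, fun i hi => absurd hi (Nat.not_lt_zero i), h2⟩
  | succ n ih =>
    obtain ⟨z, N, h1, h2, h3⟩ := ih x.sh
    refine ⟨Path.cons (x.1 0) z (h1.trans (Path.vert_sh x)), N + 1, rfl, ?_, ?_⟩
    · intro i hi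
      cases i with
      | zero => rfl
      | succ i => exact h2 i (by omega)
    · rw [Function.iterate_succ_apply, Path.sh_cons, h3]

/-- The path following a strategy. -/
def follow (g : G.V → G.E) (e : G.E) : ℕ → G.E
  | 0 => e
  | n + 1 => g (G.s (follow g e n))

/-- Walks of length `k` from `v` to `u`. -/
def WLk (G : DG) (v : G.V) : ℕ → G.V → Prop
  | 0, u => u = v
  | k + 1, u => ∃ f, G.t f = u ∧ WLk G v k (G.s f)

lemma sep (hG : G.Irreducible) [Nonempty G.E] {e e' : G.E} (hne : e' ≠ e) (he : G.t e' = G.t e) :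
    Sep G := by
  classical
  have hs := noSrc hG
  set v := G.t e with hv
  -- walks from `v`
  have hWL : ∀ u, ∃ k, WLk G v k u := by
    intro u
    induction hG v u with
    | refl => exact ⟨0, rfl⟩
    | @tail w u _ hwu ih =>
      obtain ⟨k, hk⟩ := ih
      obtain ⟨f, hf, hf'⟩ := hwu
      exact ⟨k + 1, f, hf', by rw [hf]; exact hk⟩
  let dist : G.V → ℕ := fun u => Nat.find (hWL u)
  have hdist : ∀ u, u ≠ v → ∃ f, G.t f = u ∧ dist (G.s f) < dist u := by
    intro u hu
    have h1 : WLk G v (dist u) u := Nat.find_spec (hWL u)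
    generalize hd : dist u = d at h1
    cases d with
    | zero => exact absurd h1 hu
    | succ k =>
      obtain ⟨f, hf, hf'⟩ := h1
      exact ⟨f, hf, Nat.lt_succ_of_le (Nat.find_min' (hWL (G.s f)) hf')⟩
  -- strategy avoiding `e`
  let g : G.V → G.E := fun u => if u = v then e' else (hs u).choose
  have hg : ∀ u, G.t (g u) = u := by
    intro u
    show G.t (if u = v then e' else (hs u).choose) = u
    split_ifs with h
    · rw [he, h]
    · exact (hs u).choose_spec
  have hge : ∀ u, g u ≠ e := by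
    intro u h
    have h1 : u = v := by rw [← hg u, h]
    subst h1
    have h2 : g v = e' := if_pos rfl
    exact hne (h2.symm.trans h)
  -- strategy returning to `e`
  let g' : G.V → G.E := fun u => if h : u = v then e else (hdist u h).choose
  have hg' : ∀ u, G.t (g' u) = u := by
    intro u
    show G.t (if h : u = v then e else (hdist u h).choose) = u
    split_ifs with h
    · rw [← hv, h]
    · exact (hdist u h).choose_spec.1
  have hgd : ∀ u, u ≠ v → dist (G.s (g' u)) < dist u := by
    intro u h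
    show dist (G.s (if h : u = v then e else (hdist u h).choose)) < dist u
    rw [dif_neg h]
    exact (hdist u h).choose_spec.2
  have hgv : g' v = e := dif_pos rfl
  refine ⟨e, ⟨follow g e', fun i => hg _⟩, ⟨follow g' e, fun i => hg' _⟩, ?_, ?_⟩
  · intro i
    cases i with
    | zero => exact hne
    | succ i => exact hge _
  · have key : ∀ d N, dist (G.s (follow g' e N)) = d → ∃ i, N ≤ i ∧ follow g' e i = e := by
      intro d
      induction d using Nat.strong_induction_on with
      | _ d ih =>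
        intro N hN
        by_cases h : G.s (follow g' e N) = v
        · refine ⟨N + 1, Nat.le_succ N, ?_⟩
          show g' (G.s (follow g' e N)) = e
          rw [h, hgv]
        · obtain ⟨i, hi, hi'⟩ := ih _ (by
            rw [← hN]
            exact hgd _ h) (N + 1) rfl
          exact ⟨i, by omega, hi'⟩
    intro N
    exact key _ N rfl

lemma cycle_of_inj (hG : G.Irreducible) [Nonempty G.E] (ht : Function.Injective G.t) :
    G.IsCycle := by
  have hs := noSrc hG
  let tE : G.E ≃ G.V := Equiv.ofBijective G.t ⟨ht, hs⟩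
  let pred : G.V → G.V := fun v => G.s (tE.symm v)
  have htE : ∀ e, tE.symm (G.t e) = e := fun e => tE.symm_apply_apply e
  have htE' : ∀ v, G.t (tE.symm v) = v := fun v => tE.apply_symm_apply v
  have hreach : ∀ u v, ∃ k, pred^[k] v = u := by
    intro u v
    induction hG u v with
    | refl => exact ⟨0, rfl⟩
    | @tail w v _ hwv ih =>
      obtain ⟨k, hk⟩ := ih
      obtain ⟨e, he, rfl⟩ := hwv
      refine ⟨k + 1, ?_⟩
      rw [Function.iterate_succ_apply]
      show pred^[k] (G.s (tE.symm (G.t e))) = u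
      rw [htE, he, hk]
  obtain ⟨e0⟩ := ‹Nonempty G.E›
  let v0 := G.t e0
  obtain ⟨k0, hk0⟩ := hreach v0 (pred v0)
  have hper : Function.IsPeriodicPt pred (k0 + 1) v0 := by
    show pred^[k0 + 1] v0 = v0
    rw [Function.iterate_succ_apply]; exact hk0
  have hp : 0 < Function.minimalPeriod pred v0 := hper.minimalPeriod_pos (Nat.succ_pos k0)
  have hpp : pred^[Function.minimalPeriod pred v0] v0 = v0 :=
    Function.isPeriodicPt_minimalPeriod pred v0
  have hmod : ∀ n, pred^[n % Function.minimalPeriod pred v0] v0 = pred^[n] v0 := fun n =>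
    Function.iterate_mod_minimalPeriod_eq
  have hinj : ∀ i < Function.minimalPeriod pred v0, ∀ i' < Function.minimalPeriod pred v0,
      pred^[i] v0 = pred^[i'] v0 → i = i' := fun i hi i' hi' hh =>
    Function.iterate_injOn_Iio_minimalPeriod hi hi' hh
  generalize Function.minimalPeriod pred v0 = p at hp hpp hmod hinj
  obtain ⟨n, rfl⟩ : ∃ n, p = n + 1 := ⟨p - 1, by omega⟩
  have hbij : Function.Bijective (fun i : Fin (n + 1) => pred^[n - i.1] v0) := by
    constructor
    · intro i j hij
      have h1 := hinj (n - i.1) (by omega) (n - j.1) (by omega) hij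
      apply Fin.ext
      have := i.2
      have := j.2
      omega
    · intro u
      obtain ⟨k, hk⟩ := hreach u v0
      have h1 : k % (n + 1) < n + 1 := Nat.mod_lt _ (Nat.succ_pos n)
      refine ⟨⟨n - k % (n + 1), by omega⟩, ?_⟩
      show pred^[n - (n - k % (n + 1))] v0 = u
      rw [Nat.sub_sub_self (by omega), hmod, hk]
  let φ : Fin (n + 1) ≃ G.V := Equiv.ofBijective _ hbij
  have hφ : ∀ i, φ i = pred^[n - i.1] v0 := fun i => rfl
  refine ⟨n, φ, ((Equiv.addRight 1).trans φ).trans tE.symm, fun i => ⟨?_, ?_⟩⟩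
  · show pred (φ (i + 1)) = φ i
    rw [hφ, hφ, ← Function.iterate_succ_apply' pred]
    by_cases hi : i = Fin.last n
    · subst hi
      have e1 : ((Fin.last n + 1 : Fin (n + 1)) : ℕ) = 0 := by simp
      rw [e1]
      show pred^[n + 1] v0 = pred^[n - n] v0
      rw [hpp, Nat.sub_self]; rfl
    · have hi' : i.1 < n := by
        rcases Nat.lt_or_ge i.1 n with h | h
        · exact h
        · exact absurd (Fin.ext (by have := i.2; show i.1 = n; omega)) hi
      have e1 : ((i + 1 : Fin (n + 1)) : ℕ) = i.1 + 1 := Fin.val_add_one_of_lt (by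
        exact Fin.lt_def.2 hi')
      rw [e1]
      congr 2
      omega
  · exact htE' _

lemma sep' (hG : G.Irreducible) [Nonempty G.E] (hc : ¬ G.IsCycle) : Sep G := by
  by_contra h
  apply hc
  apply cycle_of_inj hG
  intro e e' he
  by_contra hne
  exact h (sep hG (e := e') (e' := e) hne he)

/-- The path space is presented by the edges. -/
theorem pathPres (hG : G.Irreducible) :
    Pres Path.sh (fun e e' : G.E => G.t e' = G.s e) (fun x : Path G => x.1 0) where
  step x := x.2 0
  ex s hs := ⟨⟨s, hs⟩, fun i =>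
    (iter_apply (⟨s, hs⟩ : Path G) i 0).trans (congrArg s (zero_add i))⟩
  uq x y h := Path.ext fun i => by
    have := h i
    rwa [iter_apply, iter_apply, zero_add] at this
  irr := by
    have key : ∀ (u v : G.V), Relation.ReflTransGen G.Adj u v → ∀ a b : G.E, G.s a = v →
        G.t b = u → Relation.TransGen (fun e e' : G.E => G.t e' = G.s e) a b := by
      intro u v huv
      induction huv using Relation.ReflTransGen.head_induction_on with
      | refl => intro a b ha hb; exact Relation.TransGen.single (hb.trans ha.symm)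
      | @head u u' huu' _ ih =>
        intro a b ha hb
        obtain ⟨e, he, he'⟩ := huu'
        exact (ih a e ha he').tail (hb.trans he.symm)
    intro a b
    exact key _ _ (hG (G.t b) (G.s a)) a b rfl rfl

open scoped Classical in
/-- The determinant of the edge matrix. -/
theorem det_edge [Fintype G.V] [Fintype G.E] :
    ((G.parrySullivan : ℤ) : ℚ) =
      (1 - wM (fun e e' : G.E => G.t e' = G.s e) fun _ _ => (1 : ℚ)).det := by
  let U : Matrix G.V G.E ℚ := fun u e => if G.s e = u then 1 else 0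
  let V : Matrix G.E G.V ℚ := fun e v => if G.t e = v then 1 else 0
  have e1 : (Int.castRingHom ℚ).mapMatrix G.adjMatrix = U * V := by
    ext u v
    rw [Matrix.mul_apply]
    show (((Nat.card {e : G.E // G.s e = u ∧ G.t e = v} : ℤ)) : ℚ) = _
    rw [Nat.card_eq_fintype_card, Fintype.card_subtype, Finset.card_filter]
    push_cast
    refine Finset.sum_congr rfl fun e _ => ?_
    show _ = (if G.s e = u then (1 : ℚ) else 0) * (if G.t e = v then 1 else 0)
    by_cases h1 : G.s e = u
    · by_cases h2 : G.t e = v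
      · rw [if_pos ⟨h1, h2⟩, if_pos h1, if_pos h2, mul_one]
      · rw [if_neg fun h => h2 h.2, if_neg h2, mul_zero]
    · rw [if_neg fun h => h1 h.1, if_neg h1, zero_mul]
  have e2 : (wM (fun e e' : G.E => G.t e' = G.s e) fun _ _ => (1 : ℚ)).transpose = V * U := by
    ext e e'
    rw [Matrix.mul_apply, Finset.sum_eq_single (G.t e)]
    · show (if G.t e = G.s e' then (1 : ℚ) else 0) =
        (if G.t e = G.t e then 1 else 0) * (if G.s e' = G.t e then 1 else 0)
      rw [if_pos (rfl : G.t e = G.t e), one_mul]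
      by_cases h : G.t e = G.s e'
      · rw [if_pos h, if_pos h.symm]
      · rw [if_neg h, if_neg fun h' => h h'.symm]
    · intro b _ hb
      show (if G.t e = b then (1 : ℚ) else 0) * _ = 0
      rw [if_neg hb.symm, zero_mul]
    · intro h; exact absurd (Finset.mem_univ _) h
  have e3 : ((G.parrySullivan : ℤ) : ℚ) = (1 - U * V).det := by
    have e4 : (((1 - G.adjMatrix).det : ℤ) : ℚ) = (Int.castRingHom ℚ) (1 - G.adjMatrix).det := rfl
    rw [DG.parrySullivan, ← e1, e4, RingHom.map_det, map_sub, map_one]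
  rw [e3, Matrix.det_one_sub_mul_comm, ← e2, ← Matrix.det_transpose, Matrix.transpose_sub,
    Matrix.transpose_one, Matrix.transpose_transpose]

/-! ### Graphs without edges -/

/-- Any two objects as above are dominated by a third one. -/
def Dir (𝒞 : Type 1) [Category.{0} 𝒞] : Prop :=
  ∀ D D' : 𝒞, NE D → NE D' → ∃ E, NE E ∧ Nonempty (E ⟶ D) ∧ Nonempty (E ⟶ D')

lemma Dir_map {𝒞 𝒟 : Type 1} [Category.{0} 𝒞] [Category.{0} 𝒟] (F : 𝒞 ⥤ 𝒟) [F.IsEquivalence]
    (h : Dir 𝒞) : Dir 𝒟 := by
  intro D D' hD hD'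
  obtain ⟨E, hE, ⟨f⟩, ⟨g⟩⟩ := h (F.inv.obj D) (F.inv.obj D') (NE_map F.inv hD) (NE_map F.inv hD')
  exact ⟨F.obj E, NE_map F hE, ⟨F.map f ≫ (F.asEquivalence.counitIso.app D).hom⟩,
    ⟨F.map g ≫ (F.asEquivalence.counitIso.app D').hom⟩⟩

lemma not_Dir (hS : Sep G) : ¬ Dir (Tot G) := by
  intro h
  obtain ⟨e, y, y', hy, hy'⟩ := hS
  obtain ⟨E, hE, ⟨f⟩, ⟨g⟩⟩ := h (ptObj y) (ptObj y') ((NE_iff _).2 ⟨base _⟩)
    ((NE_iff _).2 ⟨base _⟩)
  obtain ⟨p⟩ := (NE_iff _).1 hE
  have h1 : (Tot.Hom.f f p).1.1 = E.it p := Tot.Hom.it f p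
  have h2 : (Tot.Hom.f g p).1.1 = E.it p := Tot.Hom.it g p
  obtain ⟨i, j, _, h3⟩ := (Tot.Hom.f f p).2
  obtain ⟨i', j', _, h4⟩ := (Tot.Hom.f g p).2
  rw [h1] at h3
  rw [h2] at h4
  obtain ⟨l, hl, hl'⟩ := hy' (i + j')
  have h5 := congrArg (fun x : Path G => x.1 (l - (i + j'))) (congrArg (Path.sh^[i]) h4)
  rw [← Function.iterate_add_apply, ← Function.iterate_add_apply, iter_apply, iter_apply,
    Nat.sub_add_cancel hl, hl'] at h5
  have h6 := congrArg (fun x : Path G => x.1 (l - (i + j'))) (congrArg (Path.sh^[i']) h3)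
  rw [← Function.iterate_add_apply, ← Function.iterate_add_apply, iter_apply, iter_apply,
    add_comm i' i, h5] at h6
  exact hy _ h6.symm

/-- The free orbit. -/
def obZ : Ob where
  α := ℤ
  τ := Equiv.addRight 1
  adm := ⊤
  one := AddSubgroup.mem_top _
  inv := fun _ _ => AddSubgroup.mem_top _
  inv' := fun _ _ => AddSubgroup.mem_top _
  coord := ⟨fun x => x, AddSubgroup.mem_top _, fun _ => Or.inr rfl⟩

/-- The empty object. -/
def obE : Ob where
  α := Empty
  τ := Equiv.refl _
  adm := ⊤
  one := AddSubgroup.mem_top _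
  inv := fun _ _ => AddSubgroup.mem_top _
  inv' := fun _ _ => AddSubgroup.mem_top _
  coord := ⟨0, AddSubgroup.mem_top _, fun p => p.elim⟩

/-- The morphism from the free orbit given by a point. -/
def fromZ (X : Ob) (p : X.α) : obZ ⟶ X where
  f := fun n : ℤ => ((X.τ : Equiv.Perm X.α) ^ n : Equiv.Perm X.α) p
  eqv := fun n : ℤ => by
    show ((X.τ : Equiv.Perm X.α) ^ (n + 1) : Equiv.Perm X.α) p = _
    rw [add_comm, zpow_add, zpow_one]; rfl
  adm := fun _ _ => AddSubgroup.mem_top _

lemma edgeless_sub (hG : G.Irreducible) [IsEmpty G.E] (u v : G.V) : u = v := by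
  induction hG u v with
  | refl => rfl
  | tail _ h _ => obtain ⟨e, _⟩ := h; exact isEmptyElim e

lemma edgeless_dir (hG : G.Irreducible) [IsEmpty G.E] [Nonempty G.V] : Dir (Diag G Ob) := by
  obtain ⟨v0⟩ := ‹Nonempty G.V›
  have hpt : ∀ D : Diag G Ob, NE D → ∀ v, Nonempty (D.obj v).α := by
    rintro D ⟨E, hE⟩ v
    by_contra hne
    rw [not_nonempty_iff] at hne
    apply hE.false
    have hne' : ∀ u, IsEmpty (D.obj u).α := fun u => by
      rw [edgeless_sub hG u v]; exact hne
    exact ⟨fun u =>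
      { f := fun p => (hne' u).elim p
        eqv := fun p => (hne' u).elim p
        adm := fun g _ => by
          have : (g ∘ fun p => (hne' u).elim p : (D.obj u).α → ℤ) = 0 :=
            funext fun p => (hne' u).elim p
          rw [this]; exact (D.obj u).adm.zero_mem }, fun e => isEmptyElim e⟩
  let Z : Diag G Ob := ⟨fun _ => obZ, fun e => isEmptyElim e, fun v h => by
    obtain ⟨e, _⟩ := h; exact isEmptyElim e⟩
  let O : Diag G Ob := ⟨fun _ => obE, fun e => isEmptyElim e, fun v h => by
    obtain ⟨e, _⟩ := h; exact isEmptyElim e⟩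
  have hZ : NE Z := ⟨O, ⟨fun f => (Ob.Hom.f (Diag.Hom.app f v0) (0 : ℤ) : Empty).elim⟩⟩
  have hmap : ∀ D : Diag G Ob, NE D → Nonempty (Z ⟶ D) := fun D hD =>
    ⟨⟨fun v => fromZ (D.obj v) (hpt D hD v).some, fun e => isEmptyElim e⟩⟩
  intro D D' hD hD'
  exact ⟨Z, hZ, hmap D hD, hmap D' hD'⟩

lemma edgeless_PS [IsEmpty G.E] [Fintype G.V] [DecidableEq G.V] :
    G.parrySullivan = 1 := by
  rw [DG.parrySullivan]
  have : G.adjMatrix = 0 := by
    ext u v
    show ((Nat.card {e : G.E // G.s e = u ∧ G.t e = v} : ℕ) : ℤ) = 0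
    have : IsEmpty {e : G.E // G.s e = u ∧ G.t e = v} := ⟨fun e => isEmptyElim e.1⟩
    simp
  rw [this, sub_zero, Matrix.det_one]

end Pool.Agent.X221.PS
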