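import Mathlib
import Pool.Agent.X221.PS.Gr

/-!
# Equivalent diagram categories have the same Parry-Sullivan number
-/

namespace Pool.Agent.X221.PS

open CategoryTheory Limits

variable {G H : DG}

lemma Rel_iff (x x' : Path G) :
    (∃ n, Rel x x' n) ↔ ∃ a b : ℕ, Path.sh^[a] x = Path.sh^[b] x' :=
  ⟨fun ⟨_, i, j, _, h⟩ => ⟨j, i, h.symm⟩, fun ⟨a, b, h⟩ => ⟨(b : ℤ) - a, b, a, rfl, h.symm⟩⟩

theorem main_edges (hG : G.Irreducible) (hH : H.Irreducible) [Fintype G.V] [DecidableEq G.V]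
    [Fintype H.V] [DecidableEq H.V] [Finite G.E] [Finite H.E] [Nonempty G.E] [Nonempty H.E]
    (hSG : Sep G) (hSH : Sep H) (F : Tot G ⥤ Tot H) [F.IsEquivalence] :
    G.parrySullivan = H.parrySullivan := by
  classical
  have := Fintype.ofFinite G.E
  have := Fintype.ofFinite H.E
  obtain ⟨h, Ψ, ⟨n, hn⟩, hΨ1, hΨ2, hΨ3, hΨ4, hinj⟩ := thmA F (conn hG) hSG (conn hH) hSH
  obtain ⟨T, i1, i2, relT, cT, w, PT, hw, hdet⟩ := reduce (pathPres hG) h n (by
    intro x y hxy
    apply hn
    intro i hi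
    have h1 := hxy i (by omega)
    rwa [iter_apply, iter_apply, zero_add] at h1)
  have hw' : h = fun x => w (cT x) := funext hw
  subst hw'
  have key := det_compare' PT (pathPres hH) w Ψ hΨ1 hΨ2 (by
    intro x y x' y' hxy hxy'
    rw [← Rel_iff, ← Rel_iff]
    exact hΨ3 x y x' y' hxy hxy') hΨ4 hinj
  have e1 : ((G.parrySullivan : ℤ) : ℚ) = ((H.parrySullivan : ℤ) : ℚ) := by
    have e2 := det_edge (G := G)
    have e3 := det_edge (G := H)
    have e4 : ∀ (K : DG) (i j : DecidableEq K.V) (_ : Fintype K.V),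
        @DG.parrySullivan K _ i = @DG.parrySullivan K _ j := by
      intro K i j _
      congr 1
    rw [e4 G _ (fun a b => Classical.propDecidable (a = b)),
      e4 H _ (fun a b => Classical.propDecidable (a = b)), e2, e3, ← hdet, key]
  exact_mod_cast e1

theorem main (hG : G.Irreducible) (hH : H.Irreducible) [Fintype G.V] [DecidableEq G.V]
    [Fintype H.V] [DecidableEq H.V] [Finite G.E] [Finite H.E] [Nonempty G.V] [Nonempty H.V]
    (hcG : ¬ G.IsCycle) (hcH : ¬ H.IsCycle) (e : Diag G Ob ≌ Diag H Ob) :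
    G.parrySullivan = H.parrySullivan := by
  rcases isEmpty_or_nonempty G.E with h1 | h1 <;> rcases isEmpty_or_nonempty H.E with h2 | h2
  · rw [edgeless_PS, edgeless_PS]
  · exfalso
    have hd := edgeless_dir hG
    have hd' := Dir_map (e.functor ⋙ totF H (noSrc hH)) hd
    exact not_Dir (sep' hH hcH) hd'
  · exfalso
    have hd := edgeless_dir hH
    have hd' := Dir_map (e.inverse ⋙ totF G (noSrc hG)) hd
    exact not_Dir (sep' hG hcG) hd'
  · exact main_edges hG hH (sep' hG hcG) (sep' hH hcH)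
      ((totF G (noSrc hG)).inv ⋙ e.functor ⋙ totF H (noSrc hH))

end Pool.Agent.X221.PS
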